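import Pool.Agent.helper71.FF.AppB
import Pool.Agent.helper12.RS.Kmax

/-!
# Far field programs: the domain
-/

namespace Pool.Agent.helper71.FF

open Complex ComplexConjugate Pool.Agent.helper31.EQ.Y Pool.Agent.helper31.EQ.R
open Pool.Agent.helper12.EQL Pool.Agent.helper12.RP Pool.Agent.helper12.FF Pool.Agent.helper63.FF

variable {κ : ℝ} {τ : ℂ} {R w : ℝ} {v : B1}

theorem PtD.rt_lt (D : PtD κ τ R w) (hκ : 0 < κ) : rt (shf κ τ) < R := by
  obtain ⟨hτ0, hs⟩ := reg_s hκ D.R2.le D.τ0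
  have hs0 := shf_re hκ hτ0.le
  unfold rt
  rw [div_lt_iff₀ (add_one_pos hs0)]
  exact hs

theorem Geo.om1_lt (G : Geo κ (shf κ τ) v) (D : PtD κ τ R w) : v.om1 < R * v.op1 := by
  have h1 := D.rt_lt G.κ0
  have h2 := G.rt_eq
  have := mul_lt_mul_of_pos_right h1 G.op0
  linarith

/-- `t - K ≤ λ` -/
theorem Geo.t_le (G : Geo κ (shf κ τ) v) (v2 : B2 v) (D : PtD κ τ R w) : v.t - v.K ≤ v2.lm := by
  obtain ⟨hR1, h1⟩ := G.lm_ge v2 D.R0 D.R1
  refine le_trans ?_ h1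
  have h2 := G.om1_lt D
  have hom := G.om0
  have ht := G.t0
  have hK := G.K0
  have h3 : v.om1 = 1 - v.om := v.e_om1
  have h4 : v.op1 = 1 + v.om := v.e_op1
  have h1R : 0 < 1 - R := by linarith
  -- 1 - ω < 2 R/(1-R) ω
  have h5 : v.om1 ≤ 2 * (R / (1 - R)) * v.om := by
    rw [h3, h4] at h2
    have h6 : (1 - v.om) * (1 - R) ≤ 2 * R * v.om := by linarith
    have h7 : 2 * (R / (1 - R)) * v.om = 2 * R * v.om / (1 - R) := by ring
    rw [h7, h3, le_div_iff₀ h1R]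
    exact h6
  have h8 : v.t - v.K = v.t * v.om1 := by rw [G.Kom, h3]; ring
  have h9 := mul_le_mul_of_nonneg_left h5 ht.le
  have e1 : v.t * (2 * (R / (1 - R)) * v.om) = 2 * v.K * (R / (1 - R)) := by rw [G.Kom]; ring
  rw [h8, ← e1]
  exact h9

/-- `(1 - ω) (1 + Y Yp) ≤ 1` -/
theorem Geo.yv_le (G : Geo κ (shf κ τ) v) (v2 : B2 v) (D : PtD κ τ R w) :
    v.om1 * (1 + v2.Y * v2.Yp) ≤ 1 := by
  have hκ := G.κ0
  have h1 := G.Yp_le v2
  have h2 : Real.exp (2 * v2.Y) ≤ Real.exp (2 * κ * (49 / 10)) := by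
    apply Real.exp_le_exp.2
    rw [v2.e_Y]
    have := G.h_le
    linarith
  obtain ⟨hY, -, hYp⟩ := G.Yp0 v2
  have h3 : v.om1 = 1 - v.om := v.e_om1
  have h4 : v.op1 = 1 + v.om := v.e_op1
  have h5 := G.om1_lt D
  have hom := G.om0
  have hR0 := D.R0
  have h6 : R * Real.exp (2 * κ * (49 / 10)) ≤ 1 := by
    have h6 := mul_le_mul_of_nonneg_right D.R1 (Real.exp_pos (2 * κ * (49 / 10))).le
    rw [← Real.exp_add] at h6
    simpa using h6
  have h7 : R * (2 * (v2.Y * v2.Yp) + 1) ≤ 1 := by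
    refine le_trans (mul_le_mul_of_nonneg_left ?_ hR0.le) h6
    linarith
  -- 1 - ω < R (2 - (1 - ω))
  have h8 : v.om1 * (1 + R) < 2 * R := by
    rw [h4] at h5
    have : v.om = 1 - v.om1 := by linarith
    rw [this] at h5
    linarith
  have hP : 0 ≤ v2.Y * v2.Yp := by positivity
  obtain ⟨P, hPd⟩ : ∃ P, P = v2.Y * v2.Yp := ⟨_, rfl⟩
  rw [← hPd] at h7 hP ⊢
  have h9 := mul_le_mul_of_nonneg_right h8.le (by linarith : 0 ≤ 1 + P)
  have h10 : 2 * R * (1 + P) ≤ 1 + R := by linarith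
  have h11 : v.om1 * (1 + P) * (1 + R) ≤ 1 * (1 + R) := by linarith
  exact le_of_mul_le_mul_right h11 (by linarith)

/-- the variables `yv`, `psi` -/
theorem cv_of (G : Geo κ (shf κ τ) v) (v2 : B2 v) (D : PtD κ τ R w) :
    ∃ yv psi : ℝ, CV v v2 yv psi ∧ 0 ≤ yv ∧ yv ≤ 1 ∧ 0 ≤ psi ∧ psi ≤ 1 := by
  obtain ⟨hY, -, hYp⟩ := G.Yp0 v2
  have h1 := G.om1_0
  have h2 := G.om_le_u
  have h3 : v.om1 = 1 - v.om := v.e_om1
  have hu1 := G.u1
  refine ⟨v.om1 * (1 + v2.Y * v2.Yp), 1 - (1 - v.u) / v.om1, ⟨rfl, ?_⟩, by positivity,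
    G.yv_le v2 D, ?_, ?_⟩
  · rcases h1.eq_or_lt with h | h
    · rw [← h, zero_mul]
      linarith
    · field_simp
      ring
  · rcases h1.eq_or_lt with h | h
    · rw [← h, div_zero]; norm_num
    · have : (1 - v.u) / v.om1 ≤ 1 := by
        rw [div_le_one h]; linarith
      linarith
  · have : 0 ≤ (1 - v.u) / v.om1 := div_nonneg (by linarith) h1
    linarith

theorem j_eq (v : B1) : v.j = (1 - v.h * v.h)⁻¹ := by rw [v.e_j, v.e_jm]

theorem pY_eq (v2 : B2 v) : v2.pY =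
    1 + v2.Y * ((1 / 2) * 1 + v2.Y * ((341 / 8192) * v2.Y + (1365 / 8192))) := by
  rw [v2.e_pY]; ring

/-- `e K > 1/2` -/
theorem Geo.eK_gt {s : ℂ} (G : Geo κ s v) (h : 1 / 2 < v.e * κ) : 1 / 2 < v.e * v.K := by
  rw [G.K]
  have h1 := Real.self_le_sinh_iff.2 G.κ0.le
  have := mul_le_mul_of_nonneg_left h1 G.e0.le
  linarith

theorem sinh_le {x : ℝ} (h0 : 0 ≤ x) (h1 : x ≤ 1 / 8) : Real.sinh x ≤ x * (1 + 1 / 256) := by
  have h2 := exp_b3 h0 (by linarith)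
  have h3 : 1 - x + x ^ 2 / 2 - x ^ 3 / 6 ≤ Real.exp (-x) := by
    have h5 := exp_b4 h0 (by linarith)
    have hE := Real.exp_pos x
    have h6 : Real.exp (-x) * Real.exp x = 1 := by rw [← Real.exp_add]; simp
    have h7 : 0 ≤ 1 - x + x ^ 2 / 2 - x ^ 3 / 6 := by
      nlinarith [pow_nonneg h0 2, pow_nonneg h0 3]
    have h8 : (1 - x + x ^ 2 / 2 - x ^ 3 / 6) * (1 + x + x ^ 2 / 2 + x ^ 3 / 6 + 5 / 96 * x ^ 4) ≤
        1 := by
      have e1 : 1 - (1 - x + x ^ 2 / 2 - x ^ 3 / 6) *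
          (1 + x + x ^ 2 / 2 + x ^ 3 / 6 + 5 / 96 * x ^ 4) =
          x ^ 4 * (1 / 32 + x * (5 / 96) + x ^ 2 * (1 / 576) + x ^ 3 * (5 / 576)) := by
        ring
      have : 0 ≤ x ^ 4 * (1 / 32 + x * (5 / 96) + x ^ 2 * (1 / 576) + x ^ 3 * (5 / 576)) := by
        positivity
      linarith
    have h9 := mul_le_mul_of_nonneg_left h5 h7
    by_contra hc
    push Not at hc
    have := mul_lt_mul_of_pos_right hc hE
    linarith
  rw [Real.sinh_eq]
  nlinarith [pow_nonneg h0 2, pow_nonneg h0 3]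

/-- `e K ≤ 1/2 + 2⁻⁸` when `e κ ≤ 1/2`, `e ≥ 4` -/
theorem Geo.eK_le {s : ℂ} (G : Geo κ s v) (he : 4 ≤ v.e) (h : v.e * κ ≤ 1 / 2) :
    κ ≤ 1 / 8 ∧ v.e * v.K ≤ 129 / 256 := by
  have hκ := G.κ0
  have h1 : κ ≤ 1 / 8 := by nlinarith
  refine ⟨h1, ?_⟩
  rw [G.K]
  have h2 := sinh_le hκ.le h1
  have := mul_le_mul_of_nonneg_left h2 G.e0.le
  nlinarith

/-- infeasible `κ` -/
theorem dk_core {e κ h rh lk ei a me b : ℝ} (he : 0 < e) (hκ : 0 < κ)
    (hh : h = Real.tanh (κ / 2)) (e_rh : rh = 2 * (h * (h + 1)⁻¹)) (e_lk : lk = Real.log (1 - rh))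
    (e_ei : ei = e⁻¹) (e_a : a = 1 - Real.exp ((-363409 / 262144) * ei))
    (e_me : me = Real.exp (e * lk)) (e_b : b = Real.exp (2 * (Real.log (me + 1) * ei)))
    (hB : 0 < rh * rh - a * b) :
    4 ^ (1 / e) - 1 ≤ Pool.Agent.helper12.RS.kfun e κ := by
  -- rh = 1 - exp (-κ)
  have hc2 := Real.cosh_pos (κ / 2)
  have h1 : rh = 1 - Real.exp (-κ) := by
    rw [e_rh, hh, Real.tanh_eq_sinh_div_cosh]
    have hp : 0 < Real.sinh (κ / 2) / Real.cosh (κ / 2) + 1 := by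
      have : 0 < Real.sinh (κ / 2) := Real.sinh_pos_iff.2 (by linarith)
      positivity
    have e1 : Real.exp (-κ) = Real.exp (-(κ / 2)) ^ 2 := by
      rw [← Real.exp_nat_mul]; congr 1; push_cast; ring
    have e2 : Real.exp (κ / 2) * Real.exp (-(κ / 2)) = 1 := by
      rw [← Real.exp_add]; simp
    have hpe := Real.exp_pos (κ / 2)
    have hne := Real.exp_pos (-(κ / 2))
    rw [e1]
    rw [← div_eq_mul_inv, ← mul_div_assoc, div_eq_iff hp.ne']
    rw [Real.sinh_eq, Real.cosh_eq]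
    have hs : Real.exp (κ / 2) + Real.exp (-(κ / 2)) ≠ 0 := by positivity
    obtain ⟨p, hp'⟩ : ∃ p, p = Real.exp (κ / 2) := ⟨_, rfl⟩
    obtain ⟨q, hq'⟩ : ∃ q, q = Real.exp (-(κ / 2)) := ⟨_, rfl⟩
    rw [← hp', ← hq'] at e2 hs ⊢
    have hs2 : (p + q) / 2 ≠ 0 := by
      intro h0; apply hs; linarith
    field_simp
    linear_combination (2 * q) * e2
  have h2 : lk = -κ := by rw [e_lk, h1, sub_sub_cancel, Real.log_exp]
  have h3 : me = Real.exp (-(e * κ)) := by rw [e_me, h2]; congr 1; ring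
  have hme : 0 < me := by rw [h3]; exact Real.exp_pos _
  -- a ≥ 1 - 4^(-1/e)
  have h4 : 1 - 4 ^ (-(1 / e)) ≤ a := by
    rw [e_a, e_ei]
    have : Real.exp ((-363409 / 262144) * e⁻¹) ≤ (4 : ℝ) ^ (-(1 / e)) := by
      rw [Real.rpow_def_of_pos (by norm_num)]
      apply Real.exp_le_exp.2
      have h5 : Real.log 4 ≤ 363409 / 262144 := by
        have h6 : Real.log 4 = 2 * Real.log 2 := by
          rw [show (4 : ℝ) = 2 ^ 2 by norm_num, Real.log_pow]; norm_num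
        rw [h6]
        have := Real.log_two_lt_d9
        norm_num at this ⊢
        linarith
      have h7 : 0 < e⁻¹ := by positivity
      rw [one_div]
      nlinarith
    linarith
  have h5 : b = (me + 1) ^ (2 / e) := by
    rw [e_b, e_ei, Real.rpow_def_of_pos (by linarith)]
    congr 1
    rw [div_eq_mul_inv]
    ring
  -- cosh (eκ/2)^(2/e) = exp κ (1 + me)^(2/e) 4^(-1/e)
  have h6 : Real.cosh (e * κ / 2) ^ (2 / e) = Real.exp κ * (me + 1) ^ (2 / e) * 4 ^ (-(1 / e)) := by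
    have e1 : Real.cosh (e * κ / 2) = Real.exp (e * κ / 2) * (me + 1) * (2 : ℝ)⁻¹ := by
      rw [Real.cosh_eq, h3, mul_add, mul_one, ← Real.exp_add]
      have : e * κ / 2 + -(e * κ) = -(e * κ / 2) := by ring
      rw [this]
      ring
    have e2 : (4 : ℝ) ^ (-(1 / e)) = (2 : ℝ)⁻¹ ^ (2 / e) := by
      rw [Real.inv_rpow (by norm_num), ← Real.rpow_neg (by norm_num),
        show (4 : ℝ) = 2 ^ (2 : ℝ) by norm_num, ← Real.rpow_mul (by norm_num)]
      congr 1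
      ring
    rw [e1, e2, Real.mul_rpow (by positivity) (by norm_num), Real.mul_rpow (by positivity) (by positivity),
      ← Real.exp_mul]
    congr 3
    field_simp
  have h7 : 2 * (Real.cosh κ - 1) = Real.exp κ * (rh * rh) := by
    rw [h1, Real.cosh_eq]
    have : Real.exp κ * Real.exp (-κ) = 1 := by rw [← Real.exp_add]; simp
    linear_combination (-2 + Real.exp (-κ)) * this * (-1)
  unfold Pool.Agent.helper12.RS.kfun
  have hp : 0 < Real.cosh (e * κ / 2) ^ (2 / e) := Real.rpow_pos_of_pos (Real.cosh_pos _) _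
  rw [le_div_iff₀ hp, h6, h7]
  have h8 : (4 : ℝ) ^ (1 / e) * 4 ^ (-(1 / e)) = 1 := by
    rw [← Real.rpow_add (by norm_num)]; simp
  have hb0 : 0 < (me + 1) ^ (2 / e) := Real.rpow_pos_of_pos (by linarith) _
  have h9 : (1 - 4 ^ (-(1 / e))) * b ≤ a * b := by
    apply mul_le_mul_of_nonneg_right h4
    rw [h5]; exact hb0.le
  have h10 : (4 ^ (1 / e) - 1) * (Real.exp κ * (me + 1) ^ (2 / e) * 4 ^ (-(1 / e))) =
      Real.exp κ * ((1 - 4 ^ (-(1 / e))) * b) := by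
    rw [h5]
    linear_combination (Real.exp κ * (me + 1) ^ (2 / e)) * h8
  rw [h10]
  apply mul_le_mul_of_nonneg_left _ (Real.exp_pos κ).le
  linarith

end Pool.Agent.helper71.FF
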