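import Pool.Agent.helper71.FF.Real

/-!
# Far field programs: intervals of the boxes
-/

namespace Pool.Agent.helper71.FF

theorem ib {x lo hi : ℝ} {c h : ℕ} (h1 : ((c : ℝ) - h) / 2 ^ 40 ≤ lo)
    (h2 : hi ≤ ((c : ℝ) + h) / 2 ^ 40) (hx : lo ≤ x) (hx' : x ≤ hi) :
    |x - ((c, h) : ℕ × ℕ).1 / 2 ^ 40| ≤ (((c, h) : ℕ × ℕ).2 : ℝ) / 2 ^ 40 := by
  rw [sub_div] at h1
  rw [add_div] at h2
  rw [abs_le]
  constructor <;> simp only <;> linarith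

end Pool.Agent.helper71.FF
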