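import Pool.Agent.helper71.FF.Fin2
import Pool.Agent.helper71.FF.Dom
import Pool.Agent.helper71.FF.Ib

/-!
# Far field programs: crude bounds
-/

namespace Pool.Agent.helper71.FF

open Complex ComplexConjugate Pool.Agent.helper31.EQ.Y Pool.Agent.helper31.EQ.R
open Pool.Agent.helper12.EQL Pool.Agent.helper12.RP Pool.Agent.helper12.FF Pool.Agent.helper63.FF

variable {κ : ℝ} {τ : ℂ} {R w : ℝ} {v : B1}

theorem Geo.j_le {s : ℂ} (G : Geo κ s v) {h0 : ℝ} (hh0 : h0 < 1) (hh : v.h ≤ h0) :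
    v.j ≤ (1 - h0 ^ 2)⁻¹ := by
  rw [j_eq]
  have := G.h0
  apply inv_anti₀ (by nlinarith)
  nlinarith

/-- a crude bound of `t` -/
theorem Geo.t_crude (G : Geo κ (shf κ τ) v) (v2 : B2 v) (D : PtD κ τ R w) {h0 : ℝ}
    (hh0 : h0 < 1) (hh : v.h ≤ h0) : v.t ≤ (2 * h0 + 209 / 1024) * (1 - h0 ^ 2)⁻¹ := by
  have h1 := G.t_le v2 D
  have hj := G.j_le hh0 hh
  have hj0 := G.jgt
  have hh1 := G.h0
  obtain ⟨hY, hp, hYp⟩ := G.Yp0 v2
  have hY1 : 1 ≤ v2.Yp := by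
    have h3 : 1 ≤ v2.pY := by
      rw [v2.e_pY]
      have : 0 ≤ v2.Y * ((1 / 2) + v2.Y * ((341 / 8192) * v2.Y + (1365 / 8192))) := by positivity
      linarith
    rw [v2.e_Yp]
    have h4 : 0 ≤ (1 / 2) * (v2.Y * v2.pY) := by positivity
    nlinarith
  have h5 : v2.lm ≤ 209 / 1024 * v.j := by
    rw [v2.e_lm]
    have : v2.Yp⁻¹ ≤ 1 := inv_le_one_of_one_le₀ hY1
    have h6 : 0 ≤ 209 / 1024 * v.j := by positivity
    have := mul_le_mul_of_nonneg_left this h6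
    linarith
  have h7 : v.K = 2 * (v.h * v.j) := v.e_K
  have h8 : v.t ≤ (2 * v.h + 209 / 1024) * v.j := by rw [h7] at h1; linarith
  refine h8.trans ?_
  apply mul_le_mul (by linarith) hj (by linarith) (by linarith)

end Pool.Agent.helper71.FF
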