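import Pool.Agent.helper71.FF.Crt.Cov
import Pool.Agent.helper71.FF.Crude

/-!
# The far field for `4 ≤ e ≤ 20`
-/

namespace Pool.Agent.helper71.FF

open Complex ComplexConjugate Pool.Agent.helper31.EQ.Y Pool.Agent.helper31.EQ.R
open Pool.Agent.helper12.EQL Pool.Agent.helper12.RP Pool.Agent.helper12.FF Pool.Agent.helper63.FF

variable {κ : ℝ} {τ : ℂ} {R w : ℝ} {v : B1}

/-- the constant of the radii -/
noncomputable def Af (e κ : ℝ) : ℝ := if e * κ ≤ 1 / 2 then 21 / 10 + e / 12 else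
  (2 + e / 4) ^ 3 / ((2 + e / 4) ^ 2 + 7 / 10 * (e * Real.sinh κ) ^ 2)

/-- **The conditions per point**, `4 ≤ e ≤ 20`. -/
theorem farPt20 {e κ : ℝ} (h4 : 4 ≤ e) (h20 : e ≤ 20) (hκ : 0 < κ)
    (hk : Pool.Agent.helper12.RS.kfun e κ < 4 ^ (1 / e) - 1) {τ : ℂ} {R w : ℝ}
    (D : PtD κ τ R w) {E : Set ℂ} (hE : ∀ τ' : ℂ, 0 < τ'.re → τ' ∈ E) :
    FarPt e κ (1 - Real.sinh κ / 1024) w (2 * Af e κ * Real.sinh κ ^ 2) R E τ := by
  obtain ⟨hτ0, -⟩ := reg_s hκ D.R2.le D.τ0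
  have hs0 := shf_re hκ hτ0.le
  obtain ⟨v, ve, vt, vu, vn⟩ := exB1 e (Real.sinh κ * sa (shf κ τ) / su (shf κ τ))
    (su (shf κ τ)) ((1 - Real.tanh (κ / 2) ^ 2) / sa (shf κ τ))
  have G : Geo κ (shf κ τ) v := geo_of hκ hs0 v (by rw [ve]; linarith) vt vu vn
  obtain ⟨v2⟩ := exB2 v
  have he4 : 4 ≤ v.e := by rw [ve]; exact h4
  have he20 : v.e ≤ 20 := by rw [ve]; exact h20
  have ht := G.t0
  have hu := G.u0
  have hu1 := G.u1
  have hn := G.n0
  have hn1 : v.n ≤ 1 := by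
    have h1 := G.nj1
    have h2 := G.jjm
    have h3 : v.nj = v.n * v.j := v.e_nj
    have h4 : v.n = v.nj * v.jm := by rw [h3]; linear_combination (-v.n) * h2
    have h5 : v.jm ≤ 1 := by rw [v.e_jm]; nlinarith [G.h0]
    rw [h4]
    have := G.jm0
    have := G.nj0
    nlinarith
  rw [← ve]
  by_cases hs : e * κ ≤ 1 / 2
  · have hA : Af v.e κ = AS v.e v.K := by
      unfold Af AS
      rw [if_pos (by rw [ve]; exact hs)]
    rw [hA]
    obtain ⟨hκ8, heK⟩ := G.eK_le he4 (by rw [ve]; exact hs)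
    have hh : v.h ≤ 1 / 16 := by have := G.h_le; linarith
    have ht1 := G.t_crude v2 D (by norm_num) hh
    norm_num at ht1
    exact ptS D G (by linarith) hE heK
      (covS he4 he20 ht.le (by linarith) hu.le hu1 hn.le hn1)
  · push Not at hs
    have hA : Af v.e κ = AG v.e v.K := by
      unfold Af AG
      rw [if_neg (by rw [ve]; exact not_le.2 hs), G.K]
    rw [hA]
    have heK := G.eK_gt (by rw [ve]; exact hs)
    rcases le_total v.h (13 / 128) with hh | hh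
    · have ht1 := G.t_crude v2 D (by norm_num) hh
      norm_num at ht1
      exact ptG D G (by linarith) hE heK hh
        (covG he4 he20 ht.le (by linarith) hu.le hu1 hn.le hn1)
    · obtain ⟨yv, psi, cy, y0, y1, p0, p1⟩ := cv_of G v2 D
      have hk' : Pool.Agent.helper12.RS.kfun v.e κ < 4 ^ (1 / v.e) - 1 := by rw [ve]; exact hk
      have hh1 := h_lt he4 he20 hκ hk'
      rw [← G.h] at hh1
      exact ptC D G v2 (by linarith) hE hk' cy (covC he4 he20 hh hh1 y0 y1 p0 p1)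

/-- **Far field data**, `4 ≤ e ≤ 20`. -/
noncomputable def far20 {e κ : ℝ} (h4 : 4 ≤ e) (h20 : e ≤ 20) (hκ : 0 < κ)
    (hk : Pool.Agent.helper12.RS.kfun e κ < 4 ^ (1 / e) - 1) :
    FarN e κ (1 - Real.sinh κ / 1024) :=
  have hm : 1 < Real.exp κ := Real.one_lt_exp_iff.2 hκ
  have hA : 0 < Af e κ := by
    unfold Af
    split_ifs <;> positivity
  have hK : 0 < Real.sinh κ := Real.sinh_pos_iff.2 hκ
  have hR1 : Real.exp (2 * κ) * Real.exp (-(2 * κ * (49 / 10))) < 1 := by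
    rw [← Real.exp_add, Real.exp_lt_one_iff]
    linarith
  farN_of (w := (1 + (9 / 10) * (Real.exp κ - 1))⁻¹) (B := 2 * Af e κ * Real.sinh κ ^ 2)
    (R0 := Real.exp (-(2 * κ * (49 / 10)))) (E := Set.univ) hκ
    (inv_pos.2 (by linarith)) (inv_lt_one_of_one_lt₀ (by linarith)) (by positivity)
    (Real.exp_pos _) hR1 isOpen_univ (fun _ _ => Set.mem_univ _)
    (fun R hR hR0 τ hτ => farPt20 h4 h20 hκ hk
      ⟨hR, hR0, (mul_le_mul_of_nonneg_left hR0 (Real.exp_pos _).le).trans_lt hR1, hτ.1, rfl⟩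
      (fun _ _ => Set.mem_univ _))

end Pool.Agent.helper71.FF
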