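import Pool.Agent.helper31.IC.EngD

/-!
# Real meaning of programs
-/

namespace Pool.Agent.helper71.FF

open Complex
open Pool.Agent.helper31.IA (Z Op get Asserts InBox)
open Pool.Agent.helper31.IC (CovD)

/-- value at an index, `0` outside -/
def rget : List ℝ → Nat → ℝ
  | [], _ => 0
  | x :: _, 0 => x
  | _ :: t, n + 1 => rget t n

theorem get_map (m : List ℝ) (i : Nat) :
    get (m.map (fun t : ℝ => (t : ℂ))) i = (rget m i : ℂ) := by
  induction m generalizing i with
  | nil => simp [Pool.Agent.helper31.IA.get, rget]
  | cons x t ih =>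
    cases i with
    | zero => rfl
    | succ n => exact ih n

/-- value of a real constant -/
noncomputable def zv (a b : Nat) : ℝ := ((a : ℝ) - b) / 2 ^ 40

/-- real meaning of a program -/
def RAs : List Op → List ℝ → Prop
  | [], _ => True
  | Op.const z :: t, m => ∀ v, v = zv z.a z.b → RAs t (v :: m)
  | Op.add i j :: t, m => ∀ v, v = rget m i + rget m j → RAs t (v :: m)
  | Op.sub i j :: t, m => ∀ v, v = rget m i - rget m j → RAs t (v :: m)
  | Op.mul i j :: t, m => ∀ v, v = rget m i * rget m j → RAs t (v :: m)
  | Op.scale z i :: t, m => ∀ v, v = zv z.a z.b * rget m i → RAs t (v :: m)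
  | Op.neg i :: t, m => ∀ v, v = -rget m i → RAs t (v :: m)
  | Op.inv i :: t, m => rget m i ≠ 0 ∧ ∀ v, v = (rget m i)⁻¹ → RAs t (v :: m)
  | Op.exp i :: t, m => ∀ v, v = Real.exp (rget m i) → RAs t (v :: m)
  | Op.log i :: t, m => 0 < rget m i ∧ ∀ v, v = Real.log (rget m i) → RAs t (v :: m)
  | Op.pos i :: t, m => 0 < rget m i ∧ RAs t m
  | Op.lt i B :: t, m => |rget m i| < (B : ℝ) / 2 ^ 40 ∧ RAs t m

/-- constants are real -/
def rOK : Op → Bool
  | Op.const z => Nat.beq z.c z.d
  | Op.scale z _ => Nat.beq z.c z.d
  | _ => true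

theorem zval {z : Z} (h : Nat.beq z.c z.d = true) : z.val = (zv z.a z.b : ℂ) := by
  have h1 : z.c = z.d := Nat.eq_of_beq_eq_true h
  unfold Z.val zv
  rw [h1, sub_self, zero_div]
  simp

theorem ras_of : ∀ (ops : List Op) (m : List ℝ), ops.all rOK = true →
    Asserts ops (m.map (fun t : ℝ => (t : ℂ))) → RAs ops m := by
  intro ops
  induction ops with
  | nil =>
    intro m _ _
    trivial
  | cons op t ih =>
    intro m hok h
    rw [List.all_cons, Bool.and_eq_true] at hok
    obtain ⟨h0, h1⟩ := hok
    have step : ∀ v : ℝ, Asserts t ((v : ℂ) :: m.map (fun t : ℝ => (t : ℂ))) → RAs t (v :: m) :=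
      fun v hv => ih (v :: m) h1 hv
    cases op with
    | const z =>
      intro v hv
      exact step v (h _ (by rw [zval h0, hv]))
    | add i j =>
      intro v hv
      exact step v (h _ (by rw [get_map, get_map, hv]; push_cast; rfl))
    | sub i j =>
      intro v hv
      exact step v (h _ (by rw [get_map, get_map, hv]; push_cast; rfl))
    | mul i j =>
      intro v hv
      exact step v (h _ (by rw [get_map, get_map, hv]; push_cast; rfl))
    | scale z i =>
      intro v hv
      exact step v (h _ (by rw [get_map, zval h0, hv]; push_cast; rfl))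
    | neg i =>
      intro v hv
      exact step v (h _ (by rw [get_map, hv]; push_cast; rfl))
    | inv i =>
      refine ⟨?_, ?_⟩
      · have := h.1
        rw [get_map] at this
        exact_mod_cast this
      · intro v hv
        exact step v (h.2 _ (by rw [get_map, hv]; push_cast; rfl))
    | exp i =>
      intro v hv
      exact step v (h _ (by rw [get_map, hv]; push_cast; rfl))
    | log i =>
      have h2 := h.1
      rw [get_map] at h2
      have h3 : 0 < rget m i := by
        rw [Complex.mem_slitPlane_iff] at h2
        rcases h2 with h2 | h2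
        · simpa using h2
        · simp at h2
      refine ⟨h3, ?_⟩
      intro v hv
      exact step v (h.2 _ (by rw [get_map, hv, Complex.ofReal_log h3.le]))
    | pos i =>
      have h2 := h.1
      rw [get_map, Complex.ofReal_re] at h2
      exact ⟨h2, ih m h1 h.2⟩
    | lt i B =>
      have h2 := h.1
      rw [get_map, Complex.norm_real, Real.norm_eq_abs] at h2
      exact ⟨h2, ih m h1 h.2⟩

/-- **Real form of a certificate.** -/
theorem ras_of_cov {progs : List (List Op)} (hok : progs.all (fun o => o.all rOK) = true)
    {box : List (Nat × Nat)} (h : CovD 0 progs box) {u : List ℝ} (hu : InBox box u) :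
    ∃ ops ∈ progs, RAs ops u := by
  obtain ⟨ops, ho, ha⟩ := h u [] hu rfl (by simp)
  rw [List.append_nil] at ha
  rw [List.all_eq_true] at hok
  exact ⟨ops, ho, ras_of ops u (hok ops ho) ha⟩

end Pool.Agent.helper71.FF
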