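import Pool.Agent.helper71.FF.Phi
import Pool.Agent.helper71.FF.Real

/-!
# Far field programs: existence of the named values, the constants `A`
-/

namespace Pool.Agent.helper71.FF

open Complex ComplexConjugate Pool.Agent.helper31.EQ.Y Pool.Agent.helper31.EQ.R
open Pool.Agent.helper12.EQL Pool.Agent.helper12.RP Pool.Agent.helper12.FF Pool.Agent.helper63.FF

variable {κ : ℝ} {s : ℂ} {v : B1}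

theorem exB1 (e t u n : ℝ) : ∃ v : B1, v.e = e ∧ v.t = t ∧ v.u = u ∧ v.n = n := by
  obtain ⟨tu, e_tu⟩ : ∃ zz : ℝ, zz = t * u := ⟨_, rfl⟩
  obtain ⟨h, e_h⟩ : ∃ zz : ℝ, zz = (1 / 2) * (tu * n) := ⟨_, rfl⟩
  obtain ⟨u2, e_u2⟩ : ∃ zz : ℝ, zz = u * u := ⟨_, rfl⟩
  obtain ⟨jm, e_jm⟩ : ∃ zz : ℝ, zz = 1 - h * h := ⟨_, rfl⟩
  obtain ⟨j, e_j⟩ : ∃ zz : ℝ, zz = jm⁻¹ := ⟨_, rfl⟩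
  obtain ⟨K, e_K⟩ : ∃ zz : ℝ, zz = 2 * (h * j) := ⟨_, rfl⟩
  obtain ⟨c0, e_c0⟩ : ∃ zz : ℝ, zz = 2 * j - 1 := ⟨_, rfl⟩
  obtain ⟨m, e_m⟩ : ∃ zz : ℝ, zz = c0 + K := ⟨_, rfl⟩
  obtain ⟨nj, e_nj⟩ : ∃ zz : ℝ, zz = n * j := ⟨_, rfl⟩
  obtain ⟨om, e_om⟩ : ∃ zz : ℝ, zz = u * nj := ⟨_, rfl⟩
  obtain ⟨om1, e_om1⟩ : ∃ zz : ℝ, zz = 1 - om := ⟨_, rfl⟩
  obtain ⟨op1, e_op1⟩ : ∃ zz : ℝ, zz = 1 + om := ⟨_, rfl⟩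
  obtain ⟨R, e_R⟩ : ∃ zz : ℝ, zz = t * u2 := ⟨_, rfl⟩
  obtain ⟨Dt, e_Dt⟩ : ∃ zz : ℝ, zz = K * om + 2 * c0 + t := ⟨_, rfl⟩
  obtain ⟨D, e_D⟩ : ∃ zz : ℝ, zz = R * Dt := ⟨_, rfl⟩
  obtain ⟨SQ, e_SQ⟩ : ∃ zz : ℝ, zz = D + 1 := ⟨_, rfl⟩
  obtain ⟨c2, e_c2⟩ : ∃ zz : ℝ, zz = 2 * (K * K) + 1 := ⟨_, rfl⟩
  obtain ⟨rhat, e_rhat⟩ : ∃ zz : ℝ, zz = c0 * Dt - 1 := ⟨_, rfl⟩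
  obtain ⟨LQ, e_LQ⟩ : ∃ zz : ℝ, zz = Real.log SQ := ⟨_, rfl⟩
  obtain ⟨aQ, e_aQ⟩ : ∃ zz : ℝ, zz = Real.exp ((1 / 2) * LQ) := ⟨_, rfl⟩
  obtain ⟨ee, e_ee⟩ : ∃ zz : ℝ, zz = (1 / 2) * e := ⟨_, rfl⟩
  obtain ⟨rho, e_rho⟩ : ∃ zz : ℝ, zz = ee * LQ := ⟨_, rfl⟩
  obtain ⟨q, e_q⟩ : ∃ zz : ℝ, zz = Real.exp (-rho) := ⟨_, rfl⟩
  obtain ⟨D2, e_D2⟩ : ∃ zz : ℝ, zz = 4 * (c0 * R * rhat) := ⟨_, rfl⟩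
  obtain ⟨L2, e_L2⟩ : ∃ zz : ℝ, zz = Real.log (D2 + 1) - LQ := ⟨_, rfl⟩
  obtain ⟨rp, e_rp⟩ : ∃ zz : ℝ, zz = ee * L2 := ⟨_, rfl⟩
  obtain ⟨qp, e_qp⟩ : ∃ zz : ℝ, zz = Real.exp (-rp) := ⟨_, rfl⟩
  obtain ⟨ioK, e_ioK⟩ : ∃ zz : ℝ, zz = (c0 + om * K)⁻¹ := ⟨_, rfl⟩
  obtain ⟨h1t, e_h1t⟩ : ∃ zz : ℝ, zz = op1 * ioK := ⟨_, rfl⟩
  obtain ⟨h1, e_h1⟩ : ∃ zz : ℝ, zz = om1 * t * h1t := ⟨_, rfl⟩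
  obtain ⟨nj2, e_nj2⟩ : ∃ zz : ℝ, zz = nj * nj := ⟨_, rfl⟩
  obtain ⟨f2, e_f2⟩ : ∃ zz : ℝ, zz = nj2 * (1 - u2) := ⟨_, rfl⟩
  obtain ⟨tu2, e_tu2⟩ : ∃ zz : ℝ, zz = tu * tu := ⟨_, rfl⟩
  obtain ⟨w, e_w⟩ : ∃ zz : ℝ, zz = (c0 + R)⁻¹ * e := ⟨_, rfl⟩
  obtain ⟨x, e_x⟩ : ∃ zz : ℝ, zz = w * w * (tu2 * (1 - u2) * (1 - nj2)) := ⟨_, rfl⟩
  obtain ⟨ei, e_ei⟩ : ∃ zz : ℝ, zz = e⁻¹ := ⟨_, rfl⟩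
  exact ⟨⟨e, t, u, n, tu, h, u2, jm, j, K, c0, m, nj, om, om1, op1, R, Dt, D, SQ, c2, rhat, LQ, aQ, ee, rho, q, D2, L2, rp, qp, ioK, h1t, h1, nj2, f2, tu2, w, x, ei, e_tu, e_h, e_u2, e_jm, e_j, e_K, e_c0, e_m, e_nj, e_om, e_om1, e_op1, e_R, e_Dt, e_D, e_SQ, e_c2, e_rhat, e_LQ, e_aQ, e_ee, e_rho, e_q, e_D2, e_L2, e_rp, e_qp, e_ioK, e_h1t, e_h1, e_nj2, e_f2, e_tu2, e_w, e_x, e_ei⟩, rfl, rfl, rfl, rfl⟩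

theorem exB2 (v : B1) : Nonempty (B2 v) := by
  obtain ⟨Y, e_Y⟩ : ∃ zz : ℝ, zz = (10035 / 1024) * v.h := ⟨_, rfl⟩
  obtain ⟨pY, e_pY⟩ : ∃ zz : ℝ, zz = 1 + Y * ((1 / 2) + Y * ((341 / 8192) * Y + (1365 / 8192))) := ⟨_, rfl⟩
  obtain ⟨Yp, e_Yp⟩ : ∃ zz : ℝ, zz = pY * (1 + (1 / 2) * (Y * pY)) := ⟨_, rfl⟩
  obtain ⟨lm, e_lm⟩ : ∃ zz : ℝ, zz = (209 / 1024) * v.j * Yp⁻¹ := ⟨_, rfl⟩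
  obtain ⟨ih, e_ih⟩ : ∃ zz : ℝ, zz = (v.h + 1)⁻¹ := ⟨_, rfl⟩
  obtain ⟨rh, e_rh⟩ : ∃ zz : ℝ, zz = 2 * (v.h * ih) := ⟨_, rfl⟩
  obtain ⟨mi, e_mi⟩ : ∃ zz : ℝ, zz = 1 - rh := ⟨_, rfl⟩
  obtain ⟨hm, e_hm⟩ : ∃ zz : ℝ, zz = 1 - v.h := ⟨_, rfl⟩
  obtain ⟨nih, e_nih⟩ : ∃ zz : ℝ, zz = v.n * ih := ⟨_, rfl⟩
  obtain ⟨bsum, e_bsum⟩ : ∃ zz : ℝ, zz = v.op1 + nih * mi := ⟨_, rfl⟩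
  obtain ⟨eK, e_eK⟩ : ∃ zz : ℝ, zz = v.e * v.K := ⟨_, rfl⟩
  exact ⟨⟨Y, pY, Yp, lm, ih, rh, mi, hm, nih, bsum, eK, e_Y, e_pY, e_Yp, e_lm, e_ih, e_rh, e_mi, e_hm, e_nih, e_bsum, e_eK⟩⟩

theorem exGB (q x h1 : ℝ) : Nonempty (GB q x h1) := by
  obtain ⟨cc, e_cc⟩ : ∃ zz : ℝ, zz = 1 - x * ((1 / 2) - x * ((21845 / 524288) - (11651 / 8388608) * x)) := ⟨_, rfl⟩
  obtain ⟨q1, e_q1⟩ : ∃ zz : ℝ, zz = q + 1 := ⟨_, rfl⟩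
  obtain ⟨o2, e_o2⟩ : ∃ zz : ℝ, zz = q * q + 1 + 2 * (q * cc) := ⟨_, rfl⟩
  obtain ⟨P1, e_P1⟩ : ∃ zz : ℝ, zz = o2 * q1⁻¹ + q1 := ⟨_, rfl⟩
  obtain ⟨qh, e_qh⟩ : ∃ zz : ℝ, zz = (1 / 2) * (q * h1) := ⟨_, rfl⟩
  obtain ⟨W, e_W⟩ : ∃ zz : ℝ, zz = o2 - qh * P1 := ⟨_, rfl⟩
  exact ⟨⟨cc, q1, o2, P1, qh, W, e_cc, e_q1, e_o2, e_P1, e_qh, e_W⟩⟩

theorem exB3 (v : B1) : Nonempty (B3 v) := by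
  obtain ⟨hpt, e_hpt⟩ : ∃ zz : ℝ, zz = v.om1 * v.op1 * ((v.c0 + v.t) * (v.c2 + 2 * (v.om * v.c0 * v.K)))⁻¹ := ⟨_, rfl⟩
  obtain ⟨hp, e_hp⟩ : ∃ zz : ℝ, zz = v.t * hpt := ⟨_, rfl⟩
  obtain ⟨xp, e_xp⟩ : ∃ zz : ℝ, zz = v.x * v.SQ⁻¹ := ⟨_, rfl⟩
  exact ⟨⟨hpt, hp, xp, e_hpt, e_hp, e_xp⟩⟩

theorem exB4 {v : B1} (v3 : B3 v) (b : GB v.qp v3.xp v3.hp) : Nonempty (B4 v3 b) := by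
  obtain ⟨gp, e_gp⟩ : ∃ zz : ℝ, zz = (1 / 2) * ((1 - v.qp) * b.q1 * b.W⁻¹) := ⟨_, rfl⟩
  obtain ⟨gap, e_gap⟩ : ∃ zz : ℝ, zz = gp * (gp + (1 / 2))⁻¹ := ⟨_, rfl⟩
  obtain ⟨hgp, e_hgp⟩ : ∃ zz : ℝ, zz = v3.hp * gap := ⟨_, rfl⟩
  exact ⟨⟨gp, gap, hgp, e_gp, e_gap, e_hgp⟩⟩

theorem exMid (v : B1) (v2 : B2 v) (b : GB v.q v.x v.h1) (A g ga phu Ei Eh : ℝ) : Nonempty (Mid v v2 b A g ga phu Ei Eh) := by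
  obtain ⟨fa, e_fa⟩ : ∃ zz : ℝ, zz = (b.qh * g + (1 / 2)) * b.P1 * b.o2⁻¹ := ⟨_, rfl⟩
  obtain ⟨hg, e_hg⟩ : ∃ zz : ℝ, zz = v.h1 * ga := ⟨_, rfl⟩
  obtain ⟨lsf, e_lsf⟩ : ∃ zz : ℝ, zz = (1 - (1 / 2) * hg) * (1 - hg)⁻¹ := ⟨_, rfl⟩
  obtain ⟨Qb, e_Qb⟩ : ∃ zz : ℝ, zz = v.q * (hg + 1) := ⟨_, rfl⟩
  obtain ⟨Xe, e_Xe⟩ : ∃ zz : ℝ, zz = A * v.op1 * v2.lm := ⟨_, rfl⟩
  obtain ⟨XM, e_XM⟩ : ∃ zz : ℝ, zz = v.tu * Xe := ⟨_, rfl⟩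
  obtain ⟨iX, e_iX⟩ : ∃ zz : ℝ, zz = (1 - XM)⁻¹ := ⟨_, rfl⟩
  obtain ⟨QX, e_QX⟩ : ∃ zz : ℝ, zz = Qb * XM := ⟨_, rfl⟩
  obtain ⟨iQX, e_iQX⟩ : ∃ zz : ℝ, zz = (1 - QX)⁻¹ := ⟨_, rfl⟩
  obtain ⟨N1, e_N1⟩ : ∃ zz : ℝ, zz = 1 - v.f2 - 2 * (v.h * v.om) + v.h * v.nj * (v.h * v.nj) := ⟨_, rfl⟩
  obtain ⟨s, e_s⟩ : ∃ zz : ℝ, zz = (1 / 2) * (N1 + 1) := ⟨_, rfl⟩
  obtain ⟨k0, e_k0⟩ : ∃ zz : ℝ, zz = s * (v.j - (1 / 2) * v.R + (1 / 8) * (v.tu2 * (1 - v.f2) * v.jm)) := ⟨_, rfl⟩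
  obtain ⟨ls, e_ls⟩ : ∃ zz : ℝ, zz = hg * lsf := ⟨_, rfl⟩
  obtain ⟨Q1, e_Q1⟩ : ∃ zz : ℝ, zz = Qb + 1 := ⟨_, rfl⟩
  obtain ⟨a0, e_a0⟩ : ∃ zz : ℝ, zz = (ls + XM * (Q1 * iX + Qb * iQX)) * v.ei := ⟨_, rfl⟩
  obtain ⟨l1, e_l1⟩ : ∃ zz : ℝ, zz = (ls + Q1 * XM * iX) * v.ei := ⟨_, rfl⟩
  obtain ⟨Na, e_Na⟩ : ∃ zz : ℝ, zz = 1 + l1 * ((1 / 2) + (13 / 64) * l1) := ⟨_, rfl⟩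
  obtain ⟨Nb, e_Nb⟩ : ∃ zz : ℝ, zz = 1 + a0 * (1 + (13 / 16) * a0) := ⟨_, rfl⟩
  obtain ⟨rn, e_rn⟩ : ∃ zz : ℝ, zz = v2.rh * v2.nih * Ei * Nb := ⟨_, rfl⟩
  obtain ⟨ka, e_ka⟩ : ∃ zz : ℝ, zz = k0 * Na + rn * (v.aQ + (1 / 2)) := ⟨_, rfl⟩
  obtain ⟨kb, e_kb⟩ : ∃ zz : ℝ, zz = rn * (v.aQ + 1) := ⟨_, rfl⟩
  obtain ⟨lfk, e_lfk⟩ : ∃ zz : ℝ, zz = Eh * (v.aQ + 1) * v2.nih * v2.hm := ⟨_, rfl⟩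
  obtain ⟨bte, e_bte⟩ : ∃ zz : ℝ, zz = (1 / 2) * (v.tu * v2.bsum * v.aQ⁻¹) := ⟨_, rfl⟩
  obtain ⟨lsi, e_lsi⟩ : ∃ zz : ℝ, zz = v.h1t * v.u⁻¹ * ga * lsf := ⟨_, rfl⟩
  obtain ⟨src, e_src⟩ : ∃ zz : ℝ, zz = v.om1 * bte + (ka * lsi + lfk * phu) * v.ei := ⟨_, rfl⟩
  obtain ⟨fx, e_fx⟩ : ∃ zz : ℝ, zz = (ka * Q1 * iX + kb * Qb * iQX) * v.ei := ⟨_, rfl⟩
  obtain ⟨eps, e_eps⟩ : ∃ zz : ℝ, zz = v.om1 * src + Xe * fx := ⟨_, rfl⟩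
  obtain ⟨NN, e_NN⟩ : ∃ zz : ℝ, zz = (1 - v.tu2 * eps * v.aQ⁻¹)⁻¹ := ⟨_, rfl⟩
  obtain ⟨eN, e_eN⟩ : ∃ zz : ℝ, zz = eps * NN := ⟨_, rfl⟩
  obtain ⟨d, e_d⟩ : ∃ zz : ℝ, zz = v.t * eN := ⟨_, rfl⟩
  obtain ⟨eta, e_eta⟩ : ∃ zz : ℝ, zz = v.tu2 * eN := ⟨_, rfl⟩
  obtain ⟨rl, e_rl⟩ : ∃ zz : ℝ, zz = v.rhat * (1 - eta * v.aQ⁻¹) - d := ⟨_, rfl⟩
  obtain ⟨irl, e_irl⟩ : ∃ zz : ℝ, zz = rl⁻¹ := ⟨_, rfl⟩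
  obtain ⟨yy, e_yy⟩ : ∃ zz : ℝ, zz = d * irl := ⟨_, rfl⟩
  obtain ⟨XLt, e_XLt⟩ : ∃ zz : ℝ, zz = A * v.tu * v.op1 * v.om1 := ⟨_, rfl⟩
  obtain ⟨beta, e_beta⟩ : ∃ zz : ℝ, zz = 9 * 20⁻¹ := ⟨_, rfl⟩
  obtain ⟨m1, e_m1⟩ : ∃ zz : ℝ, zz = v.m - 1 := ⟨_, rfl⟩
  obtain ⟨V, e_V⟩ : ∃ zz : ℝ, zz = (v.h + 1) * (m1 + 2 - 2 * beta) * (m1 * (2 * beta) + 1)⁻¹ - 2 * (src + 2 * (A * fx * (v.K + (1 / 2) * v2.lm))) * NN * (v.op1 - v.tu * eN)⁻¹ := ⟨_, rfl⟩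
  exact ⟨⟨fa, hg, lsf, Qb, Xe, XM, iX, QX, iQX, N1, s, k0, ls, Q1, a0, l1, Na, Nb, rn, ka, kb, lfk, bte, lsi, src, fx, eps, NN, eN, d, eta, rl, irl, yy, XLt, beta, m1, V, e_fa, e_hg, e_lsf, e_Qb, e_Xe, e_XM, e_iX, e_QX, e_iQX, e_N1, e_s, e_k0, e_ls, e_Q1, e_a0, e_l1, e_Na, e_Nb, e_rn, e_ka, e_kb, e_lfk, e_bte, e_lsi, e_src, e_fx, e_eps, e_NN, e_eN, e_d, e_eta, e_rl, e_irl, e_yy, e_XLt, e_beta, e_m1, e_V⟩⟩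

theorem exCF {v : B1} {v2 : B2 v} {b : GB v.q v.x v.h1} {A g ga phu Ei Eh : ℝ}
    (m : Mid v v2 b A g ga phu Ei Eh) (iA : ℝ) : Nonempty (CF m iA) := by
  obtain ⟨rhoR, e_rhoR⟩ : ∃ zz : ℝ, zz = v.ee * v.Dt * (v.D + 6) * (4 * v.D + 6)⁻¹ := ⟨_, rfl⟩
  obtain ⟨od, e_od⟩ : ∃ zz : ℝ, zz = (1 - m.d)⁻¹ := ⟨_, rfl⟩
  obtain ⟨lsR, e_lsR⟩ : ∃ zz : ℝ, zz = m.ls * v.R⁻¹ := ⟨_, rfl⟩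
  obtain ⟨PR, e_PR⟩ : ∃ zz : ℝ, zz = (rhoR + lsR) * od := ⟨_, rfl⟩
  obtain ⟨dP, e_dP⟩ : ∃ zz : ℝ, zz = PR * m.eta := ⟨_, rfl⟩
  obtain ⟨Ee, e_Ee⟩ : ∃ zz : ℝ, zz = 1 + dP * ((1 / 2) + (13 / 64) * dP) := ⟨_, rfl⟩
  obtain ⟨den, e_den⟩ : ∃ zz : ℝ, zz = 1 - dP * Ee * m.fa * m.Qb := ⟨_, rfl⟩
  obtain ⟨C, e_C⟩ : ∃ zz : ℝ, zz = PR * Ee * m.NN * v.ei * den⁻¹ := ⟨_, rfl⟩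
  obtain ⟨fbt, e_fbt⟩ : ∃ zz : ℝ, zz = C * v.u * (m.ka * m.iX + m.kb * m.fa * m.Qb * m.iQX) := ⟨_, rfl⟩
  obtain ⟨sl, e_sl⟩ : ∃ zz : ℝ, zz = m.ka * v.h1t * v.u⁻¹ * g * m.lsf := ⟨_, rfl⟩
  obtain ⟨FX, e_FX⟩ : ∃ zz : ℝ, zz = C * iA * v.u * v.op1⁻¹ * (v.e * m.fa * v.om1 * m.bte + sl + m.fa * m.lfk * phu) := ⟨_, rfl⟩
  exact ⟨⟨rhoR, od, lsR, PR, dP, Ee, den, C, fbt, sl, FX, e_rhoR, e_od, e_lsR, e_PR, e_dP, e_Ee, e_den, e_C, e_fbt, e_sl, e_FX⟩⟩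

theorem exCC {v : B1} {v2 : B2 v} {v3 : B3 v} {b : GB v.q v.x v.h1}
    {b' : GB v.qp v3.xp v3.hp} {A g ga phu Ei Eh : ℝ}
    (m : Mid v v2 b A g ga phu Ei Eh) (v4 : B4 v3 b') (iA : ℝ) : Nonempty (CC m v4 iA) := by
  obtain ⟨q0, e_q0⟩ : ∃ zz : ℝ, zz = (v.aQ - m.eta)⁻¹ := ⟨_, rfl⟩
  obtain ⟨zp, e_zp⟩ : ∃ zz : ℝ, zz = m.yy * v4.gap := ⟨_, rfl⟩
  obtain ⟨C1, e_C1⟩ : ∃ zz : ℝ, zz = v.e * q0 + v4.gap * m.irl * v.R⁻¹ * ((1 - (1 / 2) * zp) * (1 - zp)⁻¹) := ⟨_, rfl⟩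
  obtain ⟨rr, e_rr⟩ : ∃ zz : ℝ, zz = C1 * m.eta := ⟨_, rfl⟩
  obtain ⟨C, e_C⟩ : ∃ zz : ℝ, zz = C1 * (1 + rr * ((1 / 2) + (13 / 64) * rr)) * m.NN * v.ei := ⟨_, rfl⟩
  obtain ⟨fbt, e_fbt⟩ : ∃ zz : ℝ, zz = C * v.u * (m.ka * m.Q1 * m.iX + m.kb * m.Qb * m.iQX) := ⟨_, rfl⟩
  obtain ⟨FX, e_FX⟩ : ∃ zz : ℝ, zz = C * iA * v.u * v.op1⁻¹ * (v.e * v.om1 * m.bte + m.ka * m.lsi + m.lfk * phu) := ⟨_, rfl⟩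
  exact ⟨⟨q0, zp, C1, rr, C, fbt, FX, e_q0, e_zp, e_C1, e_rr, e_C, e_fbt, e_FX⟩⟩

theorem exFinS {v : B1} {v2 : B2 v} {v3 : B3 v} {b : GB v.q v.x v.h1}
    {b' : GB v.qp v3.xp v3.hp} {A g ga phu Ei Eh : ℝ}
    (m : Mid v v2 b A g ga phu Ei Eh) (v4 : B4 v3 b') (fbt FX : ℝ) : Nonempty (FinS m v4 fbt FX) := by
  obtain ⟨dri, e_dri⟩ : ∃ zz : ℝ, zz = m.yy * (v.rp + v4.hgp * (v4.hgp + 1)) := ⟨_, rfl⟩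
  obtain ⟨Qp, e_Qp⟩ : ∃ zz : ℝ, zz = v.qp * (v4.hgp + 1) * (1 + dri * (1 + (5 / 8) * dri)) := ⟨_, rfl⟩
  obtain ⟨Lam, e_Lam⟩ : ∃ zz : ℝ, zz = (1 + (v.h + 1) * (v.K + v.t) * m.beta)⁻¹ := ⟨_, rfl⟩
  obtain ⟨c1, e_c1⟩ : ∃ zz : ℝ, zz = Qp * Lam * v.m * (1 + v.tu * m.eN * v.op1⁻¹) * (v.aQ - m.eta)⁻¹ := ⟨_, rfl⟩
  obtain ⟨fb, e_fb⟩ : ∃ zz : ℝ, zz = v.t * fbt := ⟨_, rfl⟩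
  obtain ⟨r, e_r⟩ : ∃ zz : ℝ, zz = fb * m.XM + FX * (v.t * m.XLt) := ⟨_, rfl⟩
  obtain ⟨Bm, e_Bm⟩ : ∃ zz : ℝ, zz = 1 - (fb + FX + c1 * (1 + r)) := ⟨_, rfl⟩
  exact ⟨⟨dri, Qp, Lam, c1, fb, r, Bm, e_dri, e_Qp, e_Lam, e_c1, e_fb, e_r, e_Bm⟩⟩

theorem exHB (v : B1) (b : GB v.q v.x v.h1) : Nonempty (HB v b) := by
  obtain ⟨iW, e_iW⟩ : ∃ zz : ℝ, zz = b.W⁻¹ := ⟨_, rfl⟩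
  obtain ⟨rhoR, e_rhoR⟩ : ∃ zz : ℝ, zz = v.ee * v.Dt * (v.D + 6) * (4 * v.D + 6)⁻¹ := ⟨_, rfl⟩
  obtain ⟨x2, e_x2⟩ : ∃ zz : ℝ, zz = 2 * (v.R * rhoR) := ⟨_, rfl⟩
  obtain ⟨G, e_G⟩ : ∃ zz : ℝ, zz = rhoR * (1 - x2 * ((1 / 2) - (2731 / 16384) * x2)) * iW := ⟨_, rfl⟩
  obtain ⟨g, e_g⟩ : ∃ zz : ℝ, zz = v.R * G := ⟨_, rfl⟩
  obtain ⟨gR, e_gR⟩ : ∃ zz : ℝ, zz = G * (g + (1 / 2))⁻¹ := ⟨_, rfl⟩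
  obtain ⟨ga, e_ga⟩ : ∃ zz : ℝ, zz = v.R * gR := ⟨_, rfl⟩
  exact ⟨⟨iW, rhoR, x2, G, g, gR, ga, e_iW, e_rhoR, e_x2, e_G, e_g, e_gR, e_ga⟩⟩

theorem exCH {v : B1} {v2 : B2 v} {v3 : B3 v} {b : GB v.q v.x v.h1} (hb : HB v b)
    {b' : GB v.qp v3.xp v3.hp} {A phu Ei Eh : ℝ}
    (m : Mid v v2 b A hb.g hb.ga phu Ei Eh) (v4 : B4 v3 b') (iA phut : ℝ) : Nonempty (CH hb m v4 iA phut) := by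
  obtain ⟨od, e_od⟩ : ∃ zz : ℝ, zz = (1 - m.d)⁻¹ := ⟨_, rfl⟩
  obtain ⟨lsR, e_lsR⟩ : ∃ zz : ℝ, zz = v.h1 * hb.gR * m.lsf := ⟨_, rfl⟩
  obtain ⟨PR, e_PR⟩ : ∃ zz : ℝ, zz = (hb.rhoR + lsR) * od := ⟨_, rfl⟩
  obtain ⟨dP, e_dP⟩ : ∃ zz : ℝ, zz = PR * m.eta := ⟨_, rfl⟩
  obtain ⟨Ee, e_Ee⟩ : ∃ zz : ℝ, zz = 1 + dP * ((1 / 2) + (13 / 64) * dP) := ⟨_, rfl⟩
  obtain ⟨den, e_den⟩ : ∃ zz : ℝ, zz = 1 - dP * Ee * m.fa * m.Qb := ⟨_, rfl⟩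
  obtain ⟨C, e_C⟩ : ∃ zz : ℝ, zz = PR * Ee * m.NN * v.ei * den⁻¹ := ⟨_, rfl⟩
  obtain ⟨fbt, e_fbt⟩ : ∃ zz : ℝ, zz = C * v.u * (m.ka * m.iX + m.kb * m.fa * m.Qb * m.iQX) := ⟨_, rfl⟩
  obtain ⟨sl, e_sl⟩ : ∃ zz : ℝ, zz = m.ka * v.h1t * (v.tu * hb.G) * m.lsf := ⟨_, rfl⟩
  obtain ⟨FXt, e_FXt⟩ : ∃ zz : ℝ, zz = C * iA * v.u * v.op1⁻¹ * (v.e * m.fa * v.om1 * ((1 / 2) * (v.u * v2.bsum * v.aQ⁻¹)) + m.ka * v.h1t * v.u * hb.G * m.lsf + m.fa * m.lfk * phut) := ⟨_, rfl⟩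
  obtain ⟨zh, e_zh⟩ : ∃ zz : ℝ, zz = v.u2 * (4 * (v.c0 * v.rhat) - v.Dt) * v.SQ⁻¹ := ⟨_, rfl⟩
  obtain ⟨yh, e_yh⟩ : ∃ zz : ℝ, zz = v.e * zh * (v.t * zh + 2)⁻¹ := ⟨_, rfl⟩
  obtain ⟨S1, e_S1⟩ : ∃ zz : ℝ, zz = -(yh * (1 - (1 / 2) * (v.t * yh))) := ⟨_, rfl⟩
  obtain ⟨S2, e_S2⟩ : ∃ zz : ℝ, zz = S1 + v3.hpt * v4.gap + v.t * (S1 * (v3.hpt * v4.gap)) := ⟨_, rfl⟩
  obtain ⟨drt, e_drt⟩ : ∃ zz : ℝ, zz = m.yy * (v.ee * zh + v3.hpt * v4.gap * (v4.hgp + 1)) := ⟨_, rfl⟩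
  obtain ⟨dri, e_dri⟩ : ∃ zz : ℝ, zz = v.t * drt := ⟨_, rfl⟩
  obtain ⟨S3, e_S3⟩ : ∃ zz : ℝ, zz = S2 + drt * (1 + (5 / 8) * dri) + v.t * (S2 * (drt * (1 + (5 / 8) * dri))) := ⟨_, rfl⟩
  obtain ⟨S4, e_S4⟩ : ∃ zz : ℝ, zz = S3 + v.u * v.n * (v.h + 1) * v.j + v.t * (S3 * (v.u * v.n * (v.h + 1) * v.j)) := ⟨_, rfl⟩
  obtain ⟨Dh, e_Dh⟩ : ∃ zz : ℝ, zz = v.u2 * v.Dt := ⟨_, rfl⟩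
  obtain ⟨S5, e_S5⟩ : ∃ zz : ℝ, zz = S4 + (-(Dh * ((1 / 2) - (3 / 8) * (v.t * Dh)))) + v.t * (S4 * (-(Dh * ((1 / 2) - (3 / 8) * (v.t * Dh))))) := ⟨_, rfl⟩
  obtain ⟨S6, e_S6⟩ : ∃ zz : ℝ, zz = S5 + v.u * m.eN * v.op1⁻¹ + v.t * (S5 * (v.u * m.eN * v.op1⁻¹)) := ⟨_, rfl⟩
  obtain ⟨b1, e_b1⟩ : ∃ zz : ℝ, zz = (v.h + 1) * v.op1 * m.beta := ⟨_, rfl⟩
  obtain ⟨S7, e_S7⟩ : ∃ zz : ℝ, zz = (S6 - b1) * (1 + v.t * b1)⁻¹ := ⟨_, rfl⟩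
  obtain ⟨S8, e_S8⟩ : ∃ zz : ℝ, zz = S7 + v.u * v.tu * m.eN * (v.aQ - m.eta)⁻¹ + v.t * (S7 * (v.u * v.tu * m.eN * (v.aQ - m.eta)⁻¹)) := ⟨_, rfl⟩
  obtain ⟨c1, e_c1⟩ : ∃ zz : ℝ, zz = 1 + v.t * S8 := ⟨_, rfl⟩
  obtain ⟨rt, e_rt⟩ : ∃ zz : ℝ, zz = fbt * m.XM + FXt * (v.t * m.XLt) := ⟨_, rfl⟩
  obtain ⟨Bm, e_Bm⟩ : ∃ zz : ℝ, zz = -(S8 + rt * c1 + fbt + FXt) := ⟨_, rfl⟩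
  exact ⟨⟨od, lsR, PR, dP, Ee, den, C, fbt, sl, FXt, zh, yh, S1, S2, drt, dri, S3, S4, Dh, S5, S6, b1, S7, S8, c1, rt, Bm, e_od, e_lsR, e_PR, e_dP, e_Ee, e_den, e_C, e_fbt, e_sl, e_FXt, e_zh, e_yh, e_S1, e_S2, e_drt, e_dri, e_S3, e_S4, e_Dh, e_S5, e_S6, e_b1, e_S7, e_S8, e_c1, e_rt, e_Bm⟩⟩

/-- the constants -/
noncomputable def AG (e K : ℝ) : ℝ := (2 + e / 4) ^ 3 / ((2 + e / 4) ^ 2 + 7 / 10 * (e * K) ^ 2)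

noncomputable def AS (e _K : ℝ) : ℝ := 21 / 10 + e / 12

noncomputable def AL (e K : ℝ) : ℝ := 2 * e / (4 + e * K)

noncomputable def A5 (e _K : ℝ) : ℝ := e / 5

theorem ab_G (G : Geo κ s v) (v2 : B2 v) {G0 G2 GG G3 A iA : ℝ} (h0 : G0 = (1 / 4) * v.e + 2)
    (h2 : G2 = G0 * G0) (hG : GG = G2 + v2.eK * v2.eK * (7 * 10⁻¹)) (h3 : G3 = G2 * G0)
    (hA : A = G3 * GG⁻¹) (hi : iA = GG * G3⁻¹) : 0 < A ∧ A * iA = 1 ∧ AG v.e v.K = A := by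
  have he := G.e0
  have p0 : 0 < G0 := by rw [h0]; positivity
  have p2 : 0 < G2 := by rw [h2]; positivity
  have p3 : 0 < G3 := by rw [h3]; positivity
  have pk : 0 ≤ v2.eK * v2.eK := mul_self_nonneg _
  have pG : 0 < GG := by rw [hG]; positivity
  refine ⟨by rw [hA]; positivity, ?_, ?_⟩
  · rw [hA, hi]; field_simp
  · have e1 : v2.eK = v.e * v.K := v2.e_eK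
    have e2 : (2 + v.e / 4) ^ 3 = G3 := by rw [h3, h2, h0]; ring
    have e3 : (2 + v.e / 4) ^ 2 + 7 / 10 * (v.e * v.K) ^ 2 = GG := by
      rw [hG, h2, h0, e1]; ring
    unfold AG
    rw [e2, e3, hA, div_eq_mul_inv]

theorem ab_S (G : Geo κ s v) (_v2 : B2 v) {A iA : ℝ} (hA : A = v.e * 12⁻¹ + 21 * 10⁻¹)
    (hi : iA = A⁻¹) : 0 < A ∧ A * iA = 1 ∧ AS v.e v.K = A := by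
  have he := G.e0
  have p : 0 < A := by rw [hA]; positivity
  refine ⟨p, by rw [hi, mul_inv_cancel₀ p.ne'], ?_⟩
  unfold AS
  rw [hA]; ring

theorem ab_L (G : Geo κ s v) (v2 : B2 v) {A iA : ℝ}
    (hA : A = (1 / 4) * (v.e * ((1 / 8) * v2.eK + (1 / 2))⁻¹))
    (hi : iA = ((1 / 2) * v2.eK + 2) * v.ei) : 0 < A ∧ A * iA = 1 ∧ AL v.e v.K = A := by
  have he := G.e0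
  have hK := G.K0
  have e1 : v2.eK = v.e * v.K := v2.e_eK
  have pk : 0 < v2.eK := by rw [e1]; positivity
  have hei : v.ei = v.e⁻¹ := v.e_ei
  refine ⟨by rw [hA]; positivity, ?_, ?_⟩
  · rw [hA, hi, hei]; field_simp; ring
  · unfold AL
    rw [hA, e1]
    have : 4 + v.e * v.K ≠ 0 := by positivity
    have : (1 / 8) * (v.e * v.K) + (1 / 2) ≠ 0 := by positivity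
    field_simp
    ring

theorem ab_x (G : Geo κ s v) (_v2 : B2 v) {A iA : ℝ} (hA : A = v.e * (1 * 5⁻¹))
    (hi : iA = 5 * v.ei) : 0 < A ∧ A * iA = 1 ∧ A5 v.e v.K = A := by
  have he := G.e0
  have hei : v.ei = v.e⁻¹ := v.e_ei
  refine ⟨by rw [hA]; positivity, ?_, ?_⟩
  · rw [hA, hi, hei]; field_simp
  · unfold A5
    rw [hA]; ring

theorem ls_H {v2 : B2 v} {b : GB v.q v.x v.h1} {hb : HB v b} {A phu Ei Eh : ℝ}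
    (m : Mid v v2 b A hb.g hb.ga phu Ei Eh) :
    m.ls = v.tu * (v.om1 * v.h1t * v.tu * hb.gR * m.lsf) := by
  have h1 := hb.e_ga
  rw [m.e_ls, m.e_hg, v.e_h1, v.e_tu]
  rw [v.e_R, v.e_u2] at h1
  linear_combination (v.om1 * v.t * v.h1t * m.lsf) * h1

theorem lsi_H (G : Geo κ s v) {v2 : B2 v} {b : GB v.q v.x v.h1} {hb : HB v b} {A phu Ei Eh : ℝ}
    (m : Mid v v2 b A hb.g hb.ga phu Ei Eh) : m.lsi = v.h1t * v.tu * hb.gR * m.lsf := by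
  have h1 := hb.e_ga
  have h2 : v.u⁻¹ * v.u = 1 := inv_mul_cancel₀ G.u0.ne'
  rw [m.e_lsi, v.e_tu]
  rw [v.e_R, v.e_u2] at h1
  linear_combination (v.h1t * v.u⁻¹ * m.lsf) * h1 + (v.h1t * v.t * v.u * hb.gR * m.lsf) * h2

theorem near_z (G : Geo κ s v) {ga z : ℝ} (h : z = v.om1 * ga * v.om⁻¹) :
    z * v.om = v.om1 * ga := by
  rw [h, mul_assoc, inv_mul_cancel₀ G.om0.ne', mul_one]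

theorem near_p (G : Geo κ s v) {ga kz phu : ℝ} (h : phu = ga * kz * v.u⁻¹) :
    phu * v.u = ga * kz := by
  rw [h, mul_assoc, inv_mul_cancel₀ G.u0.ne', mul_one]

theorem near_zH (G : Geo κ s v) {b : GB v.q v.x v.h1} (hb : HB v b) {z : ℝ}
    (h : z = v.om1 * v.tu * hb.gR * v.nj⁻¹) : z * v.om = v.om1 * hb.ga := by
  have h1 := hb.e_ga
  have h2 : v.nj⁻¹ * v.nj = 1 := inv_mul_cancel₀ G.nj0.ne'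
  rw [v.e_R, v.e_u2] at h1
  rw [h, v.e_om, v.e_tu]
  linear_combination (v.om1 * v.t * v.u * hb.gR * v.u) * h2 - v.om1 * h1

theorem near_pH (_G : Geo κ s v) {b : GB v.q v.x v.h1} (hb : HB v b) {kz phu phut : ℝ}
    (h : phu = v.t * phut) (h' : phut = v.u * hb.gR * kz) : phu * v.u = hb.ga * kz := by
  have h1 := hb.e_ga
  rw [v.e_R, v.e_u2] at h1
  rw [h, h']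
  linear_combination (-kz) * h1

theorem gam_H (G : Geo κ s v) {b : GB v.q v.x v.h1} (hb : HB v b) (ho2 : 0 < b.o2)
    (hW : 0 < b.W) : gam v.e κ s ≤ hb.ga := by
  have := gam_of G.e0 G.κ0 G.s0 (gR_H G hb ho2 hW)
  rw [ga_H hb, ← div_eq_mul_inv, add_comm hb.g]
  exact this

theorem gam_F (G : Geo κ s v) {b : GB v.q v.x v.h1} {g ga : ℝ} (ho2 : 0 < b.o2) (hW : 0 < b.W)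
    (hg : g = (1 / 2) * ((1 - v.q) * b.q1 * b.W⁻¹)) (hga : ga = g * (g + (1 / 2))⁻¹) :
    gam v.e κ s ≤ ga := by
  obtain ⟨h1, -⟩ := gb_le G.e0 G.κ0 G.s0 b G.q_eq G.argx G.h1_eq G.q_lt ho2 hW
  rw [← hg] at h1
  have := gam_of G.e0 G.κ0 G.s0 h1
  rw [hga, ← div_eq_mul_inv, add_comm g]
  exact this

theorem c1_C {v2 : B2 v} {v3 : B3 v} {b : GB v.q v.x v.h1}
    {b' : GB v.qp v3.xp v3.hp} {A g ga phu Ei Eh : ℝ}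
    {m : Mid v v2 b A g ga phu Ei Eh} {v4 : B4 v3 b'} {iA : ℝ} (c : CC m v4 iA)
    (f : FinS m v4 c.fbt c.FX) :
    f.c1 = f.Qp * f.Lam * v.m * (1 + v.tu * m.eN * v.op1⁻¹) * c.q0 := by
  rw [f.e_c1, c.e_q0]

/-- the other variables -/
structure CV (v : B1) (v2 : B2 v) (yv psi : ℝ) : Prop where
  y : v.om1 * (1 + v2.Y * v2.Yp) = yv
  p : 1 - v.u = v.om1 * (1 - psi)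

theorem CV.all {v2 : B2 v} {yv psi : ℝ} (c : CV v v2 yv psi) (G : Geo κ s v) :
    v.om1 = yv * (1 + v2.Y * v2.Yp)⁻¹ ∧ v.om = 1 - v.om1 ∧ v.u = 1 - v.om1 * (1 - psi) ∧
      v.t = v.K * v.om⁻¹ ∧ v.nj = v.om * v.u⁻¹ ∧ v.n = v.nj * v.jm := by
  have h0 : 0 < 1 + v2.Y * v2.Yp := by
    obtain ⟨h1, -, h2⟩ := G.Yp0 v2
    positivity
  have hu := G.u0
  have hom := G.om0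
  refine ⟨?_, ?_, ?_, ?_, ?_, ?_⟩
  · rw [← c.y, mul_assoc, mul_inv_cancel₀ h0.ne', mul_one]
  · rw [v.e_om1]; ring
  · linarith [c.p]
  · rw [G.Kom]
    have : v.om * v.om⁻¹ = 1 := mul_inv_cancel₀ hom.ne'
    linear_combination (-v.t) * this
  · rw [v.e_om]
    have : v.u * v.u⁻¹ = 1 := mul_inv_cancel₀ hu.ne'
    linear_combination (-v.nj) * this
  · have := G.jjm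
    rw [v.e_nj]
    linear_combination (-v.n) * this

end Pool.Agent.helper71.FF
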