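import Mathlib

/-!
# Far field programs: named values
-/

namespace Pool.Agent.helper71.FF

/-- geometry and the modulus of `Q` -/
structure B1  where
  e : ℝ
  t : ℝ
  u : ℝ
  n : ℝ
  tu : ℝ
  h : ℝ
  u2 : ℝ
  jm : ℝ
  j : ℝ
  K : ℝ
  c0 : ℝ
  m : ℝ
  nj : ℝ
  om : ℝ
  om1 : ℝ
  op1 : ℝ
  R : ℝ
  Dt : ℝ
  D : ℝ
  SQ : ℝ
  c2 : ℝ
  rhat : ℝ
  LQ : ℝ
  aQ : ℝ
  ee : ℝ
  rho : ℝ
  q : ℝ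
  D2 : ℝ
  L2 : ℝ
  rp : ℝ
  qp : ℝ
  ioK : ℝ
  h1t : ℝ
  h1 : ℝ
  nj2 : ℝ
  f2 : ℝ
  tu2 : ℝ
  w : ℝ
  x : ℝ
  ei : ℝ
  e_tu : tu = t * u
  e_h : h = (1 / 2) * (tu * n)
  e_u2 : u2 = u * u
  e_jm : jm = 1 - h * h
  e_j : j = jm⁻¹
  e_K : K = 2 * (h * j)
  e_c0 : c0 = 2 * j - 1
  e_m : m = c0 + K
  e_nj : nj = n * j
  e_om : om = u * nj
  e_om1 : om1 = 1 - om
  e_op1 : op1 = 1 + om
  e_R : R = t * u2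
  e_Dt : Dt = K * om + 2 * c0 + t
  e_D : D = R * Dt
  e_SQ : SQ = D + 1
  e_c2 : c2 = 2 * (K * K) + 1
  e_rhat : rhat = c0 * Dt - 1
  e_LQ : LQ = Real.log SQ
  e_aQ : aQ = Real.exp ((1 / 2) * LQ)
  e_ee : ee = (1 / 2) * e
  e_rho : rho = ee * LQ
  e_q : q = Real.exp (-rho)
  e_D2 : D2 = 4 * (c0 * R * rhat)
  e_L2 : L2 = Real.log (D2 + 1) - LQ
  e_rp : rp = ee * L2
  e_qp : qp = Real.exp (-rp)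
  e_ioK : ioK = (c0 + om * K)⁻¹
  e_h1t : h1t = op1 * ioK
  e_h1 : h1 = om1 * t * h1t
  e_nj2 : nj2 = nj * nj
  e_f2 : f2 = nj2 * (1 - u2)
  e_tu2 : tu2 = tu * tu
  e_w : w = (c0 + R)⁻¹ * e
  e_x : x = w * w * (tu2 * (1 - u2) * (1 - nj2))
  e_ei : ei = e⁻¹

/-- values of `κ` -/
structure B2 (v : B1) where
  Y : ℝ
  pY : ℝ
  Yp : ℝ
  lm : ℝ
  ih : ℝ
  rh : ℝ
  mi : ℝ
  hm : ℝ
  nih : ℝ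
  bsum : ℝ
  eK : ℝ
  e_Y : Y = (10035 / 1024) * v.h
  e_pY : pY = 1 + Y * ((1 / 2) + Y * ((341 / 8192) * Y + (1365 / 8192)))
  e_Yp : Yp = pY * (1 + (1 / 2) * (Y * pY))
  e_lm : lm = (209 / 1024) * v.j * Yp⁻¹
  e_ih : ih = (v.h + 1)⁻¹
  e_rh : rh = 2 * (v.h * ih)
  e_mi : mi = 1 - rh
  e_hm : hm = 1 - v.h
  e_nih : nih = v.n * ih
  e_bsum : bsum = v.op1 + nih * mi
  e_eK : eK = v.e * v.K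

/-- the block of `γ` -/
structure GB (q x h1 : ℝ) where
  cc : ℝ
  q1 : ℝ
  o2 : ℝ
  P1 : ℝ
  qh : ℝ
  W : ℝ
  e_cc : cc = 1 - x * ((1 / 2) - x * ((21845 / 524288) - (11651 / 8388608) * x))
  e_q1 : q1 = q + 1
  e_o2 : o2 = q * q + 1 + 2 * (q * cc)
  e_P1 : P1 = o2 * q1⁻¹ + q1
  e_qh : qh = (1 / 2) * (q * h1)
  e_W : W = o2 - qh * P1

/-- the next point -/
structure B3 (v : B1) where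
  hpt : ℝ
  hp : ℝ
  xp : ℝ
  e_hpt : hpt = v.om1 * v.op1 * ((v.c0 + v.t) * (v.c2 + 2 * (v.om * v.c0 * v.K)))⁻¹
  e_hp : hp = v.t * hpt
  e_xp : xp = v.x * v.SQ⁻¹

/-- `γ` at the next point -/
structure B4 {v : B1} (v3 : B3 v) (b : GB v.qp v3.xp v3.hp) where
  gp : ℝ
  gap : ℝ
  hgp : ℝ
  e_gp : gp = (1 / 2) * ((1 - v.qp) * b.q1 * b.W⁻¹)
  e_gap : gap = gp * (gp + (1 / 2))⁻¹
  e_hgp : hgp = v3.hp * gap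

/-- displacement of the next position -/
structure Mid (v : B1) (v2 : B2 v) (b : GB v.q v.x v.h1) (A g ga phu Ei Eh : ℝ) where
  fa : ℝ
  hg : ℝ
  lsf : ℝ
  Qb : ℝ
  Xe : ℝ
  XM : ℝ
  iX : ℝ
  QX : ℝ
  iQX : ℝ
  N1 : ℝ
  s : ℝ
  k0 : ℝ
  ls : ℝ
  Q1 : ℝ
  a0 : ℝ
  l1 : ℝ
  Na : ℝ
  Nb : ℝ
  rn : ℝ
  ka : ℝ
  kb : ℝ
  lfk : ℝ
  bte : ℝ
  lsi : ℝ
  src : ℝ
  fx : ℝ
  eps : ℝ
  NN : ℝ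
  eN : ℝ
  d : ℝ
  eta : ℝ
  rl : ℝ
  irl : ℝ
  yy : ℝ
  XLt : ℝ
  beta : ℝ
  m1 : ℝ
  V : ℝ
  e_fa : fa = (b.qh * g + (1 / 2)) * b.P1 * b.o2⁻¹
  e_hg : hg = v.h1 * ga
  e_lsf : lsf = (1 - (1 / 2) * hg) * (1 - hg)⁻¹
  e_Qb : Qb = v.q * (hg + 1)
  e_Xe : Xe = A * v.op1 * v2.lm
  e_XM : XM = v.tu * Xe
  e_iX : iX = (1 - XM)⁻¹
  e_QX : QX = Qb * XM
  e_iQX : iQX = (1 - QX)⁻¹
  e_N1 : N1 = 1 - v.f2 - 2 * (v.h * v.om) + v.h * v.nj * (v.h * v.nj)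
  e_s : s = (1 / 2) * (N1 + 1)
  e_k0 : k0 = s * (v.j - (1 / 2) * v.R + (1 / 8) * (v.tu2 * (1 - v.f2) * v.jm))
  e_ls : ls = hg * lsf
  e_Q1 : Q1 = Qb + 1
  e_a0 : a0 = (ls + XM * (Q1 * iX + Qb * iQX)) * v.ei
  e_l1 : l1 = (ls + Q1 * XM * iX) * v.ei
  e_Na : Na = 1 + l1 * ((1 / 2) + (13 / 64) * l1)
  e_Nb : Nb = 1 + a0 * (1 + (13 / 16) * a0)
  e_rn : rn = v2.rh * v2.nih * Ei * Nb
  e_ka : ka = k0 * Na + rn * (v.aQ + (1 / 2))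
  e_kb : kb = rn * (v.aQ + 1)
  e_lfk : lfk = Eh * (v.aQ + 1) * v2.nih * v2.hm
  e_bte : bte = (1 / 2) * (v.tu * v2.bsum * v.aQ⁻¹)
  e_lsi : lsi = v.h1t * v.u⁻¹ * ga * lsf
  e_src : src = v.om1 * bte + (ka * lsi + lfk * phu) * v.ei
  e_fx : fx = (ka * Q1 * iX + kb * Qb * iQX) * v.ei
  e_eps : eps = v.om1 * src + Xe * fx
  e_NN : NN = (1 - v.tu2 * eps * v.aQ⁻¹)⁻¹
  e_eN : eN = eps * NN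
  e_d : d = v.t * eN
  e_eta : eta = v.tu2 * eN
  e_rl : rl = v.rhat * (1 - eta * v.aQ⁻¹) - d
  e_irl : irl = rl⁻¹
  e_yy : yy = d * irl
  e_XLt : XLt = A * v.tu * v.op1 * v.om1
  e_beta : beta = 9 * 20⁻¹
  e_m1 : m1 = v.m - 1
  e_V : V = (v.h + 1) * (m1 + 2 - 2 * beta) * (m1 * (2 * beta) + 1)⁻¹ - 2 * (src + 2 * (A * fx * (v.K + (1 / 2) * v2.lm))) * NN * (v.op1 - v.tu * eN)⁻¹

end Pool.Agent.helper71.FF
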