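import Pool.Agent.helper71.FF.Close

/-!
# Far field programs: named values of the closing
-/

namespace Pool.Agent.helper71.FF

/-- closing, mode C -/
structure CC {v : B1} {v2 : B2 v} {v3 : B3 v} {b : GB v.q v.x v.h1}
    {b' : GB v.qp v3.xp v3.hp} {A g ga phu Ei Eh : ℝ}
    (m : Mid v v2 b A g ga phu Ei Eh) (v4 : B4 v3 b') (iA : ℝ) where
  q0 : ℝ
  zp : ℝ
  C1 : ℝ
  rr : ℝ
  C : ℝ
  fbt : ℝ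
  FX : ℝ
  e_q0 : q0 = (v.aQ - m.eta)⁻¹
  e_zp : zp = m.yy * v4.gap
  e_C1 : C1 = v.e * q0 + v4.gap * m.irl * v.R⁻¹ * ((1 - (1 / 2) * zp) * (1 - zp)⁻¹)
  e_rr : rr = C1 * m.eta
  e_C : C = C1 * (1 + rr * ((1 / 2) + (13 / 64) * rr)) * m.NN * v.ei
  e_fbt : fbt = C * v.u * (m.ka * m.Q1 * m.iX + m.kb * m.Qb * m.iQX)
  e_FX : FX = C * iA * v.u * v.op1⁻¹ * (v.e * v.om1 * m.bte + m.ka * m.lsi + m.lfk * phu)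

/-- last part, modes F and C -/
structure FinS {v : B1} {v2 : B2 v} {v3 : B3 v} {b : GB v.q v.x v.h1}
    {b' : GB v.qp v3.xp v3.hp} {A g ga phu Ei Eh : ℝ}
    (m : Mid v v2 b A g ga phu Ei Eh) (v4 : B4 v3 b') (fbt FX : ℝ) where
  dri : ℝ
  Qp : ℝ
  Lam : ℝ
  c1 : ℝ
  fb : ℝ
  r : ℝ
  Bm : ℝ
  e_dri : dri = m.yy * (v.rp + v4.hgp * (v4.hgp + 1))
  e_Qp : Qp = v.qp * (v4.hgp + 1) * (1 + dri * (1 + (5 / 8) * dri))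
  e_Lam : Lam = (1 + (v.h + 1) * (v.K + v.t) * m.beta)⁻¹
  e_c1 : c1 = Qp * Lam * v.m * (1 + v.tu * m.eN * v.op1⁻¹) * (v.aQ - m.eta)⁻¹
  e_fb : fb = v.t * fbt
  e_r : r = fb * m.XM + FX * (v.t * m.XLt)
  e_Bm : Bm = 1 - (fb + FX + c1 * (1 + r))

/-- the value `g`, mode H -/
structure HB (v : B1) (b : GB v.q v.x v.h1) where
  iW : ℝ
  rhoR : ℝ
  x2 : ℝ
  G : ℝ
  g : ℝ
  gR : ℝ
  ga : ℝ
  e_iW : iW = b.W⁻¹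
  e_rhoR : rhoR = v.ee * v.Dt * (v.D + 6) * (4 * v.D + 6)⁻¹
  e_x2 : x2 = 2 * (v.R * rhoR)
  e_G : G = rhoR * (1 - x2 * ((1 / 2) - (2731 / 16384) * x2)) * iW
  e_g : g = v.R * G
  e_gR : gR = G * (g + (1 / 2))⁻¹
  e_ga : ga = v.R * gR

/-- closing, mode H -/
structure CH {v : B1} {v2 : B2 v} {v3 : B3 v} {b : GB v.q v.x v.h1} (hb : HB v b)
    {b' : GB v.qp v3.xp v3.hp} {A phu Ei Eh : ℝ}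
    (m : Mid v v2 b A hb.g hb.ga phu Ei Eh) (v4 : B4 v3 b') (iA phut : ℝ) where
  od : ℝ
  lsR : ℝ
  PR : ℝ
  dP : ℝ
  Ee : ℝ
  den : ℝ
  C : ℝ
  fbt : ℝ
  sl : ℝ
  FXt : ℝ
  zh : ℝ
  yh : ℝ
  S1 : ℝ
  S2 : ℝ
  drt : ℝ
  dri : ℝ
  S3 : ℝ
  S4 : ℝ
  Dh : ℝ
  S5 : ℝ
  S6 : ℝ
  b1 : ℝ
  S7 : ℝ
  S8 : ℝ
  c1 : ℝ
  rt : ℝ
  Bm : ℝ
  e_od : od = (1 - m.d)⁻¹
  e_lsR : lsR = v.h1 * hb.gR * m.lsf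
  e_PR : PR = (hb.rhoR + lsR) * od
  e_dP : dP = PR * m.eta
  e_Ee : Ee = 1 + dP * ((1 / 2) + (13 / 64) * dP)
  e_den : den = 1 - dP * Ee * m.fa * m.Qb
  e_C : C = PR * Ee * m.NN * v.ei * den⁻¹
  e_fbt : fbt = C * v.u * (m.ka * m.iX + m.kb * m.fa * m.Qb * m.iQX)
  e_sl : sl = m.ka * v.h1t * (v.tu * hb.G) * m.lsf
  e_FXt : FXt = C * iA * v.u * v.op1⁻¹ * (v.e * m.fa * v.om1 * ((1 / 2) * (v.u * v2.bsum * v.aQ⁻¹)) + m.ka * v.h1t * v.u * hb.G * m.lsf + m.fa * m.lfk * phut)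
  e_zh : zh = v.u2 * (4 * (v.c0 * v.rhat) - v.Dt) * v.SQ⁻¹
  e_yh : yh = v.e * zh * (v.t * zh + 2)⁻¹
  e_S1 : S1 = -(yh * (1 - (1 / 2) * (v.t * yh)))
  e_S2 : S2 = S1 + v3.hpt * v4.gap + v.t * (S1 * (v3.hpt * v4.gap))
  e_drt : drt = m.yy * (v.ee * zh + v3.hpt * v4.gap * (v4.hgp + 1))
  e_dri : dri = v.t * drt
  e_S3 : S3 = S2 + drt * (1 + (5 / 8) * dri) + v.t * (S2 * (drt * (1 + (5 / 8) * dri)))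
  e_S4 : S4 = S3 + v.u * v.n * (v.h + 1) * v.j + v.t * (S3 * (v.u * v.n * (v.h + 1) * v.j))
  e_Dh : Dh = v.u2 * v.Dt
  e_S5 : S5 = S4 + (-(Dh * ((1 / 2) - (3 / 8) * (v.t * Dh)))) + v.t * (S4 * (-(Dh * ((1 / 2) - (3 / 8) * (v.t * Dh)))))
  e_S6 : S6 = S5 + v.u * m.eN * v.op1⁻¹ + v.t * (S5 * (v.u * m.eN * v.op1⁻¹))
  e_b1 : b1 = (v.h + 1) * v.op1 * m.beta
  e_S7 : S7 = (S6 - b1) * (1 + v.t * b1)⁻¹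
  e_S8 : S8 = S7 + v.u * v.tu * m.eN * (v.aQ - m.eta)⁻¹ + v.t * (S7 * (v.u * v.tu * m.eN * (v.aQ - m.eta)⁻¹))
  e_c1 : c1 = 1 + v.t * S8
  e_rt : rt = fbt * m.XM + FXt * (v.t * m.XLt)
  e_Bm : Bm = -(S8 + rt * c1 + fbt + FXt)

end Pool.Agent.helper71.FF
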