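import Pool.Agent.helper71.FF.Next

/-!
# Far field programs: closing
-/

namespace Pool.Agent.helper71.FF

open Complex ComplexConjugate Pool.Agent.helper31.EQ.Y Pool.Agent.helper31.EQ.R
open Pool.Agent.helper12.EQL Pool.Agent.helper12.RP Pool.Agent.helper12.FF Pool.Agent.helper63.FF

variable {κ : ℝ}

/-- the bound of the second part of the closing -/
noncomputable def Tb {v : B1} {v2 : B2 v} {v3 : B3 v} {b : GB v.q v.x v.h1}
    {b' : GB v.qp v3.xp v3.hp} {A g ga phu Ei Eh : ℝ}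
    (m : Mid v v2 b A g ga phu Ei Eh) (v4 : B4 v3 b') : ℝ :=
  v.qp * (v4.hgp + 1) * Real.exp (m.yy * (v.rp + v4.hgp * (v4.hgp + 1))) *
    (1 + (v.h + 1) * (v.K + v.t) * (9 * 20⁻¹))⁻¹ * v.m * (1 + v.tu * m.eN * v.op1⁻¹) *
    (v.aQ - m.eta)⁻¹

theorem far_close {τ : ℂ} {v : B1} (G : Geo κ (shf κ τ) v) {v2 : B2 v} {b : GB v.q v.x v.h1}
    {A g ga phu Ei Eh : ℝ} {m : Mid v v2 b A g ga phu Ei Eh}
    {v3 : B3 v} {b' : GB v.qp v3.xp v3.hp} {v4 : B4 v3 b'} (nx : Nx κ (shf κ τ) v4)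
    {R X w θ : ℝ} {E : Set ℂ} (hA : 0 < A) (hR0 : 0 < R) (hR : R ≤ Real.exp (-(2 * κ * (49 / 10))))
    (hR2 : Real.exp (2 * κ) * R < 1) (hτ : ‖τ - 1‖ < Real.exp (2 * κ) * R * ‖τ + 1‖)
    (hX : X = 2 * A * Real.sinh κ ^ 2 * R / (1 - R) * ‖shf κ τ + 1‖)
    (hw : w = (1 + (9 / 10) * (Real.exp κ - 1))⁻¹)
    {lf Ex ls n1 L1 M2 E0 η : ℝ} (o : Out κ (shf κ τ) m X lf Ex ls n1 L1 M2 E0 η)
    (aS : 0 < v.op1 - v.tu * m.eN) (arl : 0 < m.rl) (ae2 : 0 < v.aQ - 2 * (v.tu2 * m.eps))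
    (aV : 0 < m.V) (hXM : X ≤ m.XM)
    {fb FX c1 r ρ1 : ℝ}
    (hE : ∀ τ' : ℂ, 0 < τ'.re → Real.sinh κ * ‖τ' - shf κ τ‖ ≤ η → τ' ∈ E)
    (hρ : ∀ τ' : ℂ, 0 < τ'.re → Real.sinh κ * ‖τ' - shf κ τ‖ ≤ η → ‖R1 v.e κ τ τ' - 1‖ ≤ ρ1)
    (hρ1 : ρ1 ≤ fb * X + FX * (v.t * m.XLt))
    (hT : Tb m v4 ≤ c1) (hfb : 0 ≤ fb) (hFX : 0 ≤ FX) (hr : r = fb * m.XM + FX * (v.t * m.XLt))
    (hB : fb + FX + c1 * (1 + r) ≤ θ) :
    FarPt v.e κ θ w (2 * A * Real.sinh κ ^ 2) R E τ := by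
  have he := G.e0
  have hκ := G.κ0
  have hKs : 0 < Real.sinh κ := by rw [← G.K]; exact G.K0
  have hs0 := G.s0
  obtain ⟨hτ0, hs⟩ := reg_s hκ hR2.le hτ
  have hr' : rt (shf κ τ) < R := by
    unfold rt
    rw [div_lt_iff₀ (add_one_pos hs0)]
    exact hs
  obtain ⟨hR1, -⟩ := G.lm_ge v2 hR0 hR
  obtain ⟨hX0, -, -⟩ := G.X_le v2 hA hR0 hR hX
  have hXL := G.X_ge hA hR1 hr' hX
  rw [← m.e_XLt] at hXL
  obtain ⟨hw0, hw1, hLam⟩ := G.Lam_ge hR1 hr' hw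
  have htu := G.tu0
  have hop := G.op0
  have haQ := G.aQ0
  have hm0 : 0 < v.m := by rw [G.m_eq]; exact Real.exp_pos _
  have hNN0 : 0 ≤ m.NN := by linarith [o.o_NN1]
  -- eta < aQ
  have heta_e : m.eta = v.tu2 * m.eN := m.e_eta
  have hx : 0 < 1 - v.tu2 * m.eps * v.aQ⁻¹ := by
    have : v.tu2 * m.eps * v.aQ⁻¹ < 1 := by
      rw [← div_eq_mul_inv, div_lt_one haQ]
      have := o.o_eps0
      have : 0 ≤ v.tu2 * m.eps := by rw [v.e_tu2]; positivity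
      linarith
    linarith
  have heta : m.eta < v.aQ := by
    rw [heta_e, m.e_eN, m.e_NN, ← mul_assoc, ← div_eq_mul_inv, div_lt_iff₀ hx]
    have : v.aQ * (1 - v.tu2 * m.eps * v.aQ⁻¹) = v.aQ - v.tu2 * m.eps := by
      field_simp
    rw [this]
    linarith
  have hηeta : η ≤ m.eta := by rw [heta_e]; exact o.o_ηe
  have hηQ : η < v.aQ := by linarith
  have hηS : η < v.tu * v.op1 := by
    have h1 : m.eta = v.tu * (v.tu * m.eN) := by rw [heta_e, v.e_tu2]; ring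
    have h2 := mul_lt_mul_of_pos_left (by linarith : v.tu * m.eN < v.op1) htu
    linarith
  obtain ⟨d2, hd0, hd1, hd2, -, hyy⟩ := d2_of G m o.o_η0 o.o_ηe arl
  -- invariance
  have hinv := inv_of G m hA hR0 hR hr' hX hw o.o_η0 o.o_src0 o.o_fx0 o.o_ηV o.o_ηe hNN0 aS aV
  have hB0 : 0 < 2 * A * Real.sinh κ ^ 2 := by positivity
  obtain ⟨P', hP'⟩ : ∃ P, P = v.rp + v4.hgp * (v4.hgp + 1) := ⟨_, rfl⟩
  have hP0 : 0 ≤ P' := by rw [hP']; exact nx.P0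
  obtain ⟨qp, hqp⟩ : ∃ q, q = v.qp * (v4.hgp + 1) * Real.exp (d2 / (1 - d2) * P') := ⟨_, rfl⟩
  have hnq0 : 0 ≤ v.qp * (v4.hgp + 1) := (norm_nonneg _).trans nx.nq
  have hqp0 : 0 ≤ qp := by rw [hqp]; positivity
  have hqpb : qp ≤ v.qp * (v4.hgp + 1) * Real.exp (m.yy * P') := by
    rw [hqp]
    apply mul_le_mul_of_nonneg_left _ hnq0
    apply Real.exp_le_exp.2
    exact mul_le_mul_of_nonneg_right hyy hP0
  refine farPt_core' he hκ hR0 hB0 hw0 hw1.le hR2 hτ (X := X) (ls := ls) (lf := lf) (nq := m.Qb)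
    (n1 := n1) (L1 := L1) (M2 := M2) (Ex := Ex) (E0 := E0) (η := η) (ρ1 := ρ1) (qp := qp)
    hX o.o_X1 o.o_ls o.o_lf o.o_nq o.o_nX o.o_n1 o.o_L1 o.o_M2 o.o_Ex o.o_E0 o.o_E1 o.o_η
    (by rw [G.Sp]; exact hηS) hinv hE hρ ?_ (by rw [G.Qn]; exact hηQ) ?_
  · intro τ' h1 h2
    have := qp_le he hκ h1 hs0 h2 (by rw [G.Qn]; exact hηQ) hd2 hd1 nx.P nx.nq
    rw [← hP', ← hqp] at this
    exact this
  · -- closing
    have hη0 := o.o_η0
    have hwR : 0 < 1 - w * R := by nlinarith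
    have h1R : 0 < 1 - R := by linarith
    have hn : 0 < ‖shf κ τ + 1‖ := add_one_pos hs0
    have hQη : 0 < v.aQ - η := by linarith
    have hQη' : 0 < v.aQ - m.eta := by linarith
    -- the ratio
    obtain ⟨Lr, hLr⟩ : ∃ L, L = w * (1 - R) / (1 - w * R) := ⟨_, rfl⟩
    rw [← hLr] at hLam
    have hLr0 : 0 ≤ Lr := by rw [hLr]; positivity
    obtain ⟨T, hTd⟩ : ∃ T, T = qp * Lr * v.m * (1 + η / (v.tu * v.op1)) * (v.aQ - η)⁻¹ := ⟨_, rfl⟩
    have hTT : T ≤ Tb m v4 := by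
      rw [hTd]
      unfold Tb
      rw [← hP']
      have h1 : (v.aQ - η)⁻¹ ≤ (v.aQ - m.eta)⁻¹ := inv_anti₀ hQη' (by linarith)
      have h2 : 1 + η / (v.tu * v.op1) ≤ 1 + v.tu * m.eN * v.op1⁻¹ := by
        have h3 : η / (v.tu * v.op1) ≤ m.eta / (v.tu * v.op1) :=
          div_le_div_of_nonneg_right hηeta (by positivity)
        have h4 : m.eta / (v.tu * v.op1) = v.tu * m.eN * v.op1⁻¹ := by
          rw [heta_e, v.e_tu2]; field_simp
        linarith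
      have h5 : 0 ≤ v.qp * (v4.hgp + 1) * Real.exp (m.yy * P') := by positivity
      have h6 : 0 ≤ (1 + (v.h + 1) * (v.K + v.t) * (9 * 20⁻¹))⁻¹ := hLr0.trans hLam
      have h7 : 0 ≤ 1 + η / (v.tu * v.op1) := by positivity
      have h8 : 0 ≤ (v.aQ - η)⁻¹ := by positivity
      have k1 := mul_le_mul hqpb hLam hLr0 h5
      have k2 := mul_le_mul_of_nonneg_right k1 hm0.le
      have k3 := mul_le_mul k2 h2 h7 (by positivity)
      exact mul_le_mul k3 h1 h8 (mul_nonneg (by positivity) (h7.trans h2))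
    have hT0 : 0 ≤ T := by rw [hTd]; positivity
    have hc1 : T ≤ c1 := hTT.trans hT
    -- the product is X T
    have hprod : (1 + ρ1) * qp * (2 * A * Real.sinh κ ^ 2 * (w * R) / (1 - w * R)) *
        (Real.exp κ * (Real.sinh κ * ‖shf κ τ + 1‖ + η) /
          (Real.sinh κ * (‖Qk κ (shf κ τ)‖ - η))) = (1 + ρ1) * (X * T) := by
      rw [hTd, hLr, hX, G.Qn, ← G.m_eq]
      have hSS := G.Sp
      have e1 : Real.sinh κ * ‖shf κ τ + 1‖ + η =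
          Real.sinh κ * ‖shf κ τ + 1‖ * (1 + η / (v.tu * v.op1)) := by
        rw [hSS]; field_simp
      rw [e1]
      field_simp
    rw [hprod]
    have hρb1 : ρ1 ≤ (fb + FX) * X := by
      have := mul_le_mul_of_nonneg_left hXL hFX
      linarith
    have hρb2 : ρ1 ≤ r := by
      rw [hr]
      have := mul_le_mul_of_nonneg_left hXM hfb
      linarith
    have hXT : 0 ≤ X * T := by positivity
    have h1 : (1 + ρ1) * (X * T) ≤ (1 + r) * (X * T) := mul_le_mul_of_nonneg_right (by linarith) hXT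
    have hρ0 : 0 ≤ ρ1 := by
      have h2 := hρ (shf κ τ) hs0 (by rw [sub_self, norm_zero, mul_zero]; exact hη0)
      exact (norm_nonneg _).trans h2
    have h2 : (1 + r) * (X * T) ≤ (1 + r) * (X * c1) := by
      apply mul_le_mul_of_nonneg_left _ (by linarith)
      exact mul_le_mul_of_nonneg_left hc1 hX0.le
    have h3 : ρ1 + (1 + r) * (X * c1) ≤ (fb + FX + c1 * (1 + r)) * X := by linarith
    have h4 := mul_le_mul_of_nonneg_right hB hX0.le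
    linarith

/-- closing, mode F -/
structure CF {v : B1} {v2 : B2 v} {b : GB v.q v.x v.h1} {A g ga phu Ei Eh : ℝ}
    (m : Mid v v2 b A g ga phu Ei Eh) (iA : ℝ) where
  rhoR : ℝ
  od : ℝ
  lsR : ℝ
  PR : ℝ
  dP : ℝ
  Ee : ℝ
  den : ℝ
  C : ℝ
  fbt : ℝ
  sl : ℝ
  FX : ℝ
  e_rhoR : rhoR = v.ee * v.Dt * (v.D + 6) * (4 * v.D + 6)⁻¹
  e_od : od = (1 - m.d)⁻¹
  e_lsR : lsR = m.ls * v.R⁻¹
  e_PR : PR = (rhoR + lsR) * od
  e_dP : dP = PR * m.eta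
  e_Ee : Ee = 1 + dP * ((1 / 2) + (13 / 64) * dP)
  e_den : den = 1 - dP * Ee * m.fa * m.Qb
  e_C : C = PR * Ee * m.NN * v.ei * den⁻¹
  e_fbt : fbt = C * v.u * (m.ka * m.iX + m.kb * m.fa * m.Qb * m.iQX)
  e_sl : sl = m.ka * v.h1t * v.u⁻¹ * g * m.lsf
  e_FX : FX = C * iA * v.u * v.op1⁻¹ *
    (v.e * m.fa * v.om1 * m.bte + sl + m.fa * m.lfk * phu)

theorem Geo.rhoR_ge {s : ℂ} {v : B1} (G : Geo κ s v) :
    v.rho ≤ v.R * (v.ee * v.Dt * (v.D + 6) * (4 * v.D + 6)⁻¹) := by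
  have hD : 0 ≤ v.D := by have := G.SQ1; rw [v.e_SQ] at this; linarith
  have h1 := log_pade hD
  have he := G.e0
  have hee : 0 < v.ee := by rw [v.e_ee]; positivity
  rw [v.e_rho, v.e_LQ, v.e_SQ]
  rw [add_comm v.D 1]
  have h2 := mul_le_mul_of_nonneg_left h1 hee.le
  refine h2.trans (le_of_eq ?_)
  nth_rewrite 1 [v.e_D]
  ring

/-- the bound of `R1 - 1`, mode F -/
theorem rhoF {τ : ℂ} {v : B1} (G : Geo κ (shf κ τ) v) (hτ0 : 0 < τ.re) {v2 : B2 v}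
    {b : GB v.q v.x v.h1} {A g ga phu Ei Eh : ℝ} {m : Mid v v2 b A g ga phu Ei Eh} {iA : ℝ}
    (c : CF m iA) (hiA : A * iA = 1) {X : ℝ}
    {lf Ex ls n1 L1 M2 E0 η : ℝ} (o : Out κ (shf κ τ) m X lf Ex ls n1 L1 M2 E0 η)
    (ahg : 0 < 1 - m.hg) (ad : 0 < 1 - m.d) (aden : 0 < c.den) (adP : 0 < (5 / 8) * 1 - c.dP)
    (hphu : 0 ≤ phu) (hX0 : 0 < X) (hA : 0 < A) (hg0 : 0 < g) :
    ∃ ρ1, (∀ τ' : ℂ, 0 < τ'.re → Real.sinh κ * ‖τ' - shf κ τ‖ ≤ η → ‖R1 v.e κ τ τ' - 1‖ ≤ ρ1) ∧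
      ρ1 ≤ v.t * c.fbt * X + c.FX * (v.t * m.XLt) ∧ 0 ≤ c.fbt ∧ 0 ≤ c.FX := by
  have he := G.e0
  have hκ := G.κ0
  have hs0 := G.s0
  have hR := G.R0
  have hη0 := o.o_η0
  have htu := G.tu0
  have ht := G.t0
  have hu := G.u0
  have hop := G.op0
  have hom1 := G.om1_0
  have hei : 0 < v.ei := by rw [v.e_ei]; positivity
  have heie : v.ei * v.e = 1 := by rw [v.e_ei, inv_mul_cancel₀ he.ne']
  have heta_e : m.eta = v.tu2 * m.eN := m.e_eta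
  have hηeta : η ≤ m.eta := by rw [heta_e]; exact o.o_ηe
  have hD : m.d * v.R = m.eta := by
    rw [m.e_d, heta_e, G.tu2R]; ring
  obtain ⟨d, hd⟩ : ∃ d, d = η / v.R := ⟨_, rfl⟩
  have hdR : d * v.R = η := by rw [hd]; field_simp
  have hd0 : 0 ≤ d := by rw [hd]; positivity
  have hdm : d ≤ m.d := by
    have : d * v.R ≤ m.d * v.R := by rw [hdR, hD]; exact hηeta
    exact le_of_mul_le_mul_right this hR
  have hd1 : d < 1 := by linarith
  -- the potential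
  have hlsm : 0 ≤ m.ls := by rw [m.e_ls]; exact mul_nonneg o.o_hg0 o.o_lsf0.le
  have hP : (Pl v.e κ (shf κ τ)).re ≤ v.rho + m.ls := by
    have h1 := Pl_re_le he hκ hs0 (by rw [G.h1_eq]; linarith [o.o_hg])
    rw [← G.rho_eq, G.h1_eq] at h1
    have h2 := o.o_lsb
    rw [← m.e_ls] at h2
    linarith
  obtain ⟨P, hPd⟩ : ∃ P, P = v.rho + m.ls := ⟨_, rfl⟩
  rw [← hPd] at hP
  have hP0 : 0 ≤ P := by rw [hPd]; have := G.rho0; linarith
  have hrhoR := G.rhoR_ge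
  rw [← c.e_rhoR] at hrhoR
  have hPR : P ≤ v.R * (c.rhoR + c.lsR) := by
    rw [hPd, mul_add, c.e_lsR]
    have : v.R * (m.ls * v.R⁻¹) = m.ls := by field_simp
    rw [this]
    linarith
  have hod : 0 < c.od := by rw [c.e_od]; positivity
  obtain ⟨y, hy⟩ : ∃ y, y = d / (1 - d) * P := ⟨_, rfl⟩
  have hy0 : 0 ≤ y := by
    rw [hy]
    have : 0 ≤ d / (1 - d) := div_nonneg hd0 (by linarith)
    positivity
  have hPR0 : 0 ≤ c.PR := by
    rw [c.e_PR]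
    have : 0 ≤ v.R * (c.rhoR + c.lsR) := hP0.trans hPR
    have : 0 ≤ c.rhoR + c.lsR := nonneg_of_mul_nonneg_right this hR
    positivity
  have hyη : y ≤ η * c.PR := by
    have h1 : d / (1 - d) ≤ d * c.od := by
      rw [c.e_od, ← div_eq_mul_inv]
      exact div_le_div_of_nonneg_left hd0 ad (by linarith)
    rw [hy]
    have h2 := mul_le_mul h1 hPR hP0 (by positivity)
    refine h2.trans (le_of_eq ?_)
    rw [c.e_PR, ← hdR]
    ring
  have hydP : y ≤ c.dP := by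
    rw [c.e_dP]
    refine hyη.trans ?_
    rw [mul_comm c.PR]
    exact mul_le_mul_of_nonneg_right hηeta hPR0
  have hEe0 : 0 ≤ c.Ee := by
    rw [c.e_Ee]
    have : 0 ≤ c.dP := hy0.trans hydP
    positivity
  have hexp : Real.exp y - 1 ≤ y * c.Ee := by
    rw [c.e_Ee]
    exact exp_Na' hy0 hydP (by linarith)
  have hexp0 : 0 ≤ Real.exp y - 1 := by
    have := Real.add_one_le_exp y
    linarith
  obtain ⟨f, hf⟩ : ∃ f, f = ‖fT v.e κ (shf κ τ)‖ := ⟨_, rfl⟩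
  have hf0 : 0 < f := by rw [hf]; exact fT_norm_pos he hκ hs0
  have hfa : f ≤ m.fa := by rw [hf]; exact o.o_fa0
  have hQb := o.o_Qb0
  have hfa0 : 0 < m.fa := lt_of_lt_of_le hf0 hfa
  have hep1 : Real.exp y - 1 ≤ c.dP * c.Ee :=
    hexp.trans (mul_le_mul_of_nonneg_right hydP hEe0)
  have hep2 : (Real.exp y - 1) * f * m.Qb ≤ c.dP * c.Ee * m.fa * m.Qb := by
    apply mul_le_mul_of_nonneg_right _ hQb.le
    exact mul_le_mul hep1 hfa hf0.le (hexp0.trans hep1)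
  have hden : c.dP * c.Ee * m.fa * m.Qb = 1 - c.den := by rw [c.e_den]; ring
  rw [hden] at hep2
  refine ⟨(Real.exp y - 1) * f / (1 - (Real.exp y - 1) * f * m.Qb), ?_, ?_, ?_, ?_⟩
  · intro τ' h1 h2
    have := rho_O2 he hκ (τ := τ) (z := τ') (η := η) (d := d) (P := P) (f1 := f) (nq := m.Qb)
      hτ0 h1 h2 (by rw [G.re, hdR]) hd1 hP (by rw [hf]) o.o_nq (by rw [← hy]; linarith)
    rw [← hy] at this
    exact this
  · -- numbers
    have h1 : (Real.exp y - 1) * f / (1 - (Real.exp y - 1) * f * m.Qb) ≤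
        (η * c.PR * c.Ee) * f / c.den := by
      apply div_le_div₀ _ _ aden (by linarith)
      · positivity
      · apply mul_le_mul_of_nonneg_right _ hf0.le
        exact hexp.trans (mul_le_mul_of_nonneg_right hyη hEe0)
    refine h1.trans ?_
    have e1 : η * c.PR * c.Ee * f / c.den = c.PR * c.Ee * v.ei * c.den⁻¹ * (f * (v.e * η)) := by
      rw [div_eq_mul_inv]
      linear_combination (-(η * c.PR * c.Ee * f * c.den⁻¹)) * heie
    rw [e1]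
    have h2 := o.o_ηF
    rw [← hf] at h2
    have h3 : 0 ≤ c.PR * c.Ee * v.ei * c.den⁻¹ := by positivity
    refine (mul_le_mul_of_nonneg_left h2 h3).trans (le_of_eq ?_)
    rw [c.e_FX, m.e_XLt, c.e_fbt, c.e_sl, c.e_C, v.e_h1, v.e_tu2, v.e_tu]
    have hop' : v.op1⁻¹ * v.op1 = 1 := inv_mul_cancel₀ hop.ne'
    have hu' : v.u⁻¹ * v.u = 1 := inv_mul_cancel₀ hu.ne'
    obtain ⟨S, hS⟩ : ∃ S, S = v.e * m.fa * v.om1 * m.bte + m.ka * v.h1t * v.u⁻¹ * g * m.lsf +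
      m.fa * m.lfk * phu := ⟨_, rfl⟩
    obtain ⟨C, hC⟩ : ∃ C, C = c.PR * c.Ee * m.NN * v.ei * c.den⁻¹ := ⟨_, rfl⟩
    rw [← hS, ← hC]
    rw [show c.PR * c.Ee * v.ei * c.den⁻¹ * (m.NN * (v.t * v.u * (v.t * v.u) * v.om1 ^ 2 * m.bte *
      (v.e * m.fa) + v.t * v.u * m.ka * (v.om1 * v.t * v.h1t * g * m.lsf) +
      v.t * v.u * (v.t * v.u) * v.om1 * (m.lfk * phu) * m.fa +
      v.t * v.u * (m.ka * m.iX + m.kb * m.fa * m.Qb * m.iQX) * X)) =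
      C * ((v.t * v.u * (v.t * v.u) * v.om1 ^ 2 * m.bte *
      (v.e * m.fa) + v.t * v.u * m.ka * (v.om1 * v.t * v.h1t * g * m.lsf) +
      v.t * v.u * (v.t * v.u) * v.om1 * (m.lfk * phu) * m.fa +
      v.t * v.u * (m.ka * m.iX + m.kb * m.fa * m.Qb * m.iQX) * X)) by rw [hC]; ring]
    linear_combination (-(C * v.u ^ 2 * v.t ^ 2 * v.om1 * S * (v.op1⁻¹ * v.op1))) * hiA -
      (C * v.u ^ 2 * v.t ^ 2 * v.om1 * S) * hop' -
      (C * v.u * v.t ^ 2 * v.om1 * m.ka * v.h1t * g * m.lsf) * hu' -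
      (C * v.u ^ 2 * v.t ^ 2 * v.om1) * hS
  · rw [c.e_fbt, c.e_C]
    have := o.o_ka0
    have := o.o_kb0
    have := o.o_iX0
    have := o.o_iQX0
    have := o.o_NN1
    have : 0 ≤ m.NN := by linarith
    positivity
  · rw [c.e_FX, c.e_C, c.e_sl]
    have := o.o_ka0
    have := o.o_bte0
    have := o.o_lfk0
    have := o.o_lsf0
    have := o.o_NN1
    have : 0 ≤ m.NN := by linarith
    have hiA0 : 0 < iA := by
      by_contra hc
      push Not at hc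
      nlinarith
    have hh1t : 0 ≤ v.h1t := by
      rw [v.e_h1t, v.e_ioK]
      have := G.cgt
      have := G.K0
      have := G.om0
      positivity
    positivity

end Pool.Agent.helper71.FF
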