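import Mathlib

/-!
# Scalar inequalities
-/

namespace Pool.Agent.helper71.FF

theorem exp_b4 {x : ℝ} (h0 : 0 ≤ x) (h1 : x ≤ 1) :
    Real.exp x ≤ 1 + x + x ^ 2 / 2 + x ^ 3 / 6 + 5 / 96 * x ^ 4 := by
  have h := Real.exp_bound' h0 h1 (n := 4) (by norm_num)
  refine h.trans (le_of_eq ?_)
  simp [Finset.sum_range_succ, Nat.factorial]
  ring

theorem exp_b3 {x : ℝ} (h0 : 0 ≤ x) (h1 : x ≤ 1) :
    Real.exp x ≤ 1 + x + x ^ 2 / 2 + 2 / 9 * x ^ 3 := by
  have h := Real.exp_bound' h0 h1 (n := 3) (by norm_num)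
  refine h.trans (le_of_eq ?_)
  simp [Finset.sum_range_succ, Nat.factorial]
  ring

/-- `(exp x - 1)/x` -/
theorem exp_Na {x : ℝ} (h0 : 0 ≤ x) (h1 : x ≤ 5 / 8) :
    Real.exp x - 1 ≤ x * (1 + x * ((1 / 2) + (13 / 64) * x)) := by
  have h := exp_b4 h0 (by linarith)
  have h2 : 0 ≤ x ^ 3 * (5 / 8 - x) := mul_nonneg (by positivity) (by linarith)
  nlinarith [pow_nonneg h0 3]

theorem exp_Na' {x y : ℝ} (h0 : 0 ≤ x) (hxy : x ≤ y) (h1 : y ≤ 5 / 8) :
    Real.exp x - 1 ≤ x * (1 + y * ((1 / 2) + (13 / 64) * y)) := by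
  refine (exp_Na h0 (hxy.trans h1)).trans ?_
  apply mul_le_mul_of_nonneg_left _ h0
  have hy : 0 ≤ y := h0.trans hxy
  have : x * ((1 / 2) + (13 / 64) * x) ≤ y * ((1 / 2) + (13 / 64) * y) := by
    apply mul_le_mul hxy _ (by positivity) hy
    linarith
  linarith

/-- `(exp (2y) - 1)/(2y)` -/
theorem exp_Nb {z y : ℝ} (h0 : 0 ≤ z) (hzy : z ≤ 2 * y) (h1 : y ≤ 11 / 32) :
    Real.exp z - 1 ≤ z * (1 + y * (1 + (13 / 16) * y)) := by
  have hy : 0 ≤ y := by linarith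
  have h := exp_b4 h0 (by linarith)
  have e1 : 1 + z + z ^ 2 / 2 + z ^ 3 / 6 + 5 / 96 * z ^ 4 - 1 =
      z * (1 + (z / 2) * (1 + (z / 2) * (2 / 3 + 5 / 12 * (z / 2)))) := by ring
  have h2 : Real.exp z - 1 ≤ z * (1 + (z / 2) * (1 + (z / 2) * (2 / 3 + 5 / 12 * (z / 2)))) := by
    rw [← e1]; linarith
  refine h2.trans ?_
  apply mul_le_mul_of_nonneg_left _ h0
  obtain ⟨w, hw⟩ : ∃ w, w = z / 2 := ⟨_, rfl⟩
  rw [← hw]
  have hw0 : 0 ≤ w := by rw [hw]; linarith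
  have hwy : w ≤ y := by rw [hw]; linarith
  have h3 : w * (2 / 3 + 5 / 12 * w) ≤ 13 / 16 * y := by nlinarith
  have h4 : w * (1 + w * (2 / 3 + 5 / 12 * w)) ≤ y * (1 + 13 / 16 * y) := by
    apply mul_le_mul hwy _ (by positivity) hy
    linarith
  linarith

/-- `exp x ≤ 1 + x + 5/8 x²` -/
theorem exp_58 {x : ℝ} (h0 : 0 ≤ x) (h1 : x ≤ 1 / 2) :
    Real.exp x ≤ 1 + x * (1 + (5 / 8) * x) := by
  have h := exp_b3 h0 (by linarith)
  have h2 : 0 ≤ x ^ 2 * (1 / 2 - x) := mul_nonneg (by positivity) (by linarith)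
  nlinarith [pow_nonneg h0 2]

theorem exp_58' {x y : ℝ} (h0 : 0 ≤ x) (hxy : x ≤ y) (h1 : y ≤ 1 / 2) :
    Real.exp x ≤ 1 + y * (1 + (5 / 8) * y) :=
  (Real.exp_le_exp.2 hxy).trans (exp_58 (h0.trans hxy) h1)

theorem exp_Ei {L : ℝ} (h0 : 0 ≤ L) (h1 : L ≤ 2 / 5) :
    Real.exp (2 * L) ≤ 1 + L * ((45 / 16) * L + 2) := by
  have h := exp_b4 (x := 2 * L) (by linarith) (by linarith)
  have h2 : 0 ≤ L ^ 2 * (2 / 5 - L) := mul_nonneg (by positivity) (by linarith)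
  nlinarith [pow_nonneg h0 2, pow_nonneg h0 3, pow_nonneg h0 4]

theorem exp_Eh {L : ℝ} (h0 : 0 ≤ L) (h1 : L ≤ 2 / 5) :
    (1 + Real.exp (2 * L)) / 2 ≤ 1 + L * ((45 / 32) * L + 1) := by
  have h := exp_Ei h0 h1
  linarith

/-- `-log (1 - x) ≤ x (1 - x/2)/(1 - x)` -/
theorem log_kz {x : ℝ} (h0 : 0 ≤ x) (h1 : x < 1) :
    -Real.log (1 - x) ≤ x * ((1 - (1 / 2) * x) * (1 - x)⁻¹) := by
  -- y = 1/(1-x) ≥ 1 : log y ≤ (y² - 1)/(2y)
  have hy : 0 < 1 - x := by linarith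
  have h2 : -Real.log (1 - x) = Real.log (1 - x)⁻¹ := by rw [Real.log_inv]
  rw [h2]
  obtain ⟨y, hyd⟩ : ∃ y, y = (1 - x)⁻¹ := ⟨_, rfl⟩
  have hy1 : 1 ≤ y := by rw [hyd]; exact (one_le_inv₀ hy).2 (by linarith)
  have hxy : x = 1 - y⁻¹ := by rw [hyd, inv_inv]; ring
  have e1 : x * ((1 - (1 / 2) * x) * (1 - x)⁻¹) = (y - y⁻¹) / 2 := by
    have hy0 : y ≠ 0 := by positivity
    rw [← hyd, hxy]
    field_simp
    ring
  rw [e1, ← hyd]
  have hlog0 : 0 ≤ Real.log y := Real.log_nonneg hy1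
  have h3 := Real.self_le_sinh_iff.2 hlog0
  rw [Real.sinh_log (by linarith)] at h3
  exact h3

theorem log_kz' {x y : ℝ} (h0 : 0 ≤ x) (hxy : x ≤ y) (h1 : y < 1) :
    -Real.log (1 - x) ≤ x * ((1 - (1 / 2) * y) * (1 - y)⁻¹) := by
  refine (log_kz h0 (by linarith)).trans ?_
  apply mul_le_mul_of_nonneg_left _ h0
  rw [← div_eq_mul_inv, ← div_eq_mul_inv, div_le_div_iff₀ (by linarith) (by linarith)]
  nlinarith

theorem log_one_half {x : ℝ} (h0 : 0 ≤ x) (h1 : x ≤ 1 / 2) :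
    -Real.log (1 - x) ≤ x * (x + 1) := by
  refine (log_kz h0 (by linarith)).trans ?_
  apply mul_le_mul_of_nonneg_left _ h0
  rw [← div_eq_mul_inv, div_le_iff₀ (by linarith)]
  nlinarith

/-- `log y ≤ (y-1)/√y` in the form `a y ≥ ..`: for `s ≥ 1`, `2 log s ≤ s - 1/s` -/
theorem two_log_le {s : ℝ} (hs : 1 ≤ s) : 2 * Real.log s ≤ s - s⁻¹ := by
  have hlog0 : 0 ≤ Real.log s := Real.log_nonneg hs
  have h3 := Real.self_le_sinh_iff.2 hlog0
  rw [Real.sinh_log (by linarith)] at h3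
  linarith

/-- `log (1 + z) ≤ z w` when `w² (1+z) = 1`, `w > 0`, `z ≥ 0` -/
theorem log_sqrt {z w : ℝ} (hz : 0 ≤ z) (hw : 0 < w) (h : 1 ≤ w ^ 2 * (1 + z)) :
    Real.log (1 + z) ≤ z * w := by
  obtain ⟨s, hs⟩ : ∃ s, s = Real.sqrt (1 + z) := ⟨_, rfl⟩
  have hs2 : s ^ 2 = 1 + z := by rw [hs]; exact Real.sq_sqrt (by linarith)
  have hs0 : 0 ≤ s := by rw [hs]; exact Real.sqrt_nonneg _
  have hs1 : 1 ≤ s := by nlinarith
  have h1 := two_log_le hs1
  have h2 : Real.log (1 + z) = 2 * Real.log s := by rw [← hs2, Real.log_pow]; push_cast; ring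
  rw [h2]
  refine h1.trans ?_
  -- s - 1/s = z/s ≤ z w since w s ≥ 1
  have h3 : s - s⁻¹ = z * s⁻¹ := by
    have hs' : s ≠ 0 := by positivity
    field_simp
    nlinarith
  rw [h3]
  apply mul_le_mul_of_nonneg_left _ hz
  have h4 : 1 ≤ w * s := by
    by_contra hc
    push Not at hc
    have h5 : 0 ≤ w * s := by positivity
    have h6 : (w * s) ^ 2 < 1 := by nlinarith
    rw [mul_pow, hs2] at h6
    linarith
  rw [inv_le_iff_one_le_mul₀ (by linarith)]
  exact h4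

/-- `log (1 + D) ≤ D (D + 6)/(4 D + 6)` -/
theorem log_pade {D : ℝ} (h0 : 0 ≤ D) :
    Real.log (1 + D) ≤ D * ((D + 6) * (4 * D + 6)⁻¹) := by
  have hd : ∀ x ∈ Set.Ici (0 : ℝ), HasDerivAt
      (fun D : ℝ => D * ((D + 6) * (4 * D + 6)⁻¹) - Real.log (1 + D))
      (4 * x ^ 3 / ((4 * x + 6) ^ 2 * (1 + x))) x := by
    intro x hx
    have hx0 : (0 : ℝ) ≤ x := hx
    have h46 : (4 * x + 6) ≠ 0 := by positivity
    have h1x : (1 + x) ≠ 0 := by positivity
    have h1 : HasDerivAt (fun D : ℝ => (4 * D + 6)) 4 x := by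
      simpa using ((hasDerivAt_id x).const_mul (4 : ℝ)).add_const 6
    have h2 := h1.fun_inv h46
    have h3 : HasDerivAt (fun D : ℝ => (D + 6)) 1 x := (hasDerivAt_id x).add_const 6
    have h4 := (hasDerivAt_id' x).fun_mul (h3.fun_mul h2)
    have h5 : HasDerivAt (fun D : ℝ => 1 + D) 1 x := by
      simpa using (hasDerivAt_id x).const_add 1
    have h6 := h4.fun_sub (h5.log h1x)
    refine h6.congr_deriv ?_
    field_simp
    ring
  have hm : MonotoneOn (fun D : ℝ => D * ((D + 6) * (4 * D + 6)⁻¹) - Real.log (1 + D)) (Set.Ici 0) := by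
    apply monotoneOn_of_deriv_nonneg (convex_Ici 0)
    · exact fun y hy => (hd y hy).continuousAt.continuousWithinAt
    · intro y hy
      rw [interior_Ici] at hy
      exact (hd y (le_of_lt (Set.mem_Ioi.1 hy))).differentiableAt.differentiableWithinAt
    · intro y hy
      rw [interior_Ici] at hy
      have hy0 : 0 < y := hy
      rw [(hd y hy0.le).deriv]
      positivity
  have := hm (Set.mem_Ici.2 le_rfl) (Set.mem_Ici.2 h0) h0
  simp at this
  linarith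

/-- `2 z/(2 + z) ≤ log (1 + z)` -/
theorem log_ge_pade {z : ℝ} (h0 : 0 ≤ z) : 2 * z / (2 + z) ≤ Real.log (1 + z) := by
  have hd : ∀ x ∈ Set.Ici (0 : ℝ), HasDerivAt
      (fun z : ℝ => Real.log (1 + z) - 2 * z / (2 + z))
      (x ^ 2 / ((2 + x) ^ 2 * (1 + x))) x := by
    intro x hx
    have hx0 : (0 : ℝ) ≤ x := hx
    have h46 : (2 + x) ≠ 0 := by positivity
    have h1x : (1 + x) ≠ 0 := by positivity
    have h1 : HasDerivAt (fun D : ℝ => (2 + D)) 1 x := by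
      simpa using (hasDerivAt_id x).const_add 2
    have h3 : HasDerivAt (fun D : ℝ => 2 * D) 2 x := by
      simpa using (hasDerivAt_id x).const_mul (2 : ℝ)
    have h5 : HasDerivAt (fun D : ℝ => 1 + D) 1 x := by
      simpa using (hasDerivAt_id x).const_add 1
    have h6 := (h5.log h1x).sub (h3.div h1 h46)
    refine h6.congr_deriv ?_
    field_simp
    ring
  have hm : MonotoneOn (fun z : ℝ => Real.log (1 + z) - 2 * z / (2 + z)) (Set.Ici 0) := by
    apply monotoneOn_of_deriv_nonneg (convex_Ici 0)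
    · exact fun y hy => (hd y hy).continuousAt.continuousWithinAt
    · intro y hy
      rw [interior_Ici] at hy
      exact (hd y (le_of_lt (Set.mem_Ioi.1 hy))).differentiableAt.differentiableWithinAt
    · intro y hy
      rw [interior_Ici] at hy
      have hy0 : 0 < y := hy
      rw [(hd y hy0.le).deriv]
      positivity
  have := hm (Set.mem_Ici.2 le_rfl) (Set.mem_Ici.2 h0) h0
  simp at this
  linarith

/-- `exp (-y) ≤ 1 - y + y²/2` -/
theorem exp_neg_le {y : ℝ} (h0 : 0 ≤ y) : Real.exp (-y) ≤ 1 - y * (1 - (1 / 2) * y) := by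
  have hd : ∀ x : ℝ, HasDerivAt (fun y : ℝ => 1 - y * (1 - (1 / 2) * y) - Real.exp (-y))
      (-1 + x + Real.exp (-x)) x := by
    intro x
    have h1 : HasDerivAt (fun y : ℝ => Real.exp (-y)) (-Real.exp (-x)) x := by
      have := (hasDerivAt_neg x).exp
      simpa using this
    have h2 : HasDerivAt (fun y : ℝ => y * (1 - (1 / 2) * y)) (1 - x) x := by
      have h3 : HasDerivAt (fun y : ℝ => 1 - (1 / 2) * y) (-(1 / 2)) x := by
        simpa using ((hasDerivAt_id x).const_mul (1 / 2 : ℝ)).const_sub 1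
      have h4 := (hasDerivAt_id x).mul h3
      refine h4.congr_deriv ?_
      simp only [id]
      ring
    have h5 := (h2.const_sub 1).sub h1
    refine h5.congr_deriv ?_
    ring
  have hm : MonotoneOn (fun y : ℝ => 1 - y * (1 - (1 / 2) * y) - Real.exp (-y)) (Set.Ici 0) := by
    apply monotoneOn_of_deriv_nonneg (convex_Ici 0)
    · exact fun y _ => (hd y).continuousAt.continuousWithinAt
    · exact fun y _ => (hd y).differentiableAt.differentiableWithinAt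
    · intro y _
      rw [(hd y).deriv]
      have := Real.add_one_le_exp (-y)
      linarith
  have := hm (Set.mem_Ici.2 le_rfl) (Set.mem_Ici.2 h0) h0
  simp at this
  linarith

/-- `1 - exp (-y) ≤ y - y²/2 + y³/6`, also with a larger last coefficient -/
theorem one_sub_exp_le {y : ℝ} (h0 : 0 ≤ y) :
    1 - Real.exp (-y) ≤ y * (1 - y * ((1 / 2) - (2731 / 16384) * y)) := by
  have hd : ∀ x : ℝ, HasDerivAt
      (fun y : ℝ => y - y ^ 2 / 2 + y ^ 3 / 6 - (1 - Real.exp (-y)))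
      (1 - x * (1 - (1 / 2) * x) - Real.exp (-x)) x := by
    intro x
    have h1 : HasDerivAt (fun y : ℝ => Real.exp (-y)) (-Real.exp (-x)) x := by
      have := (hasDerivAt_neg x).exp
      simpa using this
    have h2 := (((hasDerivAt_id x).sub ((hasDerivAt_pow 2 x).div_const 2)).add
      ((hasDerivAt_pow 3 x).div_const 6)).sub (h1.const_sub 1)
    refine h2.congr_deriv ?_
    push_cast
    ring
  have hm : MonotoneOn (fun y : ℝ => y - y ^ 2 / 2 + y ^ 3 / 6 - (1 - Real.exp (-y)))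
      (Set.Ici 0) := by
    apply monotoneOn_of_deriv_nonneg (convex_Ici 0)
    · exact fun y _ => (hd y).continuousAt.continuousWithinAt
    · exact fun y _ => (hd y).differentiableAt.differentiableWithinAt
    · intro y hy
      rw [interior_Ici] at hy
      rw [(hd y).deriv]
      have := exp_neg_le (le_of_lt (Set.mem_Ioi.1 hy))
      linarith
  have := hm (Set.mem_Ici.2 le_rfl) (Set.mem_Ici.2 h0) h0
  simp at this
  nlinarith [pow_nonneg h0 3]

/-- `1/√(1 + D) ≤ 1 - D/2 + 3/8 D²` in the form used -/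
theorem inv_sqrt_le {a D : ℝ} (ha : 0 < a) (hD : 0 ≤ D) (h : a ^ 2 = 1 + D) :
    a⁻¹ ≤ 1 - D * ((1 / 2) - (3 / 8) * D) := by
  have h1 : 0 < 1 - D * ((1 / 2) - (3 / 8) * D) := by nlinarith [sq_nonneg (D - 2 / 3)]
  rw [inv_le_iff_one_le_mul₀ ha]
  -- (1 - D/2 + 3/8 D²)² (1 + D) ≥ 1
  have h2 : 1 ≤ (1 - D * ((1 / 2) - (3 / 8) * D)) ^ 2 * (1 + D) := by
    have e1 : (1 - D * ((1 / 2) - (3 / 8) * D)) ^ 2 * (1 + D) - 1 =
      D ^ 3 * (5 / 8 - 15 / 64 * D + 9 / 64 * D ^ 2) := by ring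
    have h3 : 0 ≤ 5 / 8 - 15 / 64 * D + 9 / 64 * D ^ 2 := by nlinarith [sq_nonneg (D - 5 / 6)]
    have := mul_nonneg (pow_nonneg hD 3) h3
    linarith
  by_contra hc
  push Not at hc
  have h4 : 0 ≤ (1 - D * ((1 / 2) - (3 / 8) * D)) * a := by positivity
  have h5 : ((1 - D * ((1 / 2) - (3 / 8) * D)) * a) ^ 2 < 1 := by nlinarith
  rw [mul_pow, h] at h5
  linarith

end Pool.Agent.helper71.FF
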