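import Pool.Agent.helper71.FF.Gam
import Pool.Agent.helper71.FF.Scal
import Pool.Agent.helper63.FF.Pt2

/-!
# Far field programs: the deviation of the radicand
-/

namespace Pool.Agent.helper71.FF

open Complex ComplexConjugate Pool.Agent.helper31.EQ.Y Pool.Agent.helper31.EQ.R
open Pool.Agent.helper12.EQL Pool.Agent.helper12.RP Pool.Agent.helper12.FF Pool.Agent.helper63.FF

variable {κ : ℝ}

namespace Geo

variable {s : ℂ} {v : B1}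

theorem ih0 (g : Geo κ s v) (v2 : B2 v) : 0 < v2.ih := by
  rw [v2.e_ih]; have := g.h0; positivity

theorem ihh (g : Geo κ s v) (v2 : B2 v) : v2.ih * (1 + v.h) = 1 := by
  rw [v2.e_ih, add_comm 1, inv_mul_cancel₀]
  have := g.h0
  positivity

/-- `exp (-κ) = mi = (1 - h)/(1 + h)` -/
theorem mi_eq (g : Geo κ s v) (v2 : B2 v) : v2.mi = Real.exp (-κ) := by
  have h1 := g.ihh v2
  have h2 : Real.exp (-κ) = v.c0 - v.K := by rw [g.c0, g.K, Real.cosh_sub_sinh]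
  have h3 := g.cKh
  have h4 := g.h0
  have h5 := g.jjm
  have h6 := v.e_jm
  have h7 := v.e_K
  rw [h2, v2.e_mi, v2.e_rh]
  have h8 : 0 < 1 + v.h := by linarith
  -- multiply by 1 + h
  apply mul_right_cancel₀ h8.ne'
  have e1 : (1 - 2 * (v.h * v2.ih)) * (1 + v.h) = 1 - v.h := by
    linear_combination (-2 * v.h) * h1
  rw [e1]
  have h9 : v.c0 = 1 + v.K * v.h := by linarith
  rw [h9, h7]
  rw [h6] at h5
  linear_combination (2 * v.h) * h5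

theorem rh_eq (g : Geo κ s v) (v2 : B2 v) : v2.rh = 1 - Real.exp (-κ) := by
  have h1 := g.mi_eq v2
  rw [v2.e_mi] at h1
  linarith

theorem rh0 (g : Geo κ s v) (v2 : B2 v) : 0 < v2.rh := by
  rw [v2.e_rh]
  have := g.h0
  have := g.ih0 v2
  positivity

theorem mi0 (g : Geo κ s v) (v2 : B2 v) : 0 < v2.mi := by
  rw [g.mi_eq v2]; exact Real.exp_pos _

theorem nih0 (g : Geo κ s v) (v2 : B2 v) : 0 < v2.nih := by
  rw [v2.e_nih]
  exact mul_pos g.n0 (g.ih0 v2)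

theorem rh_tu (_g : Geo κ s v) (v2 : B2 v) : v2.rh = v.tu * v2.nih := by
  rw [v2.e_rh, v2.e_nih, v.e_h]
  ring

theorem bsum0 (g : Geo κ s v) (v2 : B2 v) : 0 < v2.bsum := by
  rw [v2.e_bsum]
  have := g.op0
  have := g.nih0 v2
  have := g.mi0 v2
  positivity

theorem Qm1 (g : Geo κ s v) : ‖Qk κ s - (Real.exp κ : ℂ)‖ = v.tu * v.om1 := by
  have h0 : Qk κ s - (Real.exp κ : ℂ) = (Real.sinh κ : ℂ) * (s - 1) := by
    have h1 : Qk κ s = (Real.cosh κ : ℂ) + (Real.sinh κ : ℂ) * s := rfl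
    rw [h1, ← Real.cosh_add_sinh]
    push_cast
    ring
  rw [h0, norm_mul, Complex.norm_real, Real.norm_of_nonneg (Real.sinh_nonneg_iff.2 g.κ0.le), g.Sm]

theorem Qm2 (g : Geo κ s v) (v2 : B2 v) :
    ‖Qk κ s - (Real.exp (-(2 * κ)) : ℂ)‖ ≤ v.tu * v2.bsum := by
  have h0 : Qk κ s - (Real.exp (-(2 * κ)) : ℂ) = (Real.sinh κ : ℂ) * (s + 1) +
      ((Real.exp (-κ) * (1 - Real.exp (-κ)) : ℝ) : ℂ) := by
    have h1 : Qk κ s = (Real.cosh κ : ℂ) + (Real.sinh κ : ℂ) * s := rfl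
    have h2 : Real.exp (-(2 * κ)) = Real.exp (-κ) * Real.exp (-κ) := by
      rw [← Real.exp_add]; congr 1; ring
    have h3 : (Real.cosh κ : ℂ) - (Real.sinh κ : ℂ) = (Real.exp (-κ) : ℂ) := by
      rw [← Real.cosh_sub_sinh]; push_cast; ring
    rw [h1, h2]
    push_cast
    push_cast at h3
    linear_combination h3
  rw [h0]
  refine (norm_add_le _ _).trans ?_
  rw [norm_mul, Complex.norm_real, Real.norm_of_nonneg (Real.sinh_nonneg_iff.2 g.κ0.le), g.Sp,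
    Complex.norm_real, ← g.mi_eq v2]
  have h4 := g.mi0 v2
  have h5 := g.rh0 v2
  have h6 : 1 - v2.mi = v2.rh := by rw [v2.e_mi]; ring
  rw [h6, Real.norm_of_nonneg (by positivity), v2.e_bsum, g.rh_tu v2]
  linarith

theorem Knorm_sq (g : Geo κ s v) : Real.sinh κ ^ 2 * ‖s‖ ^ 2 = v.tu2 * (1 - v.f2) := by
  have h1 := sa_sq s
  have h2 : ‖s‖ ^ 2 = sa s ^ 2 + su s ^ 2 - 1 := by linarith
  have h3 := g.nja
  rw [h2, v.e_tu2, v.e_f2, v.e_nj2, v.e_u2, g.tu, ← g.u]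
  have h4 : Real.sinh κ * sa s * (Real.sinh κ * sa s) * (1 - v.nj * v.nj * (1 - v.u * v.u)) =
      Real.sinh κ ^ 2 * (sa s ^ 2 - (v.nj * sa s) ^ 2 * (1 - v.u ^ 2)) := by ring
  rw [h4, h3]
  ring

/-- `|K (s - h)|² = tu² N1` -/
theorem N1_eq (g : Geo κ s v) {N1 : ℝ}
    (hN : N1 = 1 - v.f2 - 2 * (v.h * v.om) + v.h * v.nj * (v.h * v.nj)) :
    ‖(Real.sinh κ : ℂ) * (s - (v.h : ℂ))‖ ^ 2 = v.tu2 * N1 := by
  have h1 : ‖s - (v.h : ℂ)‖ ^ 2 = ‖s‖ ^ 2 - 2 * v.h * s.re + v.h ^ 2 := by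
    rw [← Complex.normSq_eq_norm_sq, ← Complex.normSq_eq_norm_sq, Complex.normSq_apply,
      Complex.normSq_apply, sub_re, sub_im, ofReal_re, ofReal_im]
    ring
  rw [norm_mul, mul_pow, Complex.norm_real, Real.norm_of_nonneg (Real.sinh_nonneg_iff.2 g.κ0.le),
    h1, hN]
  have h2 := g.Knorm_sq
  have h3 := g.re
  have h4 : Real.sinh κ = v.nj * v.tu := by
    rw [g.tu]
    linear_combination (-Real.sinh κ) * g.nja
  have h5 : Real.sinh κ ^ 2 * (‖s‖ ^ 2 - 2 * v.h * s.re + v.h ^ 2) =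
      Real.sinh κ ^ 2 * ‖s‖ ^ 2 - 2 * v.h * Real.sinh κ * (Real.sinh κ * s.re) +
        v.h ^ 2 * Real.sinh κ ^ 2 := by ring
  rw [h5, h2, h3, h4, v.e_R, v.e_u2, v.e_om, v.e_tu2, v.e_tu]
  ring

theorem f2_0 (g : Geo κ s v) : 0 ≤ v.f2 ∧ v.f2 ≤ 1 := by
  rw [v.e_f2, v.e_nj2, v.e_u2]
  have h1 := g.nj0
  have h2 := g.nj1
  have h3 := g.u0
  have h4 := g.u1
  have h5 : v.u * v.u ≤ 1 := by nlinarith
  have h6 : v.nj * v.nj ≤ 1 := by nlinarith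
  have h7 : 0 ≤ v.nj * v.nj := by positivity
  have h8 : 0 < v.u * v.u := by positivity
  constructor
  · exact mul_nonneg h7 (by linarith)
  · nlinarith

/-- the second factor -/
theorem fac2 (g : Geo κ s v) :
    ‖(2 * (v.j : ℂ)) - (Real.sinh κ : ℂ) * s‖ ≤
      2 * (v.j - (1 / 2) * v.R + (1 / 8) * (v.tu2 * (1 - v.f2) * v.jm)) := by
  have h1 := g.Knorm_sq
  have h2 := g.re
  have hj := g.jgt
  have hjm := g.jm0
  have hjj := g.jjm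
  have h3 : ‖(2 * (v.j : ℂ)) - (Real.sinh κ : ℂ) * s‖ ^ 2 =
      4 * v.j ^ 2 - 4 * v.j * (Real.sinh κ * s.re) + Real.sinh κ ^ 2 * ‖s‖ ^ 2 := by
    have e1 : (2 * (v.j : ℂ)) = ((2 * v.j : ℝ) : ℂ) := by push_cast; ring
    rw [e1, ← Complex.normSq_eq_norm_sq, ← Complex.normSq_eq_norm_sq, Complex.normSq_apply,
      Complex.normSq_apply, sub_re, sub_im, ofReal_re, ofReal_im, re_ofReal_mul, im_ofReal_mul]
    ring
  rw [h2, h1] at h3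
  obtain ⟨y, hy⟩ : ∃ y, y = -4 * v.j * v.R + v.tu2 * (1 - v.f2) := ⟨_, rfl⟩
  have h4 : 2 * (v.j - (1 / 2) * v.R + (1 / 8) * (v.tu2 * (1 - v.f2) * v.jm)) =
      2 * v.j + y * v.jm / 4 := by
    rw [hy]
    linear_combination v.R * hjj
  have h5 : ‖(2 * (v.j : ℂ)) - (Real.sinh κ : ℂ) * s‖ ^ 2 = 4 * v.j ^ 2 + y := by
    rw [h3, hy]; ring
  rw [h4]
  have h6 : 0 ≤ 4 * v.j ^ 2 + y := by rw [← h5]; positivity
  have h7 : -v.j ≤ y * v.jm / 4 := by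
    have h8 : -4 * v.j ^ 2 * v.jm ≤ y * v.jm := mul_le_mul_of_nonneg_right (by linarith) hjm.le
    have h9 : v.j ^ 2 * v.jm = v.j := by
      linear_combination v.j * hjj
    linarith [h8, h9]
  apply abs_le_of_sq_le_sq' _ (by linarith) |>.2
  rw [h5]
  have h8 : (2 * v.j + y * v.jm / 4) ^ 2 = 4 * v.j ^ 2 + y * (v.j * v.jm) + (y * v.jm / 4) ^ 2 := by
    ring
  rw [h8, hjj]
  nlinarith [sq_nonneg (y * v.jm / 4)]

/-- `|1 - Qm²|/2 ≤ tu k0` -/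
theorem k0_le (g : Geo κ s v) {N1 sv k0 : ℝ}
    (hN : N1 = 1 - v.f2 - 2 * (v.h * v.om) + v.h * v.nj * (v.h * v.nj))
    (hs : sv = (1 / 2) * (N1 + 1))
    (hk : k0 = sv * (v.j - (1 / 2) * v.R + (1 / 8) * (v.tu2 * (1 - v.f2) * v.jm))) :
    ‖1 - (2 * (Real.cosh κ : ℂ) - Qk κ s) ^ 2‖ ≤ 2 * (v.tu * k0) := by
  have h1 : 1 - (2 * (Real.cosh κ : ℂ) - Qk κ s) ^ 2 =
      ((Real.sinh κ : ℂ) * (s - (v.h : ℂ))) * ((2 * (v.j : ℂ)) - (Real.sinh κ : ℂ) * s) := by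
    have h2 : Qk κ s = (Real.cosh κ : ℂ) + (Real.sinh κ : ℂ) * s := rfl
    have h3 : (Real.cosh κ : ℂ) = 1 + (Real.sinh κ : ℂ) * (v.h : ℂ) := by
      have := g.cKh
      rw [g.c0, g.K] at this
      have h4 : Real.cosh κ = 1 + Real.sinh κ * v.h := by linarith
      exact_mod_cast h4
    have h5 : (2 * (v.j : ℂ)) = (Real.cosh κ : ℂ) + 1 := by
      have h6 : 2 * v.j = v.c0 + 1 := by rw [v.e_c0]; ring
      rw [g.c0] at h6
      exact_mod_cast h6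
    rw [h2, h5]
    have h7 : (Real.sinh κ : ℂ) * (s - (v.h : ℂ)) = (Real.sinh κ : ℂ) * s - ((Real.cosh κ : ℂ) - 1) := by
      rw [h3]; ring
    rw [h7]
    ring
  rw [h1, norm_mul]
  have hN1 := g.N1_eq hN
  have htu := g.tu0
  have ha : ‖(Real.sinh κ : ℂ) * (s - (v.h : ℂ))‖ ≤ v.tu * sv := by
    have hN0 : 0 ≤ N1 := by
      have : 0 ≤ v.tu2 * N1 := by rw [← hN1]; positivity
      rw [v.e_tu2] at this
      by_contra hc
      push Not at hc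
      have := mul_neg_of_pos_of_neg (mul_pos htu htu) hc
      linarith
    apply abs_le_of_sq_le_sq' _ (by rw [hs]; positivity) |>.2
    rw [hN1, hs, v.e_tu2]
    have : (v.tu * ((1 / 2) * (N1 + 1))) ^ 2 = v.tu * v.tu * (N1 + ((N1 - 1) / 2) ^ 2) := by ring
    rw [this]
    apply mul_le_mul_of_nonneg_left _ (by positivity)
    nlinarith [sq_nonneg ((N1 - 1) / 2)]
  have hb := g.fac2
  have := mul_le_mul ha hb (norm_nonneg _) ((norm_nonneg _).trans ha)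
  refine this.trans (le_of_eq ?_)
  rw [hk]
  ring

end Geo

/-- the deviation with the values of the program -/
noncomputable def E0v {v : B1} {v2 : B2 v} {b : GB v.q v.x v.h1} {A g ga phu Ei Eh : ℝ}
    (w : Mid v v2 b A g ga phu Ei Eh) (L1 M2 : ℝ) : ℝ :=
  v.tu2 * v.om1 ^ 2 * w.bte + v.tu * (w.ka * L1 + w.kb * M2) + v.tu2 * v.om1 * (w.lfk * phu * v.ei)

theorem E0_le {s : ℂ} {v : B1} (G : Geo κ s v) {v2 : B2 v} {b : GB v.q v.x v.h1}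
    {A g ga phu Ei Eh : ℝ} (w : Mid v v2 b A g ga phu Ei Eh) {L1 M2 lf Ex : ℝ}
    (hL1 : 0 ≤ L1) (hM2 : 0 ≤ M2) (h1 : L1 ≤ w.l1) (h2 : L1 + M2 ≤ w.a0)
    (hl1 : w.l1 ≤ 5 / 8) (ha0 : w.a0 ≤ 11 / 32) (hlf0 : 0 ≤ lf) (hEx0 : 0 ≤ Ex)
    (hEi : Ex ≤ Ei) (hEh : (1 + Ex) / 2 ≤ Eh)
    (hlf : v2.rh * lf ≤ v.tu * v.om1 * v2.hm * phu) :
    DlB' v.e κ (Qk κ s) L1 M2 lf Ex ≤ 2 * ‖Qk κ s‖ * E0v w L1 M2 := by
  have htu := G.tu0
  have ha := G.aQ0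
  have hrh := G.rh0 v2
  have hnih := G.nih0 v2
  have he := G.e0
  have hei : 0 < v.ei := by rw [v.e_ei]; positivity
  have heie : v.ei * v.e = 1 := by rw [v.e_ei, inv_mul_cancel₀ he.ne']
  have hQ := G.Qn
  have hk0 := G.k0_le w.e_N1 w.e_s w.e_k0
  have hN := exp_Na' hL1 h1 hl1
  have hNb1 := exp_Nb (z := 2 * L1 + 2 * M2) (by positivity) (by linarith) ha0
  have hNb2 := exp_Nb (z := L1 + 2 * M2) (by positivity) (by linarith) ha0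
  rw [← w.e_Nb] at hNb1 hNb2
  rw [← w.e_Na] at hN
  have hNb0 : 0 ≤ w.Nb := by
    rw [w.e_Nb]
    have : 0 ≤ w.a0 := by linarith
    positivity
  have hrh2 : (1 - Real.exp (-κ)) ^ 2 = v2.rh ^ 2 := by rw [G.rh_eq v2]
  unfold DlB'
  rw [G.Qm1, hQ, hrh2]
  -- term 1
  have t1 : (v.tu * v.om1) ^ 2 * ‖Qk κ s - (Real.exp (-(2 * κ)) : ℂ)‖ ≤
      2 * v.aQ * (v.tu2 * v.om1 ^ 2 * w.bte) := by
    have h3 := mul_le_mul_of_nonneg_left (G.Qm2 v2) (sq_nonneg (v.tu * v.om1))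
    refine h3.trans (le_of_eq ?_)
    rw [w.e_bte, v.e_tu2]
    field_simp
  -- term 2
  have t2 : (Real.exp L1 - 1) * (v.aQ * ‖1 - (2 * (Real.cosh κ : ℂ) - Qk κ s) ^ 2‖) ≤
      2 * v.aQ * (v.tu * (w.k0 * w.Na * L1)) := by
    have h4 : v.aQ * ‖1 - (2 * (Real.cosh κ : ℂ) - Qk κ s) ^ 2‖ ≤ v.aQ * (2 * (v.tu * w.k0)) :=
      mul_le_mul_of_nonneg_left hk0 ha.le
    have h5 : 0 ≤ v.aQ * (2 * (v.tu * w.k0)) :=
      (by positivity : (0:ℝ) ≤ v.aQ * ‖1 - (2 * (Real.cosh κ : ℂ) - Qk κ s) ^ 2‖).trans h4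
    have h6 : 0 ≤ Real.exp L1 - 1 := by
      have := Real.add_one_le_exp L1
      linarith
    calc _ ≤ (Real.exp L1 - 1) * (v.aQ * (2 * (v.tu * w.k0))) := mul_le_mul_of_nonneg_left h4 h6
      _ ≤ (L1 * w.Na) * (v.aQ * (2 * (v.tu * w.k0))) := mul_le_mul_of_nonneg_right hN h5
      _ = _ := by ring
  -- term 3
  obtain ⟨U1, hU1⟩ : ∃ U, U = Ex * (Real.exp (2 * L1 + 2 * M2) - 1) + 2 * lf / v.e * ((1 + Ex) / 2) :=
    ⟨_, rfl⟩
  obtain ⟨U2, hU2⟩ : ∃ U, U = Ex * (Real.exp (L1 + 2 * M2) - 1) + 2 * lf / v.e * ((1 + Ex) / 2) :=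
    ⟨_, rfl⟩
  rw [← hU1, ← hU2]
  have hEi0 : 0 ≤ Ei := hEx0.trans hEi
  have hle : 2 * lf / v.e = 2 * (lf * v.ei) := by rw [v.e_ei]; ring
  have hlei : 0 ≤ lf * v.ei := by positivity
  have hlE : 2 * lf / v.e * ((1 + Ex) / 2) ≤ 2 * (lf * v.ei) * Eh := by
    rw [hle]
    exact mul_le_mul_of_nonneg_left hEh (by positivity)
  have bU1 : U1 ≤ Ei * ((2 * L1 + 2 * M2) * w.Nb) + 2 * (lf * v.ei) * Eh := by
    rw [hU1]
    have h7 : 0 ≤ Real.exp (2 * L1 + 2 * M2) - 1 := by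
      have := Real.add_one_le_exp (2 * L1 + 2 * M2)
      linarith
    have := mul_le_mul hEi hNb1 h7 hEi0
    linarith
  have bU2 : U2 ≤ Ei * ((L1 + 2 * M2) * w.Nb) + 2 * (lf * v.ei) * Eh := by
    rw [hU2]
    have h7 : 0 ≤ Real.exp (L1 + 2 * M2) - 1 := by
      have := Real.add_one_le_exp (L1 + 2 * M2)
      linarith
    have := mul_le_mul hEi hNb2 h7 hEi0
    linarith
  have t3 : v2.rh ^ 2 * v.aQ * (v.aQ * U1 + U2) ≤
      2 * v.aQ * (v.tu * (w.rn * (v.aQ + 1 / 2) * L1 + w.kb * M2) +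
        v.tu2 * v.om1 * (w.lfk * phu * v.ei)) := by
    have h8 : v.aQ * U1 + U2 ≤ Ei * w.Nb * (2 * ((v.aQ + 1 / 2) * L1 + (v.aQ + 1) * M2)) +
        2 * (lf * v.ei) * Eh * (v.aQ + 1) := by
      have := mul_le_mul_of_nonneg_left bU1 ha.le
      nlinarith
    have h9 : 0 ≤ v2.rh ^ 2 * v.aQ := by positivity
    refine (mul_le_mul_of_nonneg_left h8 h9).trans ?_
    -- rh² lf ≤ rh tu om1 hm phu
    have h10 : v2.rh * (v2.rh * lf) ≤ v2.rh * (v.tu * v.om1 * v2.hm * phu) :=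
      mul_le_mul_of_nonneg_left hlf hrh.le
    have h11 : 0 ≤ 2 * v.ei * Eh * (v.aQ + 1) * v.aQ := by
      have : 0 ≤ Eh := by linarith
      positivity
    have h12 := mul_le_mul_of_nonneg_left h10 h11
    have e1 : v2.rh = v.tu * v2.nih := G.rh_tu v2
    have e2 : v2.rh ^ 2 * v.aQ * (Ei * w.Nb * (2 * ((v.aQ + 1 / 2) * L1 + (v.aQ + 1) * M2)) +
        2 * (lf * v.ei) * Eh * (v.aQ + 1)) =
        2 * v.aQ * ((v2.rh * (v2.rh * Ei * w.Nb)) * ((v.aQ + 1 / 2) * L1 + (v.aQ + 1) * M2)) +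
        2 * v.ei * Eh * (v.aQ + 1) * v.aQ * (v2.rh * (v2.rh * lf)) := by ring
    rw [e2]
    have e3 : v2.rh * (v2.rh * Ei * w.Nb) = v.tu * w.rn := by
      rw [w.e_rn]
      nth_rewrite 1 [e1]
      ring
    rw [e3]
    have e4 : 2 * v.ei * Eh * (v.aQ + 1) * v.aQ * (v2.rh * (v.tu * v.om1 * v2.hm * phu)) =
        2 * v.aQ * (v.tu2 * v.om1 * (w.lfk * phu * v.ei)) := by
      rw [w.e_lfk, v.e_tu2, e1]
      ring
    rw [e4] at h12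
    have e5 : v.tu * w.rn * ((v.aQ + 1 / 2) * L1 + (v.aQ + 1) * M2) =
        v.tu * (w.rn * (v.aQ + 1 / 2) * L1 + w.kb * M2) := by
      rw [w.e_kb]; ring
    rw [e5]
    linarith
  have e6 : 2 * v.aQ * E0v w L1 M2 = 2 * v.aQ * (v.tu2 * v.om1 ^ 2 * w.bte) +
      2 * v.aQ * (v.tu * (w.k0 * w.Na * L1)) +
      2 * v.aQ * (v.tu * (w.rn * (v.aQ + 1 / 2) * L1 + w.kb * M2) +
        v.tu2 * v.om1 * (w.lfk * phu * v.ei)) := by
    unfold E0v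
    rw [w.e_ka]
    ring
  rw [e6]
  linarith

end Pool.Agent.helper71.FF
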