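import Pool.Agent.helper71.FF.Base2

/-!
# Far field programs: modes F and C
-/

namespace Pool.Agent.helper71.FF

open Complex ComplexConjugate Pool.Agent.helper31.EQ.Y Pool.Agent.helper31.EQ.R
open Pool.Agent.helper12.EQL Pool.Agent.helper12.RP Pool.Agent.helper12.FF Pool.Agent.helper63.FF

variable {κ : ℝ}

/-- what the bound of `R1 - 1` delivers -/
def RhoB (κ : ℝ) (τ : ℂ) {v : B1} {v2 : B2 v} {b : GB v.q v.x v.h1} {A g ga phu Ei Eh : ℝ}
    (m : Mid v v2 b A g ga phu Ei Eh) (X η fbt FX : ℝ) : Prop :=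
  ∃ ρ1, (∀ τ' : ℂ, 0 < τ'.re → Real.sinh κ * ‖τ' - shf κ τ‖ ≤ η → ‖R1 v.e κ τ τ' - 1‖ ≤ ρ1) ∧
    ρ1 ≤ v.t * fbt * X + FX * (v.t * m.XLt) ∧ 0 ≤ fbt ∧ 0 ≤ FX

theorem lt_aQ {s : ℂ} {v : B1} (G : Geo κ s v) {v2 : B2 v} {b : GB v.q v.x v.h1}
    {A g ga phu Ei Eh : ℝ} (m : Mid v v2 b A g ga phu Ei Eh)
    (hε : 0 ≤ m.eps) (ae2 : 0 < v.aQ - 2 * (v.tu2 * m.eps)) : m.eta < v.aQ := by
  have haQ := G.aQ0
  have heta_e : m.eta = v.tu2 * m.eN := m.e_eta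
  have h0 : 0 ≤ v.tu2 * m.eps := by rw [v.e_tu2]; have := G.tu0; positivity
  have hx : 0 < 1 - v.tu2 * m.eps * v.aQ⁻¹ := by
    have : v.tu2 * m.eps * v.aQ⁻¹ < 1 := by
      rw [← div_eq_mul_inv, div_lt_one haQ]
      linarith
    linarith
  rw [heta_e, m.e_eN, m.e_NN, ← mul_assoc, ← div_eq_mul_inv, div_lt_iff₀ hx]
  have : v.aQ * (1 - v.tu2 * m.eps * v.aQ⁻¹) = v.aQ - v.tu2 * m.eps := by
    field_simp
  rw [this]
  linarith

/-- the bound of `R1 - 1`, mode C -/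
theorem rhoC {τ : ℂ} {v : B1} (G : Geo κ (shf κ τ) v) (hτ0 : 0 < τ.re) {v2 : B2 v}
    {b : GB v.q v.x v.h1} {A g ga phu Ei Eh : ℝ} {m : Mid v v2 b A g ga phu Ei Eh}
    {v3 : B3 v} {b' : GB v.qp v3.xp v3.hp} {v4 : B4 v3 b'} (nx : Nx κ (shf κ τ) v4) {iA : ℝ}
    (c : CC m v4 iA) (hiA : A * iA = 1) {X : ℝ}
    {lf Ex ls n1 L1 M2 E0 η : ℝ} (o : Out κ (shf κ τ) m X lf Ex ls n1 L1 M2 E0 η)
    (ahg : 0 < 1 - m.hg) (arl : 0 < m.rl) (ae2 : 0 < v.aQ - 2 * (v.tu2 * m.eps))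
    (azp : 0 < 1 - c.zp) (arr : 0 < (5 / 8) * 1 - c.rr)
    (hphu : 0 ≤ phu) (hX0 : 0 < X) (hA : 0 < A) (hga0 : 0 ≤ ga) :
    RhoB κ τ m X η c.fbt c.FX := by
  have he := G.e0
  have hκ := G.κ0
  have hs0 := G.s0
  have hR := G.R0
  have hη0 := o.o_η0
  have htu := G.tu0
  have ht := G.t0
  have hu := G.u0
  have hop := G.op0
  have hom1 := G.om1_0
  have haQ := G.aQ0
  have hei : 0 < v.ei := by rw [v.e_ei]; positivity
  have heie : v.ei * v.e = 1 := by rw [v.e_ei, inv_mul_cancel₀ he.ne']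
  have heta_e : m.eta = v.tu2 * m.eN := m.e_eta
  have hηeta : η ≤ m.eta := by rw [heta_e]; exact o.o_ηe
  have heta : m.eta < v.aQ := lt_aQ G m o.o_eps0 ae2
  have hηQ : η < v.aQ := by linarith
  obtain ⟨d, hd0, hd1, hd2, hdi, hyy⟩ := d2_of G m o.o_η0 o.o_ηe arl
  have hga := nx.gap0
  have hd' : 0 ≤ d / (1 - d) := div_nonneg hd0 (by linarith)
  obtain ⟨y, hy⟩ : ∃ y, y = d / (1 - d) * v4.gap := ⟨_, rfl⟩
  have hy0 : 0 ≤ y := by rw [hy]; positivity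
  have hyzp : y ≤ c.zp := by
    rw [hy, c.e_zp]
    exact mul_le_mul_of_nonneg_right hyy hga
  have hy1 : y < 1 := by linarith
  have hq00 : 0 < c.q0 := by
    rw [c.e_q0]
    have : 0 < v.aQ - m.eta := by linarith
    positivity
  have hkz0 : 0 ≤ (1 - (1 / 2) * c.zp) * (1 - c.zp)⁻¹ := by
    have : 0 ≤ 1 - (1 / 2) * c.zp := by linarith
    positivity
  -- the first logarithm
  have hl1 : -Real.log (1 - η / v.aQ) ≤ c.q0 * η := by
    have h1 : 0 < 1 - η / v.aQ := by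
      rw [sub_pos, div_lt_one haQ]; exact hηQ
    have h2 := Real.one_sub_inv_le_log_of_pos h1
    have h3 : (1 - η / v.aQ)⁻¹ - 1 ≤ c.q0 * η := by
      have h4 : (1 - η / v.aQ)⁻¹ - 1 = η / (v.aQ - η) := by
        have : v.aQ - η ≠ 0 := by linarith
        have h1' : 1 - η / v.aQ ≠ 0 := h1.ne'
        field_simp
        ring
      rw [h4, c.e_q0, div_eq_mul_inv, mul_comm]
      apply mul_le_mul_of_nonneg_right _ hη0
      exact inv_anti₀ (by linarith) (by linarith)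
    linarith
  -- the second logarithm
  have hl2 : -Real.log (1 - y) ≤ y * ((1 - (1 / 2) * c.zp) * (1 - c.zp)⁻¹) :=
    log_kz' hy0 hyzp (by linarith)
  have hyb : y ≤ v4.gap * m.irl * v.R⁻¹ * η := by
    rw [hy]
    have := mul_le_mul_of_nonneg_right hdi hga
    linarith
  have hex : v.e * (-Real.log (1 - η / v.aQ)) - Real.log (1 - y) ≤ c.C1 * η := by
    have h1 := mul_le_mul_of_nonneg_left hl1 he.le
    have h2 := mul_le_mul_of_nonneg_right hyb hkz0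
    rw [c.e_C1]
    linarith
  have hC10 : 0 ≤ c.C1 := by
    rw [c.e_C1]
    have hirl : 0 < m.irl := by rw [m.e_irl]; positivity
    positivity
  have hex0 : 0 ≤ c.C1 * η := by positivity
  have hrr : c.C1 * η ≤ c.rr := by
    rw [c.e_rr]; exact mul_le_mul_of_nonneg_left hηeta hC10
  have hexp : Real.exp (v.e * (-Real.log (1 - η / v.aQ)) - Real.log (1 - y)) - 1 ≤
      c.C1 * η * (1 + c.rr * ((1 / 2) + (13 / 64) * c.rr)) := by
    have h1 := Real.exp_le_exp.2 hex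
    have h2 := exp_Na' hex0 hrr (by linarith)
    linarith
  have hrr0 : 0 ≤ c.rr := hex0.trans hrr
  refine ⟨Real.exp (v.e * (-Real.log (1 - η / v.aQ)) - Real.log (1 - y)) - 1, ?_, ?_, ?_, ?_⟩
  · intro τ' h1 h2
    have := rho_O1 he hκ (τ := τ) (z := τ') (η := η) (d := d) (γ := v4.gap)
      hτ0 h1 h2 (by rw [G.Qn]; exact hηQ) hd2 hd1 nx.γ (by rw [← hy]; exact hy1)
    rw [G.Qn, ← hy] at this
    exact this
  · refine hexp.trans ?_
    have h3 : 0 ≤ c.C1 * (1 + c.rr * ((1 / 2) + (13 / 64) * c.rr)) := by positivity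
    have h4 := mul_le_mul_of_nonneg_left o.o_ηV h3
    have e1 : c.C1 * η * (1 + c.rr * ((1 / 2) + (13 / 64) * c.rr)) =
      c.C1 * (1 + c.rr * ((1 / 2) + (13 / 64) * c.rr)) * η := by ring
    rw [e1]
    refine h4.trans (le_of_eq ?_)
    have hop' : v.op1⁻¹ * v.op1 = 1 := inv_mul_cancel₀ hop.ne'
    obtain ⟨S, hS⟩ : ∃ S, S = v.e * v.om1 * m.bte + m.ka * m.lsi + m.lfk * phu := ⟨_, rfl⟩
    obtain ⟨F, hF⟩ : ∃ F, F = m.ka * m.Q1 * m.iX + m.kb * m.Qb * m.iQX := ⟨_, rfl⟩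
    obtain ⟨C', hC'⟩ : ∃ C', C' = c.C1 * (1 + c.rr * ((1 / 2) + (13 / 64) * c.rr)) := ⟨_, rfl⟩
    have hs1 : m.src = S * v.ei := by
      rw [m.e_src, hS]
      linear_combination (-(v.om1 * m.bte)) * heie
    have hf1 : m.fx = F * v.ei := by rw [m.e_fx, hF]
    rw [c.e_FX, m.e_XLt, c.e_fbt, c.e_C, ← hS, ← hF, ← hC', hs1, hf1, v.e_tu2, v.e_tu]
    linear_combination (-(C' * m.NN * v.ei * v.u ^ 2 * v.t ^ 2 * v.om1 * S * (v.op1⁻¹ * v.op1))) * hiA -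
      (C' * m.NN * v.ei * v.u ^ 2 * v.t ^ 2 * v.om1 * S) * hop'
  · rw [c.e_fbt, c.e_C, m.e_Q1]
    have := o.o_ka0
    have := o.o_kb0
    have := o.o_iX0
    have := o.o_iQX0
    have := o.o_NN1
    have := o.o_Qb0
    have : 0 ≤ m.NN := by linarith
    positivity
  · rw [c.e_FX, c.e_C, m.e_lsi]
    have := o.o_ka0
    have := o.o_bte0
    have := o.o_lfk0
    have := o.o_lsf0
    have := o.o_NN1
    have : 0 ≤ m.NN := by linarith
    have hiA0 : 0 < iA := by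
      by_contra hc
      push Not at hc
      nlinarith
    have hh1t : 0 ≤ v.h1t := by
      rw [v.e_h1t, v.e_ioK]
      have := G.cgt
      have := G.K0
      have := G.om0
      positivity
    positivity

/-- the product of the closing -/
theorem Tb_F {s : ℂ} {v : B1} (G : Geo κ s v) {v2 : B2 v}
    {b : GB v.q v.x v.h1} {A g ga phu Ei Eh : ℝ} {m : Mid v v2 b A g ga phu Ei Eh}
    {v3 : B3 v} {b' : GB v.qp v3.xp v3.hp} {v4 : B4 v3 b'} (nx : Nx κ s v4)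
    (hε : 0 ≤ m.eps) (hN : 0 ≤ m.NN) (ae2 : 0 < v.aQ - 2 * (v.tu2 * m.eps)) (arl : 0 < m.rl)
    {fbt FX : ℝ} (f : FinS m v4 fbt FX) (adri : 0 < (1 / 2) - f.dri) :
    Tb m v4 ≤ f.c1 ∧ 0 ≤ f.c1 := by
  have haQ := G.aQ0
  have htu := G.tu0
  have ht := G.t0
  have hop := G.op0
  have heta := lt_aQ G m hε ae2
  have hm0 : 0 < v.m := by rw [G.m_eq]; exact Real.exp_pos _
  have hP := nx.P0
  have heN : 0 ≤ m.eN := by rw [m.e_eN]; positivity
  have hyy : 0 ≤ m.yy := by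
    rw [m.e_yy, m.e_d, m.e_irl]
    positivity
  have hdri : f.dri = m.yy * (v.rp + v4.hgp * (v4.hgp + 1)) := f.e_dri
  have hdri0 : 0 ≤ f.dri := by rw [hdri]; positivity
  have hexp := exp_58 hdri0 (by linarith)
  have hqp := G.qp0
  have hhgp := nx.hgp0
  have hβ : m.beta = 9 * 20⁻¹ := m.e_beta
  have hK := G.K0
  have hh := G.h0
  have hLam : 0 ≤ f.Lam := by rw [f.e_Lam, hβ]; positivity
  have hQp : v.qp * (v4.hgp + 1) * Real.exp (m.yy * (v.rp + v4.hgp * (v4.hgp + 1))) ≤ f.Qp := by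
    rw [f.e_Qp, ← hdri]
    exact mul_le_mul_of_nonneg_left hexp (by positivity)
  have hQe : 0 < v.aQ - m.eta := by linarith
  constructor
  · unfold Tb
    rw [f.e_c1]
    apply mul_le_mul_of_nonneg_right _ (by positivity)
    apply mul_le_mul_of_nonneg_right _ (by positivity)
    apply mul_le_mul_of_nonneg_right _ hm0.le
    have hLe : (1 + (v.h + 1) * (v.K + v.t) * (9 * 20⁻¹))⁻¹ = f.Lam := by rw [f.e_Lam, hβ]
    rw [hLe]
    exact mul_le_mul_of_nonneg_right hQp hLam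
  · rw [f.e_c1, f.e_Qp]
    positivity

end Pool.Agent.helper71.FF
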