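import Pool.Agent.helper71.FF.Fin

/-!
# Far field programs: the point theorem
-/

namespace Pool.Agent.helper71.FF

open Complex ComplexConjugate Pool.Agent.helper31.EQ.Y Pool.Agent.helper31.EQ.R
open Pool.Agent.helper12.EQL Pool.Agent.helper12.RP Pool.Agent.helper12.FF Pool.Agent.helper63.FF

variable {κ : ℝ}

/-- the common assertions -/
structure Asr {v : B1} {v2 : B2 v} {v3 : B3 v} {b : GB v.q v.x v.h1}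
    {b' : GB v.qp v3.xp v3.hp} {A g ga phu Ei Eh : ℝ}
    (m : Mid v v2 b A g ga phu Ei Eh) (v4 : B4 v3 b') : Prop where
  o2 : 0 < b.o2
  W : 0 < b.W
  o2p : 0 < b'.o2
  Wp : 0 < b'.W
  XM : 0 < 1 - m.XM
  QX : 0 < 1 - m.QX
  e2 : 0 < v.aQ - 2 * (v.tu2 * m.eps)
  rl : 0 < m.rl
  hg : 0 < 1 - m.hg
  hgp : 0 < (1 / 2) - v4.hgp
  l1 : 0 < (5 / 8) * 1 - m.l1
  a0 : 0 < (11 / 32) * 1 - m.a0
  S : 0 < v.op1 - v.tu * m.eN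
  V : 0 < m.V

/-- the bound of `log f` -/
structure PhiB (κ : ℝ) (s : ℂ) (v : B1) (v2 : B2 v) (phu Ei Eh lf Ex : ℝ) : Prop where
  lf0 : ‖log (fT v.e κ s) - log (fT v.e κ 1)‖ ≤ lf
  Ex0 : ‖exp (2 * ((log (fT v.e κ 1) - log (fT v.e κ s)) / v.e))‖ ≤ Ex
  Ei0 : Ex ≤ Ei
  Eh0 : (1 + Ex) / 2 ≤ Eh
  phu0 : 0 ≤ phu
  lf1 : v2.rh * lf ≤ v.tu * v.om1 * v2.hm * phu

/-- what is known of the point -/
structure PtD (κ : ℝ) (τ : ℂ) (R w : ℝ) : Prop where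
  R0 : 0 < R
  R1 : R ≤ Real.exp (-(2 * κ * (49 / 10)))
  R2 : Real.exp (2 * κ) * R < 1
  τ0 : ‖τ - 1‖ < Real.exp (2 * κ) * R * ‖τ + 1‖
  w : w = (1 + (9 / 10) * (Real.exp κ - 1))⁻¹

/-- what the next set must contain -/
def HE (κ : ℝ) (τ : ℂ) {v : B1} {v2 : B2 v} {b : GB v.q v.x v.h1} {A g ga phu Ei Eh : ℝ}
    (m : Mid v v2 b A g ga phu Ei Eh) (R : ℝ) (E : Set ℂ) : Prop :=
  ∀ η : ℝ, η ≤ m.eta → η ≤ m.NN * (v.tu2 * v.om1 * m.src + v.tu * m.fx *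
    (2 * A * Real.sinh κ ^ 2 * R / (1 - R) * ‖shf κ τ + 1‖)) →
    ∀ τ' : ℂ, 0 < τ'.re → Real.sinh κ * ‖τ' - shf κ τ‖ ≤ η → τ' ∈ E

theorem far_fin {τ : ℂ} {v : B1} (G : Geo κ (shf κ τ) v) {v2 : B2 v} {b : GB v.q v.x v.h1}
    {A g ga phu Ei Eh : ℝ} {m : Mid v v2 b A g ga phu Ei Eh}
    {v3 : B3 v} {b' : GB v.qp v3.xp v3.hp} {v4 : B4 v3 b'} (a : Asr m v4) (nx : Nx κ (shf κ τ) v4)
    {R w : ℝ} {E : Set ℂ} (D : PtD κ τ R w) (hA : 0 < A)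
    (hgR : gR v.e κ (shf κ τ) ≤ g) (hga : ga = g * (g + (1 / 2))⁻¹)
    {lf Ex : ℝ} (hφ : PhiB κ (shf κ τ) v v2 phu Ei Eh lf Ex)
    (hE : HE κ τ m R E) {fbt FX c1 fb r Bm : ℝ}
    (hρ : ∀ X ls n1 L1 M2 E0 η, 0 < X → Out κ (shf κ τ) m X lf Ex ls n1 L1 M2 E0 η →
      RhoB κ τ m X η fbt FX)
    (hT : ∀ X ls n1 L1 M2 E0 η, Out κ (shf κ τ) m X lf Ex ls n1 L1 M2 E0 η → Tb m v4 ≤ c1)
    (hfb : fb = v.t * fbt) (hr : r = fb * m.XM + FX * (v.t * m.XLt))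
    (hBm : fb + FX + c1 * (1 + r) = 1 - Bm) (aB : v.t * (1 / 1024) < Bm) :
    FarPt v.e κ (1 - Real.sinh κ / 1024) w (2 * A * Real.sinh κ ^ 2) R E τ := by
  have he := G.e0
  have hκ := G.κ0
  have ht := G.t0
  have hs0 := G.s0
  obtain ⟨hX0, hX1, -⟩ := G.X_le v2 hA D.R0 D.R1 rfl
  have hXM : 2 * A * Real.sinh κ ^ 2 * R / (1 - R) * ‖shf κ τ + 1‖ ≤ m.XM := by
    rw [m.e_XM, m.e_Xe]
    exact hX1
  obtain ⟨ls, n1, L1, M2, E0, η, o⟩ := mid_out G m hA a.o2 a.W hgR hga a.XM a.QX a.e2 a.hg a.l1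
    a.a0 hφ.lf0 hφ.Ex0 hφ.Ei0 hφ.Eh0 hφ.phu0 hφ.lf1 hX0 hXM
  obtain ⟨ρ1, hρ0, hρ1, hfbt, hFX⟩ := hρ _ ls n1 L1 M2 E0 η hX0 o
  have hTT := hT _ ls n1 L1 M2 E0 η o
  have hηe : η ≤ m.eta := by rw [m.e_eta]; exact o.o_ηe
  refine far_close G nx hA D.R0 D.R1 D.R2 D.τ0 rfl D.w o a.S a.rl a.e2 a.V hXM
    (fun τ' h1 h2 => hE η hηe o.o_ηV τ' h1 h2) hρ0 (fb := fb) (FX := FX) (r := r) ?_ hTT ?_ hFX
    hr ?_
  · rw [hfb]; exact hρ1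
  · rw [hfb]; positivity
  · rw [hBm]
    have h1 := G.K_le_t
    rw [G.K] at h1
    linarith

/-- modes F and C -/
theorem far_F {τ : ℂ} {v : B1} (G : Geo κ (shf κ τ) v) {v2 : B2 v} {b : GB v.q v.x v.h1}
    {A g ga phu Ei Eh : ℝ} {m : Mid v v2 b A g ga phu Ei Eh}
    {v3 : B3 v} {b' : GB v.qp v3.xp v3.hp} {v4 : B4 v3 b'} (a : Asr m v4)
    {R w : ℝ} {E : Set ℂ} (D : PtD κ τ R w) (hA : 0 < A) {iA : ℝ} (hiA : A * iA = 1)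
    (hg : g = (1 / 2) * ((1 - v.q) * b.q1 * b.W⁻¹)) (hga : ga = g * (g + (1 / 2))⁻¹)
    {lf Ex : ℝ} (hφ : PhiB κ (shf κ τ) v v2 phu Ei Eh lf Ex)
    (hE : HE κ τ m R E) (c : CF m iA) (f : FinS m v4 c.fbt c.FX)
    (adri : 0 < (1 / 2) - f.dri) (ad : 0 < 1 - m.d) (aden : 0 < c.den)
    (adP : 0 < (5 / 8) * 1 - c.dP) (aB : 0 < f.Bm - (1 / 1024) * v.t) :
    FarPt v.e κ (1 - Real.sinh κ / 1024) w (2 * A * Real.sinh κ ^ 2) R E τ := by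
  have he := G.e0
  have hκ := G.κ0
  have hs0 := G.s0
  obtain ⟨hτ0, -⟩ := reg_s hκ D.R2.le D.τ0
  have nx := nx_of G v4 a.o2p a.Wp a.hgp
  obtain ⟨hgb, -⟩ := gb_le he hκ hs0 b G.q_eq G.argx G.h1_eq G.q_lt a.o2 a.W
  have hgR : gR v.e κ (shf κ τ) ≤ g := by rw [hg]; exact hgb
  have hg0 : 0 < g := lt_of_lt_of_le (gR_pos he hκ hs0) hgR
  refine far_fin G a nx D hA hgR hga hφ hE (fbt := c.fbt) (FX := c.FX) (c1 := f.c1) (fb := f.fb)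
    (r := f.r) (Bm := f.Bm) ?_ ?_ f.e_fb f.e_r ?_ ?_
  · intro X ls n1 L1 M2 E0 η hX0 o
    exact rhoF G hτ0 c hiA o a.hg ad aden adP hφ.phu0 hX0 hA hg0
  · intro X ls n1 L1 M2 E0 η o
    exact (Tb_F G nx o.o_eps0 (by linarith [o.o_NN1]) a.e2 a.rl f adri).1
  · rw [f.e_Bm]; ring
  · linarith

theorem far_C {τ : ℂ} {v : B1} (G : Geo κ (shf κ τ) v) {v2 : B2 v} {b : GB v.q v.x v.h1}
    {A g ga phu Ei Eh : ℝ} {m : Mid v v2 b A g ga phu Ei Eh}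
    {v3 : B3 v} {b' : GB v.qp v3.xp v3.hp} {v4 : B4 v3 b'} (a : Asr m v4)
    {R w : ℝ} {E : Set ℂ} (D : PtD κ τ R w) (hA : 0 < A) {iA : ℝ} (hiA : A * iA = 1)
    (hg : g = (1 / 2) * ((1 - v.q) * b.q1 * b.W⁻¹)) (hga : ga = g * (g + (1 / 2))⁻¹)
    {lf Ex : ℝ} (hφ : PhiB κ (shf κ τ) v v2 phu Ei Eh lf Ex)
    (hE : HE κ τ m R E) (c : CC m v4 iA) (f : FinS m v4 c.fbt c.FX)
    (adri : 0 < (1 / 2) - f.dri) (azp : 0 < 1 - c.zp)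
    (arr : 0 < (5 / 8) * 1 - c.rr) (aB : 0 < f.Bm - (1 / 1024) * v.t) :
    FarPt v.e κ (1 - Real.sinh κ / 1024) w (2 * A * Real.sinh κ ^ 2) R E τ := by
  have he := G.e0
  have hκ := G.κ0
  have hs0 := G.s0
  obtain ⟨hτ0, -⟩ := reg_s hκ D.R2.le D.τ0
  have nx := nx_of G v4 a.o2p a.Wp a.hgp
  obtain ⟨hgb, -⟩ := gb_le he hκ hs0 b G.q_eq G.argx G.h1_eq G.q_lt a.o2 a.W
  have hgR : gR v.e κ (shf κ τ) ≤ g := by rw [hg]; exact hgb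
  have hg0 : 0 < g := lt_of_lt_of_le (gR_pos he hκ hs0) hgR
  have hga0 : 0 ≤ ga := by rw [hga]; positivity
  refine far_fin G a nx D hA hgR hga hφ hE (fbt := c.fbt) (FX := c.FX) (c1 := f.c1) (fb := f.fb)
    (r := f.r) (Bm := f.Bm) ?_ ?_ f.e_fb f.e_r ?_ ?_
  · intro X ls n1 L1 M2 E0 η hX0 o
    exact rhoC G hτ0 nx c hiA o a.hg a.rl a.e2 azp arr hφ.phu0 hX0 hA hga0
  · intro X ls n1 L1 M2 E0 η o
    exact (Tb_F G nx o.o_eps0 (by linarith [o.o_NN1]) a.e2 a.rl f adri).1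
  · rw [f.e_Bm]; ring
  · linarith

end Pool.Agent.helper71.FF
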