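import Pool.Agent.helper71.FF.Geo2
import Pool.Agent.helper63.FF.Nums

/-!
# Far field programs: the block of `γ`
-/

namespace Pool.Agent.helper71.FF

open Complex ComplexConjugate Pool.Agent.helper31.EQ.Y Pool.Agent.helper31.EQ.R
open Pool.Agent.helper12.EQL Pool.Agent.helper12.RP Pool.Agent.helper12.FF

variable {e κ : ℝ}

private theorem mono_zero {f f' : ℝ → ℝ} (hf : ∀ x, HasDerivAt f (f' x) x)
    (h0 : 0 ≤ f 0) (h : ∀ x, 0 ≤ x → 0 ≤ f' x) {x : ℝ} (hx : 0 ≤ x) : 0 ≤ f x := by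
  have hm : MonotoneOn f (Set.Ici 0) := by
    apply monotoneOn_of_deriv_nonneg (convex_Ici 0)
    · exact fun y _ => (hf y).continuousAt.continuousWithinAt
    · exact fun y _ => (hf y).differentiableAt.differentiableWithinAt
    · intro y hy
      rw [interior_Ici] at hy
      rw [(hf y).deriv]
      exact h y (le_of_lt hy)
  exact h0.trans (hm (Set.mem_Ici.2 le_rfl) (Set.mem_Ici.2 hx) hx)

theorem sin_le_self {x : ℝ} (hx : 0 ≤ x) : 0 ≤ x - Real.sin x :=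
  mono_zero (f := fun x => x - Real.sin x) (f' := fun x => 1 - Real.cos x)
    (fun x => (hasDerivAt_id x).sub (Real.hasDerivAt_sin x)) (by simp)
    (fun x _ => by have := Real.cos_le_one x; linarith) hx

theorem cos_ge2 {x : ℝ} (hx : 0 ≤ x) : 0 ≤ Real.cos x - (1 - x ^ 2 / 2) :=
  mono_zero (f := fun x => Real.cos x - (1 - x ^ 2 / 2)) (f' := fun x => -Real.sin x + x)
    (fun x => by
      have h := (Real.hasDerivAt_cos x).sub (((hasDerivAt_pow 2 x).div_const 2).const_sub 1)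
      refine h.congr_deriv ?_
      push_cast
      ring) (by simp)
    (fun x hx => by have := sin_le_self hx; linarith) hx

theorem sin_ge3 {x : ℝ} (hx : 0 ≤ x) : 0 ≤ Real.sin x - (x - x ^ 3 / 6) :=
  mono_zero (f := fun x => Real.sin x - (x - x ^ 3 / 6)) (f' := fun x => Real.cos x - (1 - x ^ 2 / 2))
    (fun x => by
      have h := (Real.hasDerivAt_sin x).sub ((hasDerivAt_id x).sub ((hasDerivAt_pow 3 x).div_const 6))
      refine h.congr_deriv ?_
      push_cast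
      ring) (by simp)
    (fun x hx => cos_ge2 hx) hx

theorem cos_le4 {x : ℝ} (hx : 0 ≤ x) : 0 ≤ (1 - x ^ 2 / 2 + x ^ 4 / 24) - Real.cos x :=
  mono_zero (f := fun x => (1 - x ^ 2 / 2 + x ^ 4 / 24) - Real.cos x)
    (f' := fun x => Real.sin x - (x - x ^ 3 / 6))
    (fun x => by
      have h := (((((hasDerivAt_pow 2 x).div_const 2).const_sub 1).add
        ((hasDerivAt_pow 4 x).div_const 24))).sub (Real.hasDerivAt_cos x)
      refine h.congr_deriv ?_
      push_cast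
      ring) (by simp)
    (fun x hx => sin_ge3 hx) hx

theorem sin_le5 {x : ℝ} (hx : 0 ≤ x) : 0 ≤ (x - x ^ 3 / 6 + x ^ 5 / 120) - Real.sin x :=
  mono_zero (f := fun x => (x - x ^ 3 / 6 + x ^ 5 / 120) - Real.sin x)
    (f' := fun x => (1 - x ^ 2 / 2 + x ^ 4 / 24) - Real.cos x)
    (fun x => by
      have h := ((((hasDerivAt_id x).sub ((hasDerivAt_pow 3 x).div_const 6)).add
        ((hasDerivAt_pow 5 x).div_const 120))).sub (Real.hasDerivAt_sin x)
      refine h.congr_deriv ?_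
      push_cast
      ring) (by simp)
    (fun x hx => cos_le4 hx) hx

theorem cos_ge6 {x : ℝ} (hx : 0 ≤ x) :
    0 ≤ Real.cos x - (1 - x ^ 2 / 2 + x ^ 4 / 24 - x ^ 6 / 720) :=
  mono_zero (f := fun x => Real.cos x - (1 - x ^ 2 / 2 + x ^ 4 / 24 - x ^ 6 / 720))
    (f' := fun x => (x - x ^ 3 / 6 + x ^ 5 / 120) - Real.sin x)
    (fun x => by
      have h := (Real.hasDerivAt_cos x).sub ((((((hasDerivAt_pow 2 x).div_const 2).const_sub 1).add
        ((hasDerivAt_pow 4 x).div_const 24))).sub ((hasDerivAt_pow 6 x).div_const 720))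
      refine h.congr_deriv ?_
      push_cast
      ring) (by simp)
    (fun x hx => sin_le5 hx) hx

/-- lower bound of the cosine for `α² ≤ x` -/
theorem cos_ge_cc {α x : ℝ} (h : α ^ 2 ≤ x) :
    1 - x * ((1 / 2) - x * ((21845 / 524288) - (11651 / 8388608) * x)) ≤ Real.cos α := by
  have h1 := cos_ge6 (abs_nonneg α)
  rw [Real.cos_abs] at h1
  have e1 : |α| ^ 2 = α ^ 2 := sq_abs α
  have e2 : |α| ^ 4 = (α ^ 2) ^ 2 := by rw [← e1]; ring
  have e3 : |α| ^ 6 = (α ^ 2) ^ 3 := by rw [← e1]; ring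
  rw [e1, e2, e3] at h1
  obtain ⟨y, hy⟩ : ∃ y, y = α ^ 2 := ⟨_, rfl⟩
  rw [← hy] at h1 h
  have hy0 : 0 ≤ y := by rw [hy]; positivity
  have h2 : 1 - y * ((1 / 2) - y * ((21845 / 524288) - (11651 / 8388608) * y)) ≤
      1 - y / 2 + y ^ 2 / 24 - y ^ 3 / 720 := by
    nlinarith [pow_nonneg hy0 2, pow_nonneg hy0 3]
  have h3 : 1 - x * ((1 / 2) - x * ((21845 / 524288) - (11651 / 8388608) * x)) ≤
      1 - y * ((1 / 2) - y * ((21845 / 524288) - (11651 / 8388608) * y)) := by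
    -- difference (x - y) (1/2 - C24 (x+y) + C720 (x² + xy + y²)) ≥ 0
    have e4 : (1 - y * ((1 / 2) - y * ((21845 / 524288) - (11651 / 8388608) * y))) -
        (1 - x * ((1 / 2) - x * ((21845 / 524288) - (11651 / 8388608) * x))) =
        (x - y) * ((1 / 2) - (21845 / 524288) * (x + y) +
          (11651 / 8388608) * (x ^ 2 + x * y + y ^ 2)) := by ring
    have h5 : 0 ≤ (1 / 2) - (21845 / 524288) * (x + y) +
          (11651 / 8388608) * (x ^ 2 + x * y + y ^ 2) := by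
      nlinarith [sq_nonneg (x - y), sq_nonneg (x + y - 20)]
    have h6 := mul_nonneg (by linarith : 0 ≤ x - y) h5
    linarith
  linarith

/-- `oo² = 1 + q² + 2 q cos (e arg Q)` -/
theorem oo_sq (hκ : 0 < κ) {z : ℂ} (hz : 0 < z.re) :
    oo e κ z ^ 2 = 1 + qa e κ z ^ 2 + 2 * qa e κ z * Real.cos (e * (Qk κ z).arg) := by
  have h0 := Qk_ne hκ hz
  have h1 : Qk κ z ^ (-(e : ℂ)) = (qa e κ z : ℂ) * exp (((-(e * (Qk κ z).arg) : ℝ) : ℂ) * I) := by
    unfold qa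
    rw [Complex.norm_cpow_of_ne_zero h0]
    have h1 : (-(e : ℂ)).re = -e := by simp
    have h2 : (-(e : ℂ)).im = 0 := by simp
    rw [h1, h2, mul_zero, Real.exp_zero, div_one, cpow_def_of_ne_zero h0,
      Real.rpow_def_of_pos (norm_pos_iff.2 h0)]
    push_cast
    rw [← Complex.exp_add]
    congr 1
    have h3 : log (Qk κ z) = (Real.log ‖Qk κ z‖ : ℂ) + (Qk κ z).arg * I := by
      rw [Complex.log]
    rw [h3]
    ring
  unfold oo
  rw [h1, ← Complex.normSq_eq_norm_sq, Complex.normSq_apply]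
  have h2 : (1 + (qa e κ z : ℂ) * exp (((-(e * (Qk κ z).arg) : ℝ) : ℂ) * I)).re =
      1 + qa e κ z * Real.cos (e * (Qk κ z).arg) := by
    rw [add_re, one_re, re_ofReal_mul, exp_ofReal_mul_I_re, Real.cos_neg]
  have h3 : (1 + (qa e κ z : ℂ) * exp (((-(e * (Qk κ z).arg) : ℝ) : ℂ) * I)).im =
      -(qa e κ z * Real.sin (e * (Qk κ z).arg)) := by
    rw [add_im, one_im, im_ofReal_mul, exp_ofReal_mul_I_im, Real.sin_neg]
    ring
  rw [h2, h3]
  have := Real.sin_sq_add_cos_sq (e * (Qk κ z).arg)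
  linear_combination (qa e κ z ^ 2) * this

/-- **The block of `γ`** -/
theorem gb_le (he : 0 < e) (hκ : 0 < κ) {z : ℂ} (hz : 0 < z.re) {q x hh : ℝ} (b : GB q x hh)
    (hq : qa e κ z = q) (hx : (e * (Qk κ z).arg) ^ 2 ≤ x) (hh1 : h1 κ z = hh)
    (hq1 : q < 1) (ho2 : 0 < b.o2) (hW : 0 < b.W) :
    gR e κ z ≤ (1 / 2) * ((1 - q) * b.q1 * b.W⁻¹) ∧
      ∀ g, gR e κ z ≤ g → ‖fT e κ z‖ ≤ (b.qh * g + (1 / 2)) * b.P1 * b.o2⁻¹ := by
  have hq0 : 0 ≤ q := by rw [← hq]; exact qa_nonneg z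
  have hh0 : 0 ≤ hh := by rw [← hh1]; exact h1_nonneg hκ hz
  have hO := oo_sq (e := e) hκ hz
  rw [hq] at hO
  have hcc := cos_ge_cc hx
  have hq1' : 0 < b.q1 := by rw [b.e_q1]; linarith
  have h1 : b.o2 ≤ oo e κ z ^ 2 := by
    rw [hO, b.e_o2, b.e_cc]
    nlinarith [mul_le_mul_of_nonneg_left hcc hq0]
  obtain ⟨o, ho⟩ : ∃ o, o = oo e κ z := ⟨_, rfl⟩
  have ho0 : 0 ≤ o := by rw [ho]; exact norm_nonneg _
  rw [← ho] at h1
  have hop : 0 < o := by
    rcases ho0.lt_or_eq with h | h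
    · exact h
    · rw [← h] at h1; nlinarith
  -- AM-GM
  have hAM : 2 * o * b.q1 ≤ o ^ 2 + b.q1 ^ 2 := by nlinarith [sq_nonneg (o - b.q1)]
  have hqh : 0 ≤ b.qh := by rw [b.e_qh]; positivity
  have hP1 : b.P1 * b.q1 = b.o2 + b.q1 ^ 2 := by
    rw [b.e_P1, add_mul, mul_assoc, inv_mul_cancel₀ hq1'.ne']; ring
  have hP1' : 0 < b.P1 := by
    by_contra h
    push Not at h
    nlinarith [mul_nonpos_of_nonpos_of_nonneg h hq1'.le, sq_nonneg b.q1]
  have hW' := b.e_W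
  -- 1 - qh/q1 > 0
  have hk : b.qh < b.q1 := by
    by_contra h
    push Not at h
    have h2 : b.q1 * b.P1 ≤ b.qh * b.P1 := mul_le_mul_of_nonneg_right h hP1'.le
    have h3 : b.q1 * b.P1 = b.o2 + b.q1 ^ 2 := by rw [mul_comm]; exact hP1
    nlinarith [sq_nonneg b.q1]
  -- lower bound of o (o - q h)
  have key : b.W ≤ o * (o - q * hh) := by
    have e1 : q * hh = 2 * b.qh := by rw [b.e_qh]; ring
    rw [e1, hW']
    -- o² - 2 qh o ≥ o² - qh (o²/q1 + q1) ≥ o2 - qh P1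
    have h5 : b.q1 * (b.o2 - b.qh * b.P1) ≤ b.q1 * (o * (o - 2 * b.qh)) := by
      have e2 : b.q1 * (b.o2 - b.qh * b.P1) = b.q1 * b.o2 - b.qh * (b.P1 * b.q1) := by ring
      rw [e2, hP1]
      nlinarith [mul_le_mul_of_nonneg_left hAM hqh, mul_nonneg (sub_nonneg.2 hk.le) (sub_nonneg.2 h1)]
    exact le_of_mul_le_mul_left h5 hq1'
  have hlt : q * hh < o := by
    have h6 : 0 < o * (o - q * hh) := lt_of_lt_of_le hW key
    have := (mul_pos_iff_of_pos_left hop).1 h6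
    linarith
  have hH := H2 he hκ hz (by rw [hq, hh1, ← ho]; exact hlt)
  rw [hq, hh1, ← ho] at hH
  obtain ⟨hg1, hg2⟩ := hH
  refine ⟨hg1.trans ?_, fun g hg => hg2.trans ?_⟩
  · have e3 : (1 - q ^ 2) / (2 * o * (o - q * hh)) = (1 / 2) * ((1 - q) * b.q1 * (o * (o - q * hh))⁻¹) := by
      rw [b.e_q1, div_eq_mul_inv, mul_assoc 2 o, mul_inv]
      ring
    rw [e3]
    have h7 : (o * (o - q * hh))⁻¹ ≤ b.W⁻¹ := inv_anti₀ hW key
    have h8 : 0 ≤ (1 - q) * b.q1 := mul_nonneg (by linarith) hq1'.le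
    have := mul_le_mul_of_nonneg_left h7 h8
    linarith
  · have hg0 := (gR_pos he hκ hz).le
    have h9 : 1 + q * hh * gR e κ z ≤ 2 * (b.qh * g + 1 / 2) := by
      have e4 : q * hh = 2 * b.qh := by rw [b.e_qh]; ring
      rw [e4]
      nlinarith [mul_le_mul_of_nonneg_left hg hqh]
    have h10 : 0 ≤ 1 + q * hh * gR e κ z := by positivity
    rw [div_le_iff₀ hop]
    -- 1 ≤ P1 o /(2 o2)
    have h11 : 2 * b.o2 ≤ b.P1 * o := by
      -- P1 q1 = o2 + q1² ≥ ...; (o2 + q1²) o ≥ 2 o2 q1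
      have h12 : b.q1 * (2 * b.o2) ≤ b.q1 * (b.P1 * o) := by
        have e5 : b.q1 * (b.P1 * o) = (b.P1 * b.q1) * o := by ring
        rw [e5, hP1]
        have h13 : Real.sqrt b.o2 ≤ o := Real.sqrt_le_iff.2 ⟨ho0, h1⟩
        have h14 : Real.sqrt b.o2 ^ 2 = b.o2 := Real.sq_sqrt ho2.le
        have h15 : 0 < Real.sqrt b.o2 := Real.sqrt_pos.2 ho2
        obtain ⟨w, hw⟩ : ∃ w, w = Real.sqrt b.o2 := ⟨_, rfl⟩
        rw [← hw] at h13 h14 h15
        rw [← h14]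
        have h16 : (w ^ 2 + b.q1 ^ 2) * w ≤ (w ^ 2 + b.q1 ^ 2) * o :=
          mul_le_mul_of_nonneg_left h13 (by positivity)
        nlinarith [mul_nonneg h15.le (sq_nonneg (w - b.q1))]
      exact le_of_mul_le_mul_left h12 hq1'
    have h17 : 1 ≤ b.P1 * b.o2⁻¹ * o / 2 := by
      rw [le_div_iff₀ (by norm_num), one_mul]
      have : b.P1 * b.o2⁻¹ * o = b.P1 * o / b.o2 := by field_simp
      rw [this, le_div_iff₀ ho2]
      linarith
    have h18 : (b.qh * g + 1 / 2) * b.P1 * b.o2⁻¹ * o =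
        2 * (b.qh * g + 1 / 2) * (b.P1 * b.o2⁻¹ * o / 2) := by ring
    rw [h18]
    have h19 : 0 ≤ 2 * (b.qh * g + 1 / 2) := h10.trans h9
    calc 1 + q * hh * gR e κ z ≤ 2 * (b.qh * g + 1 / 2) * 1 := by linarith
      _ ≤ _ := mul_le_mul_of_nonneg_left h17 h19

end Pool.Agent.helper71.FF
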