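import Pool.Agent.helper12.FF.Harn2
import Pool.Agent.helper71.FF.Base

/-!
# Far field programs: geometry of a point
-/

namespace Pool.Agent.helper71.FF

open Complex ComplexConjugate Pool.Agent.helper31.EQ.Y Pool.Agent.helper31.EQ.R
open Pool.Agent.helper12.EQL Pool.Agent.helper12.RP Pool.Agent.helper12.FF

variable {κ : ℝ}

/-- `(|s+1|+|s-1|)/2` -/
noncomputable def sa (s : ℂ) : ℝ := (‖s + 1‖ + ‖s - 1‖) / 2

/-- `(|s+1|-|s-1|)/2` -/
noncomputable def su (s : ℂ) : ℝ := (‖s + 1‖ - ‖s - 1‖) / 2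

theorem sa_su (s : ℂ) : sa s * su s = s.re := by
  have h1 := Pool.Agent.helper12.FF.sub_sq s
  have h2 := Pool.Agent.helper12.FF.add_sq' s
  unfold sa su
  linarith

theorem sa_sq (s : ℂ) : sa s ^ 2 + su s ^ 2 = ‖s‖ ^ 2 + 1 := by
  have h1 := Pool.Agent.helper12.FF.sub_sq s
  have h2 := Pool.Agent.helper12.FF.add_sq' s
  unfold sa su
  linarith

theorem one_le_sa (s : ℂ) : 1 ≤ sa s := by
  have h := norm_sub_le (s + 1) (s - 1)
  have e1 : s + 1 - (s - 1) = 2 := by ring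
  rw [e1, Complex.norm_ofNat] at h
  unfold sa
  linarith

theorem su_le (s : ℂ) : su s ≤ 1 := by
  have h := norm_sub_norm_le (s + 1) (s - 1)
  have e1 : s + 1 - (s - 1) = 2 := by ring
  rw [e1, Complex.norm_ofNat] at h
  unfold su
  linarith

theorem su_pos {s : ℂ} (hs : 0 < s.re) : 0 < su s := by
  have := (rt_aux hs).2
  unfold su
  linarith

theorem im_sq (s : ℂ) : s.im ^ 2 = (sa s ^ 2 - 1) * (1 - su s ^ 2) := by
  have h1 := sa_su s
  have h2 := sa_sq s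
  have h3 : ‖s‖ ^ 2 = s.re ^ 2 + s.im ^ 2 := by
    rw [← Complex.normSq_eq_norm_sq, Complex.normSq_apply]
    ring
  have h4 : s.re ^ 2 = sa s ^ 2 * su s ^ 2 := by rw [← h1]; ring
  linarith

theorem tanh_half (κ : ℝ) : Real.sinh κ * (1 - Real.tanh (κ / 2) ^ 2) = 2 * Real.tanh (κ / 2) ∧
    Real.cosh κ * (1 - Real.tanh (κ / 2) ^ 2) = 1 + Real.tanh (κ / 2) ^ 2 := by
  have h1 := Real.sinh_two_mul (κ / 2)
  have h2 := Real.cosh_two_mul (κ / 2)
  have h3 := Real.cosh_pos (κ / 2)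
  have h4 := Real.cosh_sq (κ / 2)
  have e1 : 2 * (κ / 2) = κ := by ring
  rw [e1] at h1 h2
  rw [h1, h2, Real.tanh_eq_sinh_div_cosh]
  have hc : Real.cosh (κ / 2) ≠ 0 := h3.ne'
  have e2 : 1 - (Real.sinh (κ / 2) / Real.cosh (κ / 2)) ^ 2 = 1 / Real.cosh (κ / 2) ^ 2 := by
    field_simp
    linarith
  have e3 : 1 + (Real.sinh (κ / 2) / Real.cosh (κ / 2)) ^ 2 =
      (Real.cosh (κ / 2) ^ 2 + Real.sinh (κ / 2) ^ 2) / Real.cosh (κ / 2) ^ 2 := by
    field_simp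
  rw [e2, e3]
  constructor
  · field_simp
  · field_simp

/-- the point `s` has the parameters `t, u, n` -/
structure Geo (κ : ℝ) (s : ℂ) (v : B1) : Prop where
  e0 : 0 < v.e
  κ0 : 0 < κ
  s0 : 0 < s.re
  t0 : 0 < v.t
  u0 : 0 < v.u
  u1 : v.u ≤ 1
  n0 : 0 < v.n
  h0 : 0 < v.h
  hlt : v.h < 1
  h : v.h = Real.tanh (κ / 2)
  K : v.K = Real.sinh κ
  c0 : v.c0 = Real.cosh κ
  nj0 : 0 < v.nj
  nj1 : v.nj ≤ 1
  tu : v.tu = Real.sinh κ * sa s
  nja : v.nj * sa s = 1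
  omu : v.om * sa s = su s
  u : v.u = su s

/-- the parameters of a point -/
theorem geo_of (hκ : 0 < κ) {s : ℂ} (hs : 0 < s.re) (v : B1) (he : 0 < v.e)
    (ht : v.t = Real.sinh κ * sa s / su s) (hu : v.u = su s)
    (hn : v.n = (1 - Real.tanh (κ / 2) ^ 2) / sa s) : Geo κ s v := by
  have hK : 0 < Real.sinh κ := Real.sinh_pos_iff.2 hκ
  have ha := one_le_sa s
  have ha0 : 0 < sa s := by linarith
  have hu0 := su_pos hs
  have hu1 := su_le s
  have hT0 : 0 < Real.tanh (κ / 2) := tanh_pos' (by linarith)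
  have hT1 : Real.tanh (κ / 2) < 1 := Real.tanh_lt_one _
  have hj0 : 0 < 1 - Real.tanh (κ / 2) ^ 2 := by nlinarith
  obtain ⟨g1, g2⟩ := tanh_half κ
  have htu : v.tu = Real.sinh κ * sa s := by
    rw [v.e_tu, ht, hu]
    field_simp
  have hh : v.h = Real.tanh (κ / 2) := by
    rw [v.e_h, htu, hn]
    field_simp
    linarith
  have hjm : v.jm = 1 - Real.tanh (κ / 2) ^ 2 := by rw [v.e_jm, hh]; ring
  have hj : v.j * (1 - Real.tanh (κ / 2) ^ 2) = 1 := by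
    rw [v.e_j, hjm, inv_mul_cancel₀ hj0.ne']
  have hKv : v.K = Real.sinh κ := by
    rw [v.e_K, hh]
    apply mul_right_cancel₀ hj0.ne'
    rw [g1]
    linear_combination (2 * Real.tanh (κ / 2)) * hj
  have hc : v.c0 = Real.cosh κ := by
    rw [v.e_c0]
    apply mul_right_cancel₀ hj0.ne'
    rw [g2]
    linear_combination 2 * hj
  have hnj : v.nj * sa s = 1 := by
    rw [v.e_nj, hn, div_mul_eq_mul_div, div_mul_cancel₀ _ ha0.ne']
    linarith
  have hnj' : v.nj = 1 / sa s := by rw [eq_div_iff ha0.ne', hnj]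
  refine ⟨he, hκ, hs, ?_, by rw [hu]; exact hu0, by rw [hu]; exact hu1, ?_, by rw [hh]; exact hT0,
    by rw [hh]; exact hT1, hh, hKv, hc, by rw [hnj']; positivity, ?_, htu, hnj, ?_, hu⟩
  · rw [ht]; positivity
  · rw [hn]; positivity
  · rw [hnj', div_le_one ha0]; exact ha
  · rw [v.e_om, hu, mul_assoc, hnj, mul_one]

namespace Geo

variable {s : ℂ} {v : B1}

theorem K0 (g : Geo κ s v) : 0 < v.K := by
  rw [g.K]; exact Real.sinh_pos_iff.2 g.κ0

theorem cgt (g : Geo κ s v) : 1 < v.c0 := by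
  rw [g.c0]; exact Real.one_lt_cosh.2 g.κ0.ne'

theorem cK (g : Geo κ s v) : v.c0 ^ 2 = 1 + v.K ^ 2 := by
  rw [g.c0, g.K, Real.cosh_sq]; ring

theorem jm0 (g : Geo κ s v) : 0 < v.jm := by
  rw [v.e_jm]
  have h0 := g.h0
  have h1 := g.hlt
  nlinarith

theorem jjm (g : Geo κ s v) : v.j * v.jm = 1 := by
  rw [v.e_j, inv_mul_cancel₀ g.jm0.ne']

theorem jgt (g : Geo κ s v) : 1 < v.j := by
  have h1 := g.jjm
  have h2 := g.jm0
  have h3 : v.jm < 1 := by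
    rw [v.e_jm]
    have := mul_pos g.h0 g.h0
    linarith
  by_contra h
  push Not at h
  nlinarith

/-- `c0 - 1 = K h` -/
theorem cKh (g : Geo κ s v) : v.c0 - 1 = v.K * v.h := by
  have h1 := g.jjm
  have h2 := v.e_jm
  rw [v.e_c0, v.e_K]
  rw [h2] at h1
  linear_combination 2 * h1

theorem m_eq (g : Geo κ s v) : v.m = Real.exp κ := by
  rw [v.e_m, g.c0, g.K, Real.cosh_add_sinh]

theorem mK (g : Geo κ s v) : v.m * (v.c0 - v.K) = 1 := by
  have := g.cK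
  rw [v.e_m]
  linear_combination this

theorem om0 (g : Geo κ s v) : 0 < v.om := by
  rw [v.e_om]
  exact mul_pos g.u0 g.nj0

theorem om_le_u (g : Geo κ s v) : v.om ≤ v.u := by
  rw [v.e_om]
  exact mul_le_of_le_one_right g.u0.le g.nj1

theorem om_le (g : Geo κ s v) : v.om ≤ 1 := g.om_le_u.trans g.u1

theorem op0 (g : Geo κ s v) : 0 < v.op1 := by
  rw [v.e_op1]; have := g.om0; linarith

theorem om1_0 (g : Geo κ s v) : 0 ≤ v.om1 := by
  rw [v.e_om1]; have := g.om_le; linarith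

theorem tu0 (g : Geo κ s v) : 0 < v.tu := by
  rw [v.e_tu]; exact mul_pos g.t0 g.u0

/-- `K = ω t` -/
theorem Kom (g : Geo κ s v) : v.K = v.om * v.t := by
  have h1 := g.nja
  have h2 := g.tu
  have h3 := v.e_tu
  have h4 := v.e_om
  rw [← g.K] at h2
  have h5 : v.nj * v.tu = v.K := by
    rw [h2]
    linear_combination v.K * h1
  rw [h4, ← h5, h3]
  ring

theorem K_le_t (g : Geo κ s v) : v.K ≤ v.t := by
  rw [g.Kom]
  exact mul_le_of_le_one_left g.t0.le g.om_le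

theorem Sp (g : Geo κ s v) : Real.sinh κ * ‖s + 1‖ = v.tu * v.op1 := by
  have h1 : ‖s + 1‖ = sa s + su s := by unfold sa su; ring
  rw [h1, v.e_op1, g.tu, ← g.omu]
  ring

theorem Sm (g : Geo κ s v) : Real.sinh κ * ‖s - 1‖ = v.tu * v.om1 := by
  have h1 : ‖s - 1‖ = sa s - su s := by unfold sa su; ring
  rw [h1, v.e_om1, g.tu, ← g.omu]
  ring

theorem rt_eq (g : Geo κ s v) : rt s * v.op1 = v.om1 := by
  have h1 : ‖s + 1‖ = sa s + su s := by unfold sa su; ring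
  have h2 : ‖s - 1‖ = sa s - su s := by unfold sa su; ring
  have h3 : 0 < sa s := by have := one_le_sa s; linarith
  have h4 := su_pos g.s0
  unfold rt
  rw [h1, h2, ← g.omu, v.e_op1, v.e_om1]
  have h5 : 0 < sa s + v.om * sa s := by
    have := mul_pos g.om0 h3
    linarith
  rw [div_mul_eq_mul_div, div_eq_iff h5.ne']
  ring

theorem R0 (g : Geo κ s v) : 0 < v.R := by
  rw [v.e_R, v.e_u2]
  have := g.t0
  have := g.u0
  positivity

/-- `K Re s = R` -/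
theorem re (g : Geo κ s v) : Real.sinh κ * s.re = v.R := by
  rw [← sa_su, v.e_R, v.e_u2, ← mul_assoc, ← g.tu, v.e_tu, ← g.u]
  ring

theorem tu2R (g : Geo κ s v) : v.tu2 = v.t * v.R := by
  rw [v.e_tu2, v.e_R, v.e_tu, v.e_u2]
  ring

/-- `(K Im s)² = (tu)²(1-u²)(1-nj²)` -/
theorem im (g : Geo κ s v) : (Real.sinh κ * s.im) ^ 2 = v.tu2 * (1 - v.u2) * (1 - v.nj2) := by
  have h1 := g.nja
  have h2 := im_sq s
  rw [mul_pow, h2, v.e_tu2, v.e_nj2, v.e_u2, g.tu, ← g.u]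
  have h3 : Real.sinh κ ^ 2 * ((sa s ^ 2 - 1) * (1 - v.u ^ 2)) =
    (Real.sinh κ * sa s) ^ 2 * (1 - v.u ^ 2) * (1 - v.nj * v.nj) +
      Real.sinh κ ^ 2 * (1 - v.u ^ 2) * ((v.nj * sa s) ^ 2 - 1) := by ring
  rw [h3, h1]
  ring

theorem SQ1 (g : Geo κ s v) : 1 < v.SQ := by
  rw [v.e_SQ, v.e_D, v.e_Dt]
  have h1 := g.R0
  have h2 := g.K0
  have h3 := g.om0
  have h4 := g.cgt
  have h5 := g.t0
  have : 0 < v.R * (v.K * v.om + 2 * v.c0 + v.t) := by positivity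
  linarith

/-- `|Q|² = SQ` -/
theorem Qsq (g : Geo κ s v) : ‖Qk κ s‖ ^ 2 = v.SQ := by
  have h0 : Qk κ s = (Real.cosh κ : ℂ) + (Real.sinh κ : ℂ) * s := rfl
  have h1 : ‖Qk κ s‖ ^ 2 = (Real.cosh κ + Real.sinh κ * s.re) ^ 2 + (Real.sinh κ * s.im) ^ 2 := by
    rw [h0, ← Complex.normSq_eq_norm_sq, Complex.normSq_apply]
    simp only [add_re, ofReal_re, mul_re, ofReal_im, zero_mul, sub_zero, add_im, mul_im, add_zero,
      zero_add]
    ring
  rw [h1, g.re, g.im, ← g.c0, v.e_SQ, v.e_D, v.e_Dt]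
  have h2 := g.cK
  have h3 := g.Kom
  have h4 := g.tu2R
  have h5 : v.tu2 * v.nj2 = v.K ^ 2 := by
    have : v.nj * v.tu = v.K := by
      rw [h3, v.e_tu, v.e_om]; ring
    rw [v.e_tu2, v.e_nj2, ← this]; ring
  have h6 : v.tu2 * v.u2 = v.R ^ 2 := by
    rw [v.e_tu2, v.e_R, v.e_tu, v.e_u2]; ring
  have h7 : v.K ^ 2 * v.u2 = v.K * v.om * v.R := by
    have : v.K ^ 2 = v.K * (v.om * v.t) := by rw [← h3]; ring
    rw [this, v.e_R]; ring
  have h8 : v.tu2 * (1 - v.u2) * (1 - v.nj2) =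
      v.tu2 - v.tu2 * v.u2 - v.tu2 * v.nj2 + v.u2 * (v.tu2 * v.nj2) := by ring
  rw [h8, h6, h5, h4]
  nlinarith [h2, h7]

theorem aQ_sq (g : Geo κ s v) : v.aQ ^ 2 = v.SQ := by
  have h := g.SQ1
  rw [v.e_aQ, v.e_LQ, ← Real.exp_nat_mul]
  push_cast
  rw [show (2 : ℝ) * (1 / 2 * Real.log v.SQ) = Real.log v.SQ by ring, Real.exp_log (by linarith)]

theorem aQ0 (_g : Geo κ s v) : 0 < v.aQ := by rw [v.e_aQ]; exact Real.exp_pos _

/-- `|Q| = aQ` -/
theorem Qn (g : Geo κ s v) : ‖Qk κ s‖ = v.aQ := by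
  have h1 := g.Qsq
  rw [← g.aQ_sq] at h1
  exact (pow_left_inj₀ (norm_nonneg _) g.aQ0.le two_ne_zero).1 h1

theorem aQ1 (g : Geo κ s v) : 1 < v.aQ := by
  have h1 := g.aQ_sq
  have h2 := g.SQ1
  have h3 := g.aQ0
  nlinarith

theorem rho_eq (g : Geo κ s v) : v.rho = v.e * Real.log ‖Qk κ s‖ := by
  rw [g.Qn, v.e_aQ, Real.log_exp, v.e_rho, v.e_ee]
  ring

theorem rho0 (g : Geo κ s v) : 0 < v.rho := by
  rw [g.rho_eq, g.Qn]
  exact mul_pos g.e0 (Real.log_pos g.aQ1)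

/-- `|Q^{-e}| = q` -/
theorem q_eq (g : Geo κ s v) : qa v.e κ s = v.q := by
  unfold qa
  have h0 := Qk_ne g.κ0 g.s0
  rw [Complex.norm_cpow_of_ne_zero h0]
  have h1 : (-(v.e : ℂ)).re = -v.e := by simp
  have h2 : (-(v.e : ℂ)).im = 0 := by simp
  rw [h1, h2, mul_zero, Real.exp_zero, div_one, v.e_q, g.rho_eq,
    Real.rpow_def_of_pos (norm_pos_iff.2 h0)]
  congr 1
  ring

theorem q0 (_g : Geo κ s v) : 0 < v.q := by rw [v.e_q]; exact Real.exp_pos _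

theorem q_lt (g : Geo κ s v) : v.q < 1 := by
  rw [v.e_q, Real.exp_lt_one_iff]
  have := g.rho0
  linarith

end Geo

end Pool.Agent.helper71.FF
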