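import Pool.Agent.helper71.FF.Geo
import Pool.Agent.helper12.FF.Ident

/-!
# Far field programs: the shifted point, arguments
-/

namespace Pool.Agent.helper71.FF

open Complex ComplexConjugate Pool.Agent.helper31.EQ.Y Pool.Agent.helper31.EQ.R
open Pool.Agent.helper12.EQL Pool.Agent.helper12.RP Pool.Agent.helper12.FF

variable {κ : ℝ}

theorem exp_neg_two (κ : ℝ) : Real.exp (-(2 * κ)) = (Real.cosh κ - Real.sinh κ) ^ 2 := by
  rw [Real.cosh_sub_sinh, ← Real.exp_nat_mul]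
  congr 1
  push_cast
  ring

/-- `h1` in terms of `w = (1 - r)/(1 + r)` -/
theorem h1_of {z : ℂ} (hκ : 0 < κ) {w : ℝ} (hw0 : 0 < w) (hw : rt z * (1 + w) = 1 - w) :
    h1 κ z = Real.sinh κ * (1 - w ^ 2) / (w * (Real.cosh κ + w * Real.sinh κ)) := by
  have hK : 0 < Real.sinh κ := Real.sinh_pos_iff.2 hκ
  have hC := Real.cosh_pos κ
  have hcs := Real.cosh_sq κ
  have hc : 0 < Real.cosh κ - Real.sinh κ := by rw [Real.cosh_sub_sinh]; exact Real.exp_pos _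
  have hr : rt z = (1 - w) / (1 + w) := by rw [eq_div_iff (by linarith), hw]
  unfold h1
  rw [exp_neg_two, hr]
  set C := Real.cosh κ
  set S := Real.sinh κ
  have hw1 : 0 < 1 + w := by linarith
  have e1 : 1 + (1 - w) / (1 + w) = 2 / (1 + w) := by field_simp; ring
  have e2 : 1 - (1 - w) / (1 + w) = 2 * w / (1 + w) := by field_simp; ring
  have e3 : 1 - (C - S) ^ 2 * ((1 - w) / (1 + w)) = 2 * (C - S) * (S + w * C) / (1 + w) := by
    rw [eq_div_iff hw1.ne', sub_mul, mul_assoc, div_mul_cancel₀ _ hw1.ne']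
    linear_combination (-(1 : ℝ) - w) * hcs
  have e4 : 1 + (C - S) ^ 2 * ((1 - w) / (1 + w)) = 2 * (C - S) * (C + w * S) / (1 + w) := by
    rw [eq_div_iff hw1.ne', add_mul, mul_assoc, div_mul_cancel₀ _ hw1.ne']
    linear_combination (-(1 : ℝ) - w) * hcs
  rw [e1, e2, e3, e4]
  have hd : 0 < C + w * S := by positivity
  field_simp
  ring

theorem rt_shf_of {s : ℂ} (hκ : 0 < κ) (hs : 0 < s.re) {w : ℝ} (hw0 : 0 < w)
    (hw : rt s * (1 + w) = 1 - w) :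
    rt (shf κ s) * (1 + (Real.sinh κ + w * Real.cosh κ) / (Real.cosh κ + w * Real.sinh κ)) =
      1 - (Real.sinh κ + w * Real.cosh κ) / (Real.cosh κ + w * Real.sinh κ) := by
  have hK : 0 < Real.sinh κ := Real.sinh_pos_iff.2 hκ
  have hC := Real.cosh_pos κ
  have hcs := Real.cosh_sq κ
  rw [rt_shf_eq hκ hs, exp_neg_two]
  have hr : rt s = (1 - w) / (1 + w) := by rw [eq_div_iff (by linarith), hw]
  rw [hr]
  set C := Real.cosh κ
  set S := Real.sinh κ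
  have hd : 0 < C + w * S := by positivity
  have hw1 : 0 < 1 + w := by linarith
  field_simp
  linear_combination (1 - w ^ 2) * (C - S) * hcs

theorem shf_re' (hκ : 0 < κ) {s : ℂ} (hs : 0 < s.re) : 0 < (shf κ s).re := shf_re hκ hs.le

/-- `(e arg z)² ≤ e² (Im z)²/(Re z)²` -/
theorem arg_sq_le {z : ℂ} (hz : 0 < z.re) : z.arg ^ 2 ≤ (z.im / z.re) ^ 2 := by
  have h1 := Complex.tan_arg z
  have h2 : |z.arg| < Real.pi / 2 := by
    rw [Complex.abs_arg_lt_pi_div_two_iff]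
    exact Or.inl hz
  rw [← h1]
  have h3 := abs_lt.1 h2
  rcases le_total 0 z.arg with h | h
  · have := Real.le_tan h h3.2
    exact pow_le_pow_left₀ h this 2
  · have := Real.le_tan (x := -z.arg) (by linarith) (by linarith)
    rw [Real.tan_neg] at this
    have h5 := pow_le_pow_left₀ (by linarith : 0 ≤ -z.arg) this 2
    simpa using h5

namespace Geo

variable {s : ℂ} {v : B1}

theorem h1_eq (g : Geo κ s v) : h1 κ s = v.h1 := by
  have hr : rt s * (1 + v.om) = 1 - v.om := by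
    rw [← v.e_op1, ← v.e_om1]; exact g.rt_eq
  rw [h1_of g.κ0 g.om0 hr, ← g.c0, ← g.K, v.e_h1, v.e_h1t, v.e_ioK, v.e_op1, v.e_om1]
  have h1 := g.om0
  have h2 := g.K0
  have h3 := g.cgt
  have h4 : 0 < v.c0 + v.om * v.K := by positivity
  have h5 := g.Kom
  rw [div_eq_iff (by positivity)]
  have : (1 - v.om) * v.t * ((1 + v.om) * (v.c0 + v.om * v.K)⁻¹) *
      (v.om * (v.c0 + v.om * v.K)) = (1 - v.om) * (v.om * v.t) * (1 + v.om) := by
    field_simp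
  rw [this, ← h5]
  ring

theorem h1_0 (g : Geo κ s v) : 0 ≤ v.h1 := by
  rw [← g.h1_eq]
  exact h1_nonneg g.κ0 g.s0

theorem rhat_eq (_g : Geo κ s v) : v.rhat = v.c0 * v.Dt - 1 := v.e_rhat

theorem Dt2 (g : Geo κ s v) : 2 < v.Dt := by
  rw [v.e_Dt]
  have h1 := g.om0
  have h2 := g.K0
  have h3 := g.cgt
  have h4 := g.t0
  have := mul_pos h2 h1
  linarith

theorem rhat1 (g : Geo κ s v) : 1 < v.rhat := by
  rw [v.e_rhat]
  have h1 := g.cgt
  have h2 := g.Dt2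
  nlinarith

theorem Qre (g : Geo κ s v) : (Qk κ s).re = v.c0 + v.R := by
  have h0 : Qk κ s = (Real.cosh κ : ℂ) + (Real.sinh κ : ℂ) * s := rfl
  rw [h0, add_re, ofReal_re, re_ofReal_mul, g.re, g.c0]

theorem Qim (_g : Geo κ s v) : (Qk κ s).im = Real.sinh κ * s.im := by
  have h0 : Qk κ s = (Real.cosh κ : ℂ) + (Real.sinh κ : ℂ) * s := rfl
  rw [h0, add_im, ofReal_im, im_ofReal_mul, zero_add]

theorem Qre_le (g : Geo κ s v) : v.c0 + v.R ≤ v.aQ := by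
  rw [← g.Qre, ← g.Qn]
  exact Complex.re_le_norm _

theorem argx (g : Geo κ s v) : (v.e * (Qk κ s).arg) ^ 2 ≤ v.x := by
  have hR := g.R0
  have hc := g.cgt
  have h0 : 0 < (Qk κ s).re := by rw [g.Qre]; linarith
  have h1 := arg_sq_le h0
  rw [g.Qre, g.Qim, div_pow, g.im] at h1
  rw [mul_pow, v.e_x, v.e_w]
  have h2 := mul_le_mul_of_nonneg_left h1 (sq_nonneg v.e)
  refine h2.trans (le_of_eq ?_)
  have h3 : v.c0 + v.R ≠ 0 := by rw [← g.Qre]; exact h0.ne'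
  field_simp

theorem x0 (g : Geo κ s v) : 0 ≤ v.x := (sq_nonneg _).trans g.argx

/-- the real part of `Q'` times `|Q|²` -/
theorem Qre' (g : Geo κ s v) : (Qk κ (shf κ s)).re * v.SQ = 2 * v.c0 * v.SQ - (v.c0 + v.R) := by
  have h0 := g.SQ1
  rw [Qk_shf g.κ0 g.s0, sub_re, Complex.inv_re, Complex.normSq_eq_norm_sq, g.Qsq, g.Qre, ← g.c0]
  have h1 : (2 * (v.c0 : ℂ)).re = 2 * v.c0 := by
    rw [show (2 * (v.c0 : ℂ)) = ((2 * v.c0 : ℝ) : ℂ) by push_cast; ring, ofReal_re]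
  rw [h1, sub_mul, div_mul_cancel₀ _ (by linarith)]

theorem Qim' (g : Geo κ s v) : (Qk κ (shf κ s)).im * v.SQ = Real.sinh κ * s.im := by
  have h0 := g.SQ1
  rw [Qk_shf g.κ0 g.s0, sub_im, Complex.inv_im, Complex.normSq_eq_norm_sq, g.Qsq, g.Qim, ← g.c0]
  have h1 : (2 * (v.c0 : ℂ)).im = 0 := by
    rw [show (2 * (v.c0 : ℂ)) = ((2 * v.c0 : ℝ) : ℂ) by push_cast; ring, ofReal_im]
  rw [h1, sub_mul, neg_div, neg_mul, div_mul_cancel₀ _ (by linarith)]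
  ring

/-- `K Re s' |Q|² = R rhat` -/
theorem re' (g : Geo κ s v) : Real.sinh κ * (shf κ s).re * v.SQ = v.R * v.rhat := by
  have h1 := g.Qre'
  have h0 : Qk κ (shf κ s) = (Real.cosh κ : ℂ) + (Real.sinh κ : ℂ) * shf κ s := rfl
  rw [h0, add_re, ofReal_re, re_ofReal_mul, ← g.c0] at h1
  rw [v.e_rhat]
  have h2 := v.e_SQ
  have h3 := v.e_D
  rw [h3] at h2
  linear_combination h1 + v.c0 * h2

/-- `|Q'|² |Q|² = D2 + 1` -/
theorem Qsq' (g : Geo κ s v) : ‖Qk κ (shf κ s)‖ ^ 2 * v.SQ = v.D2 + 1 := by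
  have h0 := g.SQ1
  have hQ := Qk_ne g.κ0 g.s0
  have h1 : Qk κ (shf κ s) * Qk κ s = 2 * (Real.cosh κ : ℂ) * Qk κ s - 1 := by
    rw [Qk_shf g.κ0 g.s0, sub_mul, inv_mul_cancel₀ hQ]
  have h2 : ‖Qk κ (shf κ s)‖ ^ 2 * v.SQ = ‖2 * (Real.cosh κ : ℂ) * Qk κ s - 1‖ ^ 2 := by
    rw [← h1, norm_mul, mul_pow, g.Qsq]
  have h3 : ‖2 * (Real.cosh κ : ℂ) * Qk κ s - 1‖ ^ 2 =
      4 * Real.cosh κ ^ 2 * ‖Qk κ s‖ ^ 2 - 4 * Real.cosh κ * (Qk κ s).re + 1 := by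
    have e1 : 2 * (Real.cosh κ : ℂ) * Qk κ s = ((2 * Real.cosh κ : ℝ) : ℂ) * Qk κ s := by
      push_cast; ring
    rw [e1, ← Complex.normSq_eq_norm_sq, ← Complex.normSq_eq_norm_sq, Complex.normSq_apply,
      Complex.normSq_apply, sub_re, sub_im, one_re, one_im, re_ofReal_mul, im_ofReal_mul]
    ring
  rw [h2, h3, g.Qsq, g.Qre, ← g.c0, v.e_D2, v.e_rhat]
  have h4 := v.e_SQ
  rw [v.e_D] at h4
  rw [h4]
  ring

theorem D2_0 (g : Geo κ s v) : 0 < v.D2 := by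
  rw [v.e_D2]
  have h1 := g.R0
  have h2 := g.cgt
  have h3 := g.rhat1
  positivity

theorem rp_eq (g : Geo κ s v) : v.rp = v.e * Real.log ‖Qk κ (shf κ s)‖ := by
  have h0 := g.SQ1
  have h1 := g.Qsq'
  have h2 : 0 < ‖Qk κ (shf κ s)‖ := norm_pos_iff.2 (Qk_ne g.κ0 (shf_re' g.κ0 g.s0))
  have h3 : Real.log (v.D2 + 1) = 2 * Real.log ‖Qk κ (shf κ s)‖ + Real.log v.SQ := by
    rw [← h1, Real.log_mul (by positivity) (by linarith), Real.log_pow]
    push_cast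
    ring
  rw [v.e_rp, v.e_ee, v.e_L2, h3, v.e_LQ]
  ring

theorem q_eq' (g : Geo κ s v) : qa v.e κ (shf κ s) = v.qp := by
  unfold qa
  have h0 := Qk_ne g.κ0 (shf_re' g.κ0 g.s0)
  rw [Complex.norm_cpow_of_ne_zero h0]
  have h1 : (-(v.e : ℂ)).re = -v.e := by simp
  have h2 : (-(v.e : ℂ)).im = 0 := by simp
  rw [h1, h2, mul_zero, Real.exp_zero, div_one, v.e_qp, g.rp_eq,
    Real.rpow_def_of_pos (norm_pos_iff.2 h0)]
  congr 1
  ring

theorem qp0 (_g : Geo κ s v) : 0 < v.qp := by rw [v.e_qp]; exact Real.exp_pos _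

theorem hp_eq (g : Geo κ s v) (v3 : B3 v) : h1 κ (shf κ s) = v3.hp := by
  have hr : rt s * (1 + v.om) = 1 - v.om := by
    rw [← v.e_op1, ← v.e_om1]; exact g.rt_eq
  have hr' := rt_shf_of g.κ0 g.s0 g.om0 hr
  have h1 := g.om0
  have h2 := g.K0
  have h3 := g.cgt
  have h5 := g.Kom
  have h6 := g.t0
  rw [← g.c0, ← g.K] at hr'
  have hN : 0 < v.c0 + v.om * v.K := by positivity
  have hM : 0 < v.K + v.om * v.c0 := by positivity
  have hw0 : 0 < (v.K + v.om * v.c0) / (v.c0 + v.om * v.K) := by positivity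
  rw [h1_of g.κ0 hw0 hr', ← g.c0, ← g.K, v3.e_hp, v3.e_hpt, v.e_om1, v.e_op1]
  have h7 := g.cK
  have h8 : v.c2 = v.c0 ^ 2 + v.K ^ 2 := by rw [v.e_c2, h7]; ring
  have hc2 : 0 < v.c2 + 2 * (v.om * v.c0 * v.K) := by rw [h8]; positivity
  set N := v.c0 + v.om * v.K with hNd
  set M := v.K + v.om * v.c0 with hMd
  have e1 : 1 - (M / N) ^ 2 = (1 - v.om ^ 2) / N ^ 2 := by
    rw [div_pow, eq_div_iff (by positivity), sub_mul, div_mul_cancel₀ _ (by positivity), hNd, hMd]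
    linear_combination (1 - v.om ^ 2) * h7
  have e2 : M / N * (v.c0 + M / N * v.K) = M * (v.c2 + 2 * (v.om * v.c0 * v.K)) / N ^ 2 := by
    rw [h8]
    field_simp
    rw [hNd, hMd]
    ring
  rw [e1, e2]
  have e3 : M = v.om * (v.c0 + v.t) := by rw [hMd]; nth_rewrite 1 [h5]; ring
  have e4 : v.K * ((1 - v.om ^ 2) / N ^ 2) / (M * (v.c2 + 2 * (v.om * v.c0 * v.K)) / N ^ 2) =
      v.K * (1 - v.om ^ 2) / (M * (v.c2 + 2 * (v.om * v.c0 * v.K))) := by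
    field_simp
  rw [e4, e3]
  have e5 : v.K * (1 - v.om ^ 2) = v.om * (v.t * (1 - v.om ^ 2)) := by nth_rewrite 1 [h5]; ring
  rw [e5, mul_assoc v.om, mul_div_mul_left _ _ h1.ne', div_eq_mul_inv]
  ring

theorem hp_0 (g : Geo κ s v) (v3 : B3 v) : 0 ≤ v3.hp := by
  rw [← g.hp_eq]
  exact h1_nonneg g.κ0 (shf_re' g.κ0 g.s0)

theorem argx' (g : Geo κ s v) (v3 : B3 v) : (v.e * (Qk κ (shf κ s)).arg) ^ 2 ≤ v3.xp := by
  have hR := g.R0
  have hc := g.cgt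
  have hSQ := g.SQ1
  have ha1 := g.aQ1
  have haS := g.aQ_sq
  have hre := g.Qre_le
  have hQr := g.Qre'
  have hQi := g.Qim'
  have hpos : 0 < 2 * v.c0 * v.SQ - (v.c0 + v.R) := by nlinarith
  have h0 : 0 < (Qk κ (shf κ s)).re := by
    by_contra h
    push Not at h
    nlinarith
  have h1 := arg_sq_le h0
  have e1 : (Qk κ (shf κ s)).im / (Qk κ (shf κ s)).re =
      Real.sinh κ * s.im / (2 * v.c0 * v.SQ - (v.c0 + v.R)) := by
    rw [← hQr, ← hQi, mul_div_mul_right _ _ (by linarith)]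
  rw [e1, div_pow] at h1
  have hx : v.x * (v.c0 + v.R) ^ 2 = v.e ^ 2 * (Real.sinh κ * s.im) ^ 2 := by
    rw [v.e_x, v.e_w, g.im]
    have h3 : v.c0 + v.R ≠ 0 := by positivity
    field_simp
  have h4 : (v.c0 + v.R) ^ 2 * v.SQ ≤ (2 * v.c0 * v.SQ - (v.c0 + v.R)) ^ 2 := by
    rw [← haS, ← mul_pow]
    apply pow_le_pow_left₀ (by positivity)
    nlinarith
  rw [mul_pow, v3.e_xp]
  have h5 := mul_le_mul_of_nonneg_left h1 (sq_nonneg v.e)
  refine h5.trans ?_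
  rw [← mul_div_assoc, ← hx, div_le_iff₀ (by positivity), mul_assoc]
  have h6 : v.x * (v.c0 + v.R) ^ 2 = v.x * (v.SQ⁻¹ * ((v.c0 + v.R) ^ 2 * v.SQ)) := by
    field_simp
  rw [h6]
  apply mul_le_mul_of_nonneg_left _ g.x0
  apply mul_le_mul_of_nonneg_left h4
  positivity

end Geo

end Pool.Agent.helper71.FF
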