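import Pool.Agent.helper71.FF.Fin2

/-!
# Far field programs: mode H
-/

namespace Pool.Agent.helper71.FF

open Complex ComplexConjugate Pool.Agent.helper31.EQ.Y Pool.Agent.helper31.EQ.R
open Pool.Agent.helper12.EQL Pool.Agent.helper12.RP Pool.Agent.helper12.FF Pool.Agent.helper63.FF

variable {κ : ℝ}

theorem chain {P F S a t : ℝ} (hP : 0 ≤ P) (hP1 : P ≤ 1 + t * S) (hF : 0 ≤ F)
    (hF1 : F ≤ 1 + t * a) : 0 ≤ P * F ∧ P * F ≤ 1 + t * (S + a + t * (S * a)) := by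
  refine ⟨mul_nonneg hP hF, ?_⟩
  have h := mul_le_mul hP1 hF1 hF (hP.trans hP1)
  linarith

/-- `gR ≤ g`, mode H -/
theorem gR_H {s : ℂ} {v : B1} (G : Geo κ s v) {b : GB v.q v.x v.h1} (hb : HB v b)
    (ho2 : 0 < b.o2) (hW : 0 < b.W) : gR v.e κ s ≤ hb.g := by
  have he := G.e0
  have hκ := G.κ0
  obtain ⟨hgb, -⟩ := gb_le he hκ G.s0 b G.q_eq G.argx G.h1_eq G.q_lt ho2 hW
  refine hgb.trans ?_
  have hR := G.R0
  have hrho := G.rhoR_ge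
  rw [← hb.e_rhoR] at hrho
  have hrho0 := G.rho0
  have h1 : (1 - v.q) * b.q1 = 1 - Real.exp (-(2 * v.rho)) := by
    rw [b.e_q1, v.e_q]
    have : Real.exp (-(2 * v.rho)) = Real.exp (-v.rho) * Real.exp (-v.rho) := by
      rw [← Real.exp_add]; congr 1; ring
    rw [this]; ring
  have h2 : Real.exp (-hb.x2) ≤ Real.exp (-(2 * v.rho)) := by
    apply Real.exp_le_exp.2
    rw [hb.e_x2]
    linarith
  have hx0 : 0 ≤ hb.x2 := by rw [hb.e_x2]; linarith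
  have h3 := one_sub_exp_le hx0
  have hiW : 0 < b.W⁻¹ := by positivity
  have h4 : (1 - v.q) * b.q1 ≤ hb.x2 * (1 - hb.x2 * ((1 / 2) - (2731 / 16384) * hb.x2)) := by
    rw [h1]; linarith
  have h5 := mul_le_mul_of_nonneg_right h4 hiW.le
  have e1 : hb.g = (1 / 2) * (hb.x2 * (1 - hb.x2 * ((1 / 2) - (2731 / 16384) * hb.x2)) * b.W⁻¹) := by
    rw [hb.e_g, hb.e_G, hb.e_iW]
    have := hb.e_x2
    linear_combination (-(1 / 2) * (1 - hb.x2 * ((1 / 2) - (2731 / 16384) * hb.x2)) * b.W⁻¹) * this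
  rw [e1]
  linarith

theorem ga_H {v : B1} {b : GB v.q v.x v.h1} (hb : HB v b) :
    hb.ga = hb.g * (hb.g + (1 / 2))⁻¹ := by
  rw [hb.e_ga, hb.e_gR]
  nth_rewrite 2 [hb.e_g]
  ring

/-- the closing of mode F from the equations of mode H -/
noncomputable def CF_of {s : ℂ} {v : B1} (G : Geo κ s v) {v2 : B2 v} {v3 : B3 v}
    {b : GB v.q v.x v.h1} {hb : HB v b} {b' : GB v.qp v3.xp v3.hp} {A phu Ei Eh : ℝ}
    {m : Mid v v2 b A hb.g hb.ga phu Ei Eh} {v4 : B4 v3 b'} {iA phut : ℝ}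
    (c : CH hb m v4 iA phut) (hphu : phu = v.t * phut) : CF m iA where
  rhoR := hb.rhoR
  od := c.od
  lsR := c.lsR
  PR := c.PR
  dP := c.dP
  Ee := c.Ee
  den := c.den
  C := c.C
  fbt := c.fbt
  sl := c.sl
  FX := v.t * c.FXt
  e_rhoR := hb.e_rhoR
  e_od := c.e_od
  e_lsR := by
    rw [c.e_lsR, m.e_ls, m.e_hg]
    have hR := G.R0.ne'
    have : v.R * v.R⁻¹ = 1 := mul_inv_cancel₀ hR
    have h2 := hb.e_ga
    linear_combination (-(v.h1 * hb.gR * m.lsf)) * this - (v.h1 * m.lsf * v.R⁻¹) * h2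
  e_PR := c.e_PR
  e_dP := c.e_dP
  e_Ee := c.e_Ee
  e_den := c.e_den
  e_C := c.e_C
  e_fbt := c.e_fbt
  e_sl := by
    rw [c.e_sl, v.e_tu]
    have hu := G.u0.ne'
    have : v.u⁻¹ * v.u = 1 := inv_mul_cancel₀ hu
    have h2 : hb.g = v.t * (v.u * v.u) * hb.G := by rw [hb.e_g, v.e_R, v.e_u2]
    linear_combination (-(m.ka * v.h1t * (v.t * v.u) * hb.G * m.lsf)) * this -
      (m.ka * v.h1t * v.u⁻¹ * m.lsf) * h2
  e_FX := by
    rw [c.e_FXt, c.e_sl, m.e_bte, v.e_tu]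
    linear_combination (-(c.C * iA * v.u * v.op1⁻¹ * m.fa * m.lfk)) * hphu

theorem Geo.zh0 {s : ℂ} {v : B1} (G : Geo κ s v) :
    0 ≤ v.u2 * (4 * (v.c0 * v.rhat) - v.Dt) * v.SQ⁻¹ := by
  have h1 := G.cgt
  have h2 := G.Dt2
  have h3 := G.SQ1
  have h4 := v.e_rhat
  have hu := G.u0
  have h5 : 0 ≤ 4 * (v.c0 * v.rhat) - v.Dt := by
    rw [h4]
    nlinarith [mul_pos (sub_pos.2 h1) (sub_pos.2 h2), mul_pos (mul_pos (sub_pos.2 h1) (sub_pos.2 h1)) (sub_pos.2 h2)]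
  have h6 : 0 ≤ v.u2 := by rw [v.e_u2]; positivity
  positivity

/-- `(D2 + 1)/SQ = 1 + t zh` -/
theorem Geo.L2_eq {s : ℂ} {v : B1} (G : Geo κ s v) :
    v.L2 = Real.log (1 + v.t * (v.u2 * (4 * (v.c0 * v.rhat) - v.Dt) * v.SQ⁻¹)) := by
  have h3 := G.SQ1
  have h0 := G.D2_0
  rw [v.e_L2, v.e_LQ, ← Real.log_div (by linarith) (by linarith)]
  congr 1
  have hS : v.SQ ≠ 0 := by linarith
  have h4 : v.D2 + 1 = v.SQ + v.t * (v.u2 * (4 * (v.c0 * v.rhat) - v.Dt)) := by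
    rw [v.e_D2, v.e_SQ, v.e_D, v.e_R]; ring
  rw [h4]
  field_simp

/-- the product of the closing, mode H -/
theorem Tb_H {s : ℂ} {v : B1} (G : Geo κ s v) {v2 : B2 v} {v3 : B3 v}
    {b : GB v.q v.x v.h1} {hb : HB v b} {b' : GB v.qp v3.xp v3.hp} {A phu Ei Eh : ℝ}
    {m : Mid v v2 b A hb.g hb.ga phu Ei Eh} {v4 : B4 v3 b'} {iA phut : ℝ}
    (c : CH hb m v4 iA phut) (nx : Nx κ s v4)
    (hε : 0 ≤ m.eps) (hN : 0 ≤ m.NN) (ae2 : 0 < v.aQ - 2 * (v.tu2 * m.eps)) (arl : 0 < m.rl)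
    (adri : 0 < (1 / 2) - c.dri) : Tb m v4 ≤ c.c1 := by
  have haQ := G.aQ0
  have htu := G.tu0
  have ht := G.t0
  have hu := G.u0
  have hop := G.op0
  have he := G.e0
  have heta := lt_aQ G m hε ae2
  have hP := nx.P0
  have heN : 0 ≤ m.eN := by rw [m.e_eN]; positivity
  have hyy : 0 ≤ m.yy := by
    rw [m.e_yy, m.e_d, m.e_irl]
    positivity
  have hgap := nx.gap0
  have hhgp := nx.hgp0
  have hβ : m.beta = 9 * 20⁻¹ := m.e_beta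
  have hhgp_e : v4.hgp = v.t * (v3.hpt * v4.gap) := by rw [v4.e_hgp, v3.e_hp]; ring
  have hzh0 : 0 ≤ c.zh := by rw [c.e_zh]; exact G.zh0
  have hL2 : v.L2 = Real.log (1 + v.t * c.zh) := by rw [c.e_zh]; exact G.L2_eq
  have htz : 0 ≤ v.t * c.zh := by positivity
  have hee : v.ee = (1 / 2) * v.e := v.e_ee
  -- the first factor
  have hyh0 : 0 ≤ c.yh := by rw [c.e_yh]; positivity
  have hrp1 : v.t * c.yh ≤ v.rp := by
    rw [v.e_rp, hL2, hee]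
    have h1 := log_ge_pade htz
    have h2 := mul_le_mul_of_nonneg_left h1 (by linarith : 0 ≤ (1 / 2) * v.e)
    refine le_trans (le_of_eq ?_) h2
    rw [c.e_yh]
    have : 2 + v.t * c.zh ≠ 0 := by positivity
    field_simp
    ring
  have hrp2 : v.rp ≤ v.t * (v.ee * c.zh) := by
    rw [v.e_rp, hL2]
    have h1 := Real.log_le_sub_one_of_pos (by linarith : 0 < 1 + v.t * c.zh)
    have h2 := mul_le_mul_of_nonneg_left h1 (by rw [hee]; linarith : 0 ≤ v.ee)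
    linarith
  have k1 : 0 ≤ v.qp ∧ v.qp ≤ 1 + v.t * c.S1 := by
    refine ⟨G.qp0.le, ?_⟩
    have h1 := exp_neg_le (y := v.t * c.yh) (by positivity)
    have h2 : v.qp ≤ Real.exp (-(v.t * c.yh)) := by
      rw [v.e_qp]
      apply Real.exp_le_exp.2
      linarith
    rw [c.e_S1]
    linarith
  have k2 := chain k1.1 k1.2 (F := v4.hgp + 1) (a := v3.hpt * v4.gap) (by linarith)
    (by rw [hhgp_e]; linarith)
  rw [← c.e_S2] at k2
  -- the exponential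
  have hdri : m.yy * (v.rp + v4.hgp * (v4.hgp + 1)) ≤ c.dri := by
    rw [c.e_dri, c.e_drt]
    have h1 : v.rp + v4.hgp * (v4.hgp + 1) ≤ v.t * (v.ee * c.zh + v3.hpt * v4.gap * (v4.hgp + 1)) := by
      have h2 : v4.hgp * (v4.hgp + 1) = v.t * (v3.hpt * v4.gap * (v4.hgp + 1)) := by
        nth_rewrite 1 [hhgp_e]; ring
      linarith
    have h3 := mul_le_mul_of_nonneg_left h1 hyy
    linarith
  have hd0 : 0 ≤ m.yy * (v.rp + v4.hgp * (v4.hgp + 1)) := by positivity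
  have hexp := exp_58' hd0 hdri (by linarith)
  have k3 := chain k2.1 k2.2 (F := Real.exp (m.yy * (v.rp + v4.hgp * (v4.hgp + 1))))
    (a := c.drt * (1 + (5 / 8) * c.dri)) (Real.exp_pos _).le (by
      have : c.dri = v.t * c.drt := c.e_dri
      have h2 : c.dri * (1 + (5 / 8) * c.dri) = v.t * (c.drt * (1 + (5 / 8) * c.dri)) := by
        nth_rewrite 1 [this]; ring
      linarith)
  rw [← c.e_S3] at k3
  -- exp κ
  have hm0 : 0 < v.m := by rw [G.m_eq]; exact Real.exp_pos _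
  have hm : v.m = 1 + v.t * (v.u * v.n * (v.h + 1) * v.j) := by
    have h1 := G.cKh
    have h2 : v.m = 1 + v.K * (v.h + 1) := by rw [v.e_m]; linarith
    rw [h2, v.e_K]
    have h3 : 2 * v.h = v.t * v.u * v.n := by rw [v.e_h, v.e_tu]; ring
    linear_combination (v.j * (v.h + 1)) * h3
  have k4 := chain k3.1 k3.2 (F := v.m) (a := v.u * v.n * (v.h + 1) * v.j) hm0.le hm.le
  rw [← c.e_S4] at k4
  -- 1/|Q|
  have hD0 : 0 ≤ v.D := by have := G.SQ1; rw [v.e_SQ] at this; linarith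
  have hDh : v.D = v.t * c.Dh := by rw [v.e_D, v.e_R, c.e_Dh]; ring
  have haQi := inv_sqrt_le haQ hD0 (by rw [G.aQ_sq, v.e_SQ]; ring)
  have k5 := chain k4.1 k4.2 (F := v.aQ⁻¹) (a := -(c.Dh * ((1 / 2) - (3 / 8) * (v.t * c.Dh))))
    (by positivity) (by
      refine haQi.trans (le_of_eq ?_)
      rw [hDh]; ring)
  rw [← c.e_S5] at k5
  have k6 := chain k5.1 k5.2 (F := 1 + v.tu * m.eN * v.op1⁻¹) (a := v.u * m.eN * v.op1⁻¹)
    (by positivity) (le_of_eq (by rw [v.e_tu]; ring))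
  rw [← c.e_S6] at k6
  -- Lam
  have hb1 : (1 + (v.h + 1) * (v.K + v.t) * (9 * 20⁻¹)) = 1 + v.t * c.b1 := by
    rw [c.e_b1, hβ, G.Kom, v.e_op1]; ring
  have hh := G.h0
  have hb10 : 0 ≤ c.b1 := by rw [c.e_b1, hβ]; positivity
  have hb1' : 0 < 1 + v.t * c.b1 := by positivity
  obtain ⟨P6, hP6⟩ : ∃ P, P = v.qp * (v4.hgp + 1) *
    Real.exp (m.yy * (v.rp + v4.hgp * (v4.hgp + 1))) * v.m * v.aQ⁻¹ *
    (1 + v.tu * m.eN * v.op1⁻¹) := ⟨_, rfl⟩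
  rw [← hP6] at k6
  have k7 : 0 ≤ P6 * (1 + v.t * c.b1)⁻¹ ∧ P6 * (1 + v.t * c.b1)⁻¹ ≤ 1 + v.t * c.S7 := by
    refine ⟨by have := k6.1; positivity, ?_⟩
    have h1 := mul_le_mul_of_nonneg_right k6.2 (inv_pos.2 hb1').le
    refine h1.trans (le_of_eq ?_)
    rw [c.e_S7]
    have := hb1'.ne'
    field_simp
    ring
  -- 1/(|Q| - η)
  have hQe : 0 < v.aQ - m.eta := by linarith
  have k8 := chain k7.1 k7.2 (F := v.aQ * (v.aQ - m.eta)⁻¹)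
    (a := v.u * v.tu * m.eN * (v.aQ - m.eta)⁻¹) (by positivity) (le_of_eq (by
      have h1 : m.eta = v.t * (v.u * v.tu * m.eN) := by rw [m.e_eta, v.e_tu2, v.e_tu]; ring
      have h2 : (v.aQ - m.eta) * (v.aQ - m.eta)⁻¹ = 1 := mul_inv_cancel₀ hQe.ne'
      linear_combination h2 + (v.aQ - m.eta)⁻¹ * h1))
  rw [← c.e_S8, ← c.e_c1] at k8
  refine le_trans (le_of_eq ?_) k8.2
  unfold Tb
  rw [hb1, hP6]
  have h2 : v.aQ⁻¹ * v.aQ = 1 := inv_mul_cancel₀ haQ.ne'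
  obtain ⟨Z, hZ⟩ : ∃ Z, Z = v.qp * (v4.hgp + 1) *
    Real.exp (m.yy * (v.rp + v4.hgp * (v4.hgp + 1))) * v.m * (1 + v.t * c.b1)⁻¹ *
    (1 + v.tu * m.eN * v.op1⁻¹) * (v.aQ - m.eta)⁻¹ := ⟨_, rfl⟩
  have e1 : v.qp * (v4.hgp + 1) * Real.exp (m.yy * (v.rp + v4.hgp * (v4.hgp + 1))) *
      (1 + v.t * c.b1)⁻¹ * v.m * (1 + v.tu * m.eN * v.op1⁻¹) * (v.aQ - m.eta)⁻¹ = Z := by
    rw [hZ]; ring
  have e2 : v.qp * (v4.hgp + 1) * Real.exp (m.yy * (v.rp + v4.hgp * (v4.hgp + 1))) * v.m *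
      v.aQ⁻¹ * (1 + v.tu * m.eN * v.op1⁻¹) * (1 + v.t * c.b1)⁻¹ * (v.aQ * (v.aQ - m.eta)⁻¹) =
      Z * (v.aQ⁻¹ * v.aQ) := by
    rw [hZ]; ring
  rw [e1, e2, h2, mul_one]

/-- mode H -/
theorem far_H {τ : ℂ} {v : B1} (G : Geo κ (shf κ τ) v) {v2 : B2 v} {b : GB v.q v.x v.h1}
    {hb : HB v b} {A phu Ei Eh : ℝ} {m : Mid v v2 b A hb.g hb.ga phu Ei Eh}
    {v3 : B3 v} {b' : GB v.qp v3.xp v3.hp} {v4 : B4 v3 b'} (a : Asr m v4)
    {R w : ℝ} {E : Set ℂ} (D : PtD κ τ R w) (hA : 0 < A) {iA phut : ℝ} (hiA : A * iA = 1)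
    {lf Ex : ℝ} (hφ : PhiB κ (shf κ τ) v v2 phu Ei Eh lf Ex)
    (hE : HE κ τ m R E) (c : CH hb m v4 iA phut) (hphu : phu = v.t * phut)
    (adri : 0 < (1 / 2) - c.dri) (ad : 0 < 1 - m.d) (aden : 0 < c.den)
    (adP : 0 < (5 / 8) * 1 - c.dP) (aB : 0 < c.Bm - (1 / 1024)) :
    FarPt v.e κ (1 - Real.sinh κ / 1024) w (2 * A * Real.sinh κ ^ 2) R E τ := by
  have he := G.e0
  have hκ := G.κ0
  have hs0 := G.s0
  have ht := G.t0
  obtain ⟨hτ0, -⟩ := reg_s hκ D.R2.le D.τ0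
  have nx := nx_of G v4 a.o2p a.Wp a.hgp
  have hgR := gR_H G hb a.o2 a.W
  have hg0 : 0 < hb.g := lt_of_lt_of_le (gR_pos he hκ hs0) hgR
  refine far_fin G a nx D hA hgR (ga_H hb) hφ hE (fbt := c.fbt) (FX := v.t * c.FXt) (c1 := c.c1)
    (fb := v.t * c.fbt) (r := v.t * c.rt) (Bm := v.t * c.Bm) ?_ ?_ rfl ?_ ?_ ?_
  · intro X ls n1 L1 M2 E0 η hX0 o
    exact rhoF G hτ0 (CF_of G c hphu) hiA o a.hg ad aden adP hφ.phu0 hX0 hA hg0
  · intro X ls n1 L1 M2 E0 η o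
    exact Tb_H G c nx o.o_eps0 (by linarith [o.o_NN1]) a.e2 a.rl adri
  · rw [c.e_rt]; ring
  · rw [c.e_Bm]
    have := c.e_c1
    linear_combination this
  · have : 1 / 1024 < c.Bm := by linarith
    exact mul_lt_mul_of_pos_left this ht

end Pool.Agent.helper71.FF
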