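import Pool.Agent.helper71.FF.MidF

/-!
# Far field programs: the next point
-/

namespace Pool.Agent.helper71.FF

open Complex ComplexConjugate Pool.Agent.helper31.EQ.Y Pool.Agent.helper31.EQ.R
open Pool.Agent.helper12.EQL Pool.Agent.helper12.RP Pool.Agent.helper12.FF Pool.Agent.helper63.FF

variable {κ : ℝ}

theorem Geo.qp_lt {s : ℂ} {v : B1} (G : Geo κ s v) : v.qp < 1 ∧ 0 < v.rp := by
  have h1 := shf_re' G.κ0 G.s0
  have h2 := Qk_re G.κ0 h1.le
  have h3 := Complex.re_le_norm (Qk κ (shf κ s))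
  have h4 : 1 < ‖Qk κ (shf κ s)‖ := by
    have := Real.one_lt_cosh.2 G.κ0.ne'
    linarith
  have h5 : 0 < v.rp := by rw [G.rp_eq]; exact mul_pos G.e0 (Real.log_pos h4)
  refine ⟨?_, h5⟩
  rw [v.e_qp, Real.exp_lt_one_iff]
  linarith

/-- facts at the next point -/
structure Nx (κ : ℝ) (s : ℂ) {v : B1} {v3 : B3 v} {b' : GB v.qp v3.xp v3.hp} (v4 : B4 v3 b') : Prop where
  γ : gam v.e κ (shf κ s) ≤ v4.gap
  gap0 : 0 ≤ v4.gap
  hgp0 : 0 ≤ v4.hgp
  nq : ‖qq v.e κ (shf κ s)‖ ≤ v.qp * (v4.hgp + 1)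
  P : (Pl v.e κ (shf κ s)).re ≤ v.rp + v4.hgp * (v4.hgp + 1)
  P0 : 0 ≤ v.rp + v4.hgp * (v4.hgp + 1)

theorem nx_of {s : ℂ} {v : B1} (G : Geo κ s v) {v3 : B3 v} {b' : GB v.qp v3.xp v3.hp}
    (v4 : B4 v3 b') (ho2 : 0 < b'.o2) (hW : 0 < b'.W) (hh : 0 < (1 / 2) - v4.hgp) :
    Nx κ s v4 := by
  have he := G.e0
  have hκ := G.κ0
  have hs' := shf_re' hκ G.s0
  obtain ⟨hqp1, hrp⟩ := G.qp_lt
  have hqp0 := G.qp0
  have hp0 := G.hp_0 v3
  obtain ⟨hg, -⟩ := gb_le he hκ hs' b' G.q_eq' (G.argx' v3) (G.hp_eq v3) hqp1 ho2 hW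
  have hg' : gR v.e κ (shf κ s) ≤ v4.gp := by rw [v4.e_gp]; exact hg
  have hgp0 : 0 < v4.gp := lt_of_lt_of_le (gR_pos he hκ hs') hg'
  have hγ : gam v.e κ (shf κ s) ≤ v4.gap := by
    have := gam_of he hκ hs' hg'
    rw [v4.e_gap, ← div_eq_mul_inv, add_comm v4.gp]
    exact this
  have hγ0 := gam_nonneg he hκ hs'
  have hgap0 : 0 ≤ v4.gap := hγ0.trans hγ
  have hhγ : v3.hp * gam v.e κ (shf κ s) ≤ v4.hgp := by
    rw [v4.e_hgp]; exact mul_le_mul_of_nonneg_left hγ hp0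
  have hhgp0 : 0 ≤ v4.hgp := by rw [v4.e_hgp]; positivity
  have hhγ0 : 0 ≤ v3.hp * gam v.e κ (shf κ s) := by positivity
  refine ⟨hγ, hgap0, hhgp0, ?_, ?_, by positivity⟩
  · have h := qq_le he hκ hs'
    rw [G.q_eq', G.hp_eq v3] at h
    refine h.trans ?_
    exact mul_le_mul_of_nonneg_left (by linarith) hqp0.le
  · have h := Pl_re_le he hκ hs' (by rw [G.hp_eq v3]; linarith)
    rw [← G.rp_eq, G.hp_eq v3] at h
    have h2 := log_one_half hhγ0 (by linarith)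
    have h3 : v3.hp * gam v.e κ (shf κ s) * (v3.hp * gam v.e κ (shf κ s) + 1) ≤
        v4.hgp * (v4.hgp + 1) := mul_le_mul hhγ (by linarith) (by positivity) hhgp0
    linarith

/-- the relative displacement at the next point -/
theorem d2_of {s : ℂ} {v : B1} (G : Geo κ s v) {v2 : B2 v} {b : GB v.q v.x v.h1}
    {A g ga phu Ei Eh : ℝ} (m : Mid v v2 b A g ga phu Ei Eh) {η : ℝ} (hη0 : 0 ≤ η)
    (hη : η ≤ v.tu2 * m.eN) (hrl : 0 < m.rl) :
    ∃ d, 0 ≤ d ∧ d < 1 ∧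
      η ≤ d * (shf κ s).re * (Real.sinh κ * ‖Qk κ s‖ * (‖Qk κ s‖ - η)) ∧
      d / (1 - d) ≤ η * (m.irl * v.R⁻¹) ∧ d / (1 - d) ≤ m.yy := by
  have haQ := G.aQ0
  have hR := G.R0
  have hrh := G.rhat1
  have hS := G.re'
  have haS := G.aQ_sq
  have heta' : m.eta = v.tu2 * m.eN := m.e_eta
  have hD : m.d * v.R = m.eta := by
    rw [m.e_d, heta', G.tu2R]; ring
  -- R rhat (1 - η/aQ)
  obtain ⟨M, hM⟩ : ∃ M, M = v.R * v.rhat * (1 - η * v.aQ⁻¹) := ⟨_, rfl⟩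
  have hrlR : v.R * m.rl = v.R * v.rhat * (1 - m.eta * v.aQ⁻¹) - m.eta := by
    rw [m.e_rl, mul_sub, ← hD]; ring
  have hM1 : v.R * m.rl ≤ M - η := by
    rw [hrlR, hM]
    have h1 : η * v.aQ⁻¹ ≤ m.eta * v.aQ⁻¹ :=
      mul_le_mul_of_nonneg_right (by rw [heta']; exact hη) (inv_nonneg.2 haQ.le)
    have h2 := mul_le_mul_of_nonneg_left h1 (by positivity : 0 ≤ v.R * v.rhat)
    have h3 : η ≤ m.eta := by rw [heta']; exact hη
    nlinarith
  have hRrl : 0 < v.R * m.rl := mul_pos hR hrl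
  have hM0 : 0 < M := by linarith
  have hMη : 0 < M - η := by linarith
  refine ⟨η / M, by positivity, by rw [div_lt_one hM0]; linarith, ?_, ?_, ?_⟩
  · rw [G.Qn]
    have e1 : (shf κ s).re * (Real.sinh κ * v.aQ * (v.aQ - η)) = M := by
      have e2 : Real.sinh κ * (shf κ s).re * v.aQ ^ 2 = v.R * v.rhat := by rw [haS]; exact hS
      rw [hM, ← e2]
      field_simp
    rw [mul_assoc, e1, div_mul_cancel₀ _ hM0.ne']
  · have e1 : η / M / (1 - η / M) = η / (M - η) := by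
      have : 1 - η / M = (M - η) / M := by field_simp
      rw [this]
      field_simp
    rw [e1]
    have h1 : η / (M - η) ≤ η / (v.R * m.rl) := div_le_div_of_nonneg_left hη0 hRrl hM1
    refine h1.trans (le_of_eq ?_)
    rw [m.e_irl]
    field_simp
  · have e1 : η / M / (1 - η / M) = η / (M - η) := by
      have : 1 - η / M = (M - η) / M := by field_simp
      rw [this]
      field_simp
    rw [e1]
    have h1 : η / (M - η) ≤ m.eta / (v.R * m.rl) := by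
      apply div_le_div₀ _ _ hRrl hM1
      · rw [heta']; exact hη0.trans hη
      · rw [heta']; exact hη
    refine h1.trans (le_of_eq ?_)
    rw [m.e_yy, m.e_irl, ← hD]
    field_simp

end Pool.Agent.helper71.FF
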