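import Pool.Agent.helper71.FF.Hat

/-!
# Far field programs: bounds of `log f`
-/

namespace Pool.Agent.helper71.FF

open Complex ComplexConjugate Pool.Agent.helper31.EQ.Y Pool.Agent.helper31.EQ.R
open Pool.Agent.helper12.EQL Pool.Agent.helper12.RP Pool.Agent.helper12.FF Pool.Agent.helper63.FF

variable {κ : ℝ} {s : ℂ} {v : B1}

theorem Geo.rh_hm (G : Geo κ s v) (v2 : B2 v) : v2.rh = v.K * v2.hm := by
  have h1 := v2.e_ih
  have h0 := G.h0
  have h2 : v2.ih * (v.h + 1) = 1 := by rw [h1]; exact inv_mul_cancel₀ (by linarith)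
  have h3 := G.jjm
  rw [v2.e_rh, v2.e_hm, v.e_K]
  rw [v.e_jm] at h3
  -- h ih = h j (1 - h)
  have h4 : v2.ih = v.j * (1 - v.h) := by
    have : (v2.ih - v.j * (1 - v.h)) * (v.h + 1) = 0 := by linear_combination h2 - h3
    rcases mul_eq_zero.1 this with h | h
    · linarith
    · linarith
  rw [h4]; ring

theorem Geo.lf1 (G : Geo κ s v) (v2 : B2 v) {lf phu : ℝ} (h : v.om * lf ≤ v.om1 * phu * v.u)
    : v2.rh * lf ≤ v.tu * v.om1 * v2.hm * phu := by
  rw [G.rh_hm v2, G.Kom, v.e_tu]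
  have h1 : 0 ≤ v.t * v2.hm := by
    rw [v2.e_hm]
    have := G.t0
    have := G.hlt
    have : 0 ≤ 1 - v.h := by linarith
    positivity
  have h2 := mul_le_mul_of_nonneg_left h h1
  linarith

/-- `2 rt/(1 - rt) = (1 - ω)/ω` -/
theorem Geo.rt2 (G : Geo κ s v) : 2 * rt s / (1 - rt s) = v.om1 * v.om⁻¹ := by
  have h1 := G.rt_eq
  have hop := G.op0
  have hom := G.om0
  have h2 : rt s = v.om1 / v.op1 := by rw [eq_div_iff hop.ne']; exact h1
  have h3 : v.op1 = 1 + v.om := v.e_op1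
  have h4 : v.om1 = 1 - v.om := v.e_om1
  have h5 : 1 - rt s = 2 * v.om / v.op1 := by
    rw [h2, eq_div_iff hop.ne', sub_mul, div_mul_cancel₀ _ hop.ne', h3, h4]; ring
  rw [h5, h2]
  field_simp

theorem Geo.rt3 (G : Geo κ s v) : (1 + rt s) / (1 - rt s) = 1 + v.om1 * v.om⁻¹ := by
  rw [← G.rt2]
  have : 1 - rt s ≠ 0 := by
    have := rt_lt_one G.s0
    linarith
  field_simp
  ring

/-- from a logarithmic bound -/
theorem phi_log (G : Geo κ s v) (v2 : B2 v) {z kz lf L phu Ei Eh : ℝ}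
    (hb : ‖log (fT v.e κ s) - log (fT v.e κ 1)‖ ≤ -Real.log (1 - z))
    (hz0 : 0 ≤ z) (hz1 : 0 < 1 - z) (hkz : kz = (1 - (1 / 2) * z) * (1 - z)⁻¹)
    (hlf : lf = z * kz) (hL : L = lf * v.ei) (hL1 : 0 < (1 / 2) - (5 / 4) * L)
    (hEi : Ei = 1 + L * ((45 / 16) * L + 2)) (hEh : Eh = 1 + L * ((45 / 32) * L + 1))
    (hphu : 0 ≤ phu) (h1 : v.om * lf ≤ v.om1 * phu * v.u) :
    ∃ lf Ex, PhiB κ s v v2 phu Ei Eh lf Ex := by
  have he := G.e0
  have h2 : -Real.log (1 - z) ≤ lf := by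
    rw [hlf, hkz]
    exact log_kz hz0 (by linarith)
  have hlf0 : 0 ≤ lf := by
    rw [hlf, hkz]
    have : 0 ≤ 1 - (1 / 2) * z := by linarith
    positivity
  have hei : v.ei = v.e⁻¹ := v.e_ei
  have hL0 : 0 ≤ L := by rw [hL, hei]; positivity
  have hb' := hb.trans h2
  have h3 : 2 * lf / v.e = 2 * L := by rw [hL, hei, div_eq_mul_inv]; ring
  refine ⟨lf, Real.exp (2 * lf / v.e), hb', Ex_lf he hb' le_rfl, ?_, ?_, hphu, G.lf1 v2 h1⟩
  · rw [h3, hEi]; exact exp_Ei hL0 (by linarith)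
  · rw [h3, hEh]; exact exp_Eh hL0 (by linarith)

/-- the bound by `tanh` -/
theorem phi_te (G : Geo κ s v) (v2 : B2 v) {i2 z kz kk lf L phu Ei Eh : ℝ}
    (hi2 : i2 = (v2.eK + 2)⁻¹) (hz : z = v.om1 * v.e * v.t * i2)
    (hz1 : 0 < 1 - z) (hkz : kz = (1 - (1 / 2) * z) * (1 - z)⁻¹) (hkk : kk = kz * i2 * v.e)
    (hphu : phu = v.t * v.nj * kk)
    (hlf : lf = z * kz) (hL : L = lf * v.ei) (hL1 : 0 < (1 / 2) - (5 / 4) * L)
    (hEi : Ei = 1 + L * ((45 / 16) * L + 2)) (hEh : Eh = 1 + L * ((45 / 32) * L + 1)) :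
    ∃ lf Ex, PhiB κ s v v2 phu Ei Eh lf Ex := by
  have he := G.e0
  have hκ := G.κ0
  have ht := G.t0
  have hu := G.u0
  have hom := G.om0
  have hom1 := G.om1_0
  have hK := G.K0
  have heK : v2.eK = v.e * v.K := v2.e_eK
  have hi0 : 0 < i2 := by rw [hi2, heK]; positivity
  have hz0 : 0 ≤ z := by rw [hz]; positivity
  have hnj := G.nj0
  have hkz0 : 0 ≤ kz := by
    rw [hkz]
    have : 0 ≤ 1 - (1 / 2) * z := by linarith
    positivity
  have hkk0 : 0 ≤ kk := by rw [hkk]; positivity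
  refine phi_log G v2 (z := z) (kz := kz) ?_ hz0 hz1 hkz hlf hL hL1 hEi hEh ?_ ?_
  · apply lf_le1 he hκ G.s0 _ (by linarith)
    rw [G.rt2]
    -- tanh bound
    obtain ⟨T, hT⟩ : ∃ T, T = Real.tanh (v.e * κ / 2) := ⟨_, rfl⟩
    rw [← hT]
    have hT0 : 0 ≤ T := by
      rw [hT, Real.tanh_eq_sinh_div_cosh]
      exact div_nonneg (Real.sinh_nonneg_iff.2 (by positivity)) (Real.cosh_pos _).le
    have hT1 : T ≤ v2.eK / 2 := by
      rw [hT, heK, G.K]
      have h1 := tanh_le' (κ := v.e * κ / 2) (by positivity)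
      have h2 := Real.self_le_sinh_iff.2 hκ.le
      have h3 := mul_le_mul_of_nonneg_left h2 he.le
      linarith
    have h4 : T / (1 + T) ≤ v2.eK * i2 := by
      have hp : 0 < v2.eK + 2 := by rw [heK]; positivity
      rw [hi2, ← div_eq_mul_inv, div_le_div_iff₀ (by linarith) hp]
      nlinarith
    have h5 : 0 ≤ v.om1 * v.om⁻¹ := by positivity
    refine (mul_le_mul_of_nonneg_left h4 h5).trans (le_of_eq ?_)
    rw [hz, heK, G.Kom]
    field_simp
  · rw [hphu]; positivity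
  · rw [hlf, hphu, hkk]
    have h6 : v.om = v.u * v.nj := v.e_om
    apply le_of_eq
    rw [hz]
    linear_combination (v.om1 * v.e * v.t * i2 * kz) * h6

/-- the bound by `γ` -/
theorem phi_near (G : Geo κ s v) (v2 : B2 v) {ga z kz lf L phu Ei Eh : ℝ}
    (hga : gam v.e κ s ≤ ga) (hz : z * v.om = v.om1 * ga)
    (hz1 : 0 < 1 - z) (hkz : kz = (1 - (1 / 2) * z) * (1 - z)⁻¹)
    (hphu : phu * v.u = ga * kz)
    (hlf : lf = z * kz) (hL : L = lf * v.ei) (hL1 : 0 < (1 / 2) - (5 / 4) * L)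
    (hEi : Ei = 1 + L * ((45 / 16) * L + 2)) (hEh : Eh = 1 + L * ((45 / 32) * L + 1)) :
    ∃ lf Ex, PhiB κ s v v2 phu Ei Eh lf Ex := by
  have he := G.e0
  have hκ := G.κ0
  have hu := G.u0
  have hom := G.om0
  have hom1 := G.om1_0
  have hga0 : 0 ≤ ga := (gam_nonneg he hκ G.s0).trans hga
  have hz0 : 0 ≤ z := by
    have h1 : 0 ≤ z * v.om := by rw [hz]; positivity
    exact nonneg_of_mul_nonneg_left h1 hom
  have hkz0 : 0 ≤ kz := by
    rw [hkz]
    have : 0 ≤ 1 - (1 / 2) * z := by linarith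
    positivity
  refine phi_log G v2 (z := z) (kz := kz) ?_ hz0 hz1 hkz hlf hL hL1 hEi hEh ?_ ?_
  · apply lf_le2 he hκ G.s0 _ (by linarith)
    rw [G.rt2]
    have h5 : 0 ≤ v.om1 * v.om⁻¹ := by positivity
    refine (mul_le_mul_of_nonneg_left hga h5).trans (le_of_eq ?_)
    have h6 : v.om⁻¹ * v.om = 1 := inv_mul_cancel₀ hom.ne'
    linear_combination (-v.om⁻¹) * hz + z * h6
  · have h1 : 0 ≤ phu * v.u := by rw [hphu]; positivity
    exact nonneg_of_mul_nonneg_left h1 hu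
  · apply le_of_eq
    rw [hlf]
    linear_combination kz * hz - v.om1 * hphu

/-- the bound by `1/ω` -/
theorem phi_slog (G : Geo κ s v) (v2 : B2 v) {a b phu Ei Eh : ℝ} (he2 : 2 ≤ v.e)
    (ha : 0 ≤ a) (hb : 0 ≤ b) (hab : 1 ≤ a * b) (hphu : phu = (1 / 2) * (a * v.nj + b * v.u⁻¹))
    (hEi : Ei = 2 * v.ei + 1) (hEh : Eh = v.ei + 1) :
    ∃ lf Ex, PhiB κ s v v2 phu Ei Eh lf Ex := by
  have he := G.e0
  have hκ := G.κ0
  have hu := G.u0
  have hom := G.om0
  have hom1 := G.om1_0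
  have hnj := G.nj0
  have hei : v.ei = v.e⁻¹ := v.e_ei
  have hu1 : v.u⁻¹ * v.u = 1 := inv_mul_cancel₀ hu.ne'
  have hom2 : v.om⁻¹ * v.om = 1 := inv_mul_cancel₀ hom.ne'
  have hphu0 : 0 ≤ phu := by rw [hphu]; positivity
  refine ⟨Real.log ((1 + rt s) / (1 - rt s)), 1 + 2 / v.e, lf_le3 he hκ G.s0,
    Ex_two he2 hκ G.s0, ?_, ?_, hphu0, G.lf1 v2 ?_⟩
  · have h9 : 2 / v.e = 2 * v.e⁻¹ := div_eq_mul_inv _ _
    rw [hEi, hei]; linarith
  · have h9 : 2 / v.e = 2 * v.e⁻¹ := div_eq_mul_inv _ _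
    rw [hEh, hei]; linarith
  · rw [G.rt3]
    have hz : 0 ≤ v.om1 * v.om⁻¹ := by positivity
    have hw : 0 < Real.sqrt v.om := Real.sqrt_pos.2 hom
    have hsq : Real.sqrt v.om ^ 2 = v.om := Real.sq_sqrt hom.le
    have h1 := log_sqrt hz hw (by
      rw [hsq]
      have h3 : v.om1 = 1 - v.om := v.e_om1
      have : v.om * (1 + v.om1 * v.om⁻¹) = 1 := by linear_combination h3 + v.om1 * hom2
      linarith)
    have h2 := mul_le_mul_of_nonneg_left h1 hom.le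
    refine h2.trans ?_
    have e1 : v.om * (v.om1 * v.om⁻¹ * Real.sqrt v.om) = v.om1 * Real.sqrt v.om := by
      linear_combination (v.om1 * Real.sqrt v.om) * hom2
    rw [e1, mul_assoc]
    apply mul_le_mul_of_nonneg_left _ hom1
    -- sqrt ω ≤ (a ω + b)/2
    have h6 : v.om = v.u * v.nj := v.e_om
    have e2 : phu * v.u = (1 / 2) * (a * v.om + b) := by
      rw [hphu, h6]; linear_combination ((1 / 2) * b) * hu1
    rw [e2]
    apply Real.sqrt_le_iff.2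
    constructor
    · positivity
    · nlinarith [sq_nonneg (a * v.om - b), mul_le_mul_of_nonneg_right hab hom.le]

/-- the bound by `√γ` -/
theorem phi_sq (G : Geo κ s v) (v2 : B2 v) {a b gR' ga phu Ei Eh : ℝ} (he2 : 2 ≤ v.e)
    (hga : gam v.e κ s ≤ ga) (hgR : ga = v.R * gR')
    (ha : 0 ≤ a) (hb : 0 ≤ b) (hab : 1 ≤ a * b) (hphu : phu = (1 / 2) * (a * (v.t * gR') + b))
    (hEi : Ei = 2 * v.ei + 1) (hEh : Eh = v.ei + 1) :
    ∃ lf Ex, PhiB κ s v v2 phu Ei Eh lf Ex := by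
  have he := G.e0
  have hκ := G.κ0
  have hu := G.u0
  have hom := G.om0
  have hom1 := G.om1_0
  have hei : v.ei = v.e⁻¹ := v.e_ei
  have hom2 : v.om⁻¹ * v.om = 1 := inv_mul_cancel₀ hom.ne'
  have hγ0 := gam_nonneg he hκ G.s0
  have hga0 : 0 ≤ ga := hγ0.trans hga
  have ht := G.t0
  have hR : v.R = v.t * (v.u * v.u) := by rw [v.e_R, v.e_u2]
  have hR0 := G.R0
  have hgR0 : 0 ≤ gR' := by
    have h1 : 0 ≤ v.R * gR' := by rw [← hgR]; exact hga0
    exact nonneg_of_mul_nonneg_right h1 hR0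
  have hphu0 : 0 ≤ phu := by rw [hphu]; positivity
  obtain ⟨z0, hz0⟩ : ∃ z, z = v.om1 * v.om⁻¹ := ⟨_, rfl⟩
  have hz00 : 0 ≤ z0 := by rw [hz0]; positivity
  obtain ⟨γ, hγ⟩ : ∃ γ, γ = gam v.e κ s := ⟨_, rfl⟩
  rw [← hγ] at hγ0 hga
  -- the bound
  have hmain : ‖log (fT v.e κ s) - log (fT v.e κ 1)‖ ≤ z0 * Real.sqrt γ := by
    by_cases h : γ * (1 + z0) < 1
    · have h1 : z0 * γ < 1 := by linarith
      have h2 := lf_le2 he hκ G.s0 (c := z0 * γ) (by rw [G.rt2, hz0, hγ]) h1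
      refine h2.trans ?_
      have h3 : 0 < 1 - z0 * γ := by linarith
      have h4 : -Real.log (1 - z0 * γ) = Real.log (1 + z0 * γ / (1 - z0 * γ)) := by
        rw [← Real.log_inv]
        congr 1
        field_simp
        ring
      rw [h4]
      have hw : 0 < Real.sqrt (1 - z0 * γ) := Real.sqrt_pos.2 h3
      have hsq : Real.sqrt (1 - z0 * γ) ^ 2 = 1 - z0 * γ := Real.sq_sqrt h3.le
      have h5 := log_sqrt (z := z0 * γ / (1 - z0 * γ)) (by positivity) hw (by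
        rw [hsq]
        have : (1 - z0 * γ) * (1 + z0 * γ / (1 - z0 * γ)) = 1 := by field_simp; ring
        linarith)
      refine h5.trans ?_
      have hsγ : Real.sqrt γ ^ 2 = γ := Real.sq_sqrt hγ0
      have h6 : Real.sqrt γ ≤ Real.sqrt (1 - z0 * γ) := Real.sqrt_le_sqrt (by linarith)
      have hs0 := Real.sqrt_nonneg γ
      have e1 : z0 * γ / (1 - z0 * γ) * Real.sqrt (1 - z0 * γ) =
          z0 * γ / Real.sqrt (1 - z0 * γ) := by
        rw [div_mul_eq_mul_div, div_eq_div_iff h3.ne' hw.ne']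
        have : Real.sqrt (1 - z0 * γ) * Real.sqrt (1 - z0 * γ) = 1 - z0 * γ :=
          Real.mul_self_sqrt h3.le
        linear_combination (z0 * γ) * this
      rw [e1, div_le_iff₀ hw]
      have h7 : Real.sqrt γ * Real.sqrt γ ≤ Real.sqrt γ * Real.sqrt (1 - z0 * γ) :=
        mul_le_mul_of_nonneg_left h6 hs0
      have h8 : Real.sqrt γ * Real.sqrt γ = γ := by rw [← sq, hsγ]
      rw [h8] at h7
      have := mul_le_mul_of_nonneg_left h7 hz00
      linarith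
    · push Not at h
      refine (lf_le3 he hκ G.s0).trans ?_
      rw [G.rt3, ← hz0]
      rcases hγ0.eq_or_lt with h0 | h0
      · rw [← h0] at h; linarith
      · have hw : 0 < Real.sqrt γ := Real.sqrt_pos.2 h0
        have hsq : Real.sqrt γ ^ 2 = γ := Real.sq_sqrt h0.le
        exact log_sqrt hz00 hw (by rw [hsq]; exact h)
  refine ⟨z0 * Real.sqrt γ, 1 + 2 / v.e, hmain, Ex_two he2 hκ G.s0, ?_, ?_, hphu0, G.lf1 v2 ?_⟩
  · have h9 : 2 / v.e = 2 * v.e⁻¹ := div_eq_mul_inv _ _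
    rw [hEi, hei]; linarith
  · have h9 : 2 / v.e = 2 * v.e⁻¹ := div_eq_mul_inv _ _
    rw [hEh, hei]; linarith
  · have e1 : v.om * (z0 * Real.sqrt γ) = v.om1 * Real.sqrt γ := by
      rw [hz0]; linear_combination (v.om1 * Real.sqrt γ) * hom2
    rw [e1, mul_assoc]
    apply mul_le_mul_of_nonneg_left _ hom1
    apply Real.sqrt_le_iff.2
    constructor
    · positivity
    · refine hga.trans ?_
      rw [hgR, hR, hphu]
      have h2 : 0 ≤ v.t * gR' := by positivity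
      have h3 := mul_le_mul_of_nonneg_right hab h2
      have h4 : v.t * gR' ≤ ((1 / 2) * (a * (v.t * gR') + b)) ^ 2 := by
        nlinarith [sq_nonneg (a * (v.t * gR') - b)]
      have h5 := mul_le_mul_of_nonneg_right h4 (by positivity : 0 ≤ v.u * v.u)
      linarith

end Pool.Agent.helper71.FF
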