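import Pool.Agent.helper71.FF.Disp

/-!
# Far field programs: the radius and the region
-/

namespace Pool.Agent.helper71.FF

open Complex ComplexConjugate Pool.Agent.helper31.EQ.Y Pool.Agent.helper31.EQ.R
open Pool.Agent.helper12.EQL Pool.Agent.helper12.RP Pool.Agent.helper12.FF Pool.Agent.helper63.FF

variable {κ : ℝ}

namespace Geo

variable {s : ℂ} {v : B1}

theorem Yp0 (g : Geo κ s v) (v2 : B2 v) : 0 < v2.Y ∧ 0 < v2.pY ∧ 0 < v2.Yp := by
  have h0 := g.h0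
  have hY : 0 < v2.Y := by rw [v2.e_Y]; positivity
  have hp : 0 < v2.pY := by rw [v2.e_pY]; positivity
  refine ⟨hY, hp, ?_⟩
  rw [v2.e_Yp]
  positivity

/-- `2 Y Yp ≤ exp (2 Y) - 1` -/
theorem Yp_le (g : Geo κ s v) (v2 : B2 v) : 2 * (v2.Y * v2.Yp) ≤ Real.exp (2 * v2.Y) - 1 := by
  obtain ⟨hY, hp, -⟩ := g.Yp0 v2
  have h1 := Real.sum_le_exp_of_nonneg hY.le 5
  simp [Finset.sum_range_succ, Nat.factorial] at h1
  have h2 : 1 + v2.Y * v2.pY ≤ Real.exp v2.Y := by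
    refine le_trans ?_ h1
    rw [v2.e_pY]
    nlinarith [pow_pos hY 3, pow_pos hY 4]
  have h3 : Real.exp (2 * v2.Y) = Real.exp v2.Y ^ 2 := by
    rw [← Real.exp_nat_mul]; congr 1
  rw [h3, v2.e_Yp]
  have h4 : (1 + v2.Y * v2.pY) ^ 2 ≤ Real.exp v2.Y ^ 2 := by
    apply pow_le_pow_left₀ _ h2
    positivity
  nlinarith

theorem lm0 (g : Geo κ s v) (v2 : B2 v) : 0 < v2.lm := by
  obtain ⟨-, -, h⟩ := g.Yp0 v2
  have := g.jgt
  rw [v2.e_lm]
  positivity

theorem h_le (g : Geo κ s v) : 2 * v.h ≤ κ := by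
  rw [g.h]
  have := tanh_le' (κ := κ / 2) (by linarith [g.κ0])
  linarith

/-- the bound of `λ` -/
theorem lm_ge (g : Geo κ s v) (v2 : B2 v) {R : ℝ} (hR0 : 0 < R)
    (hR : R ≤ Real.exp (-(2 * κ * (49 / 10)))) : R < 1 ∧ 2 * v.K * (R / (1 - R)) ≤ v2.lm := by
  have hκ := g.κ0
  have hR1 : R < 1 := by
    refine hR.trans_lt ?_
    rw [Real.exp_lt_one_iff]
    have := mul_pos hκ (by norm_num : (0:ℝ) < 49 / 10)
    linarith
  refine ⟨hR1, ?_⟩
  obtain ⟨hY, hp, hYp⟩ := g.Yp0 v2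
  have h1 := g.Yp_le v2
  have h2 : Real.exp (2 * v2.Y) ≤ Real.exp (2 * κ * (49 / 10)) := by
    apply Real.exp_le_exp.2
    rw [v2.e_Y]
    have := g.h_le
    nlinarith
  have h3 : R / (1 - R) ≤ 1 / (2 * (v2.Y * v2.Yp)) := by
    have h4 : 0 < 2 * (v2.Y * v2.Yp) := by positivity
    rw [div_le_div_iff₀ (by linarith) h4, one_mul]
    have h5 : R * Real.exp (2 * κ * (49 / 10)) ≤ 1 := by
      have h6 := mul_le_mul_of_nonneg_right hR (Real.exp_pos (2 * κ * (49 / 10))).le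
      rw [← Real.exp_add] at h6
      simpa using h6
    have h7 : R * (2 * (v2.Y * v2.Yp)) ≤ R * (Real.exp (2 * κ * (49 / 10)) - 1) :=
      mul_le_mul_of_nonneg_left (by linarith) hR0.le
    linarith
  have hK := g.K0
  have h4 := mul_le_mul_of_nonneg_left h3 (by positivity : 0 ≤ 2 * v.K)
  refine h4.trans ?_
  rw [v2.e_lm, v.e_K, v2.e_Y]
  have hh := g.h0
  have hj := g.jgt
  have e1 : 2 * (2 * (v.h * v.j)) * (1 / (2 * (10035 / 1024 * v.h * v2.Yp))) =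
      2048 / 10035 * v.j * v2.Yp⁻¹ := by
    field_simp
    ring
  rw [e1]
  have hjp : 0 < v.j * v2.Yp⁻¹ := by positivity
  have : 2048 / 10035 * (v.j * v2.Yp⁻¹) ≤ 209 / 1024 * (v.j * v2.Yp⁻¹) :=
    mul_le_mul_of_nonneg_right (by norm_num) hjp.le
  linarith

theorem X_le (g : Geo κ s v) (v2 : B2 v) {R X A : ℝ} (hA : 0 < A) (hR0 : 0 < R)
    (hR : R ≤ Real.exp (-(2 * κ * (49 / 10))))
    (hX : X = 2 * A * Real.sinh κ ^ 2 * R / (1 - R) * ‖s + 1‖) :
    0 < X ∧ X ≤ v.tu * (A * v.op1 * v2.lm) ∧ X ≤ 2 * A * v.K * (R / (1 - R)) * (v.tu * v.op1) := by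
  obtain ⟨hR1, h1⟩ := g.lm_ge v2 hR0 hR
  have hS := g.Sp
  have htu := g.tu0
  have hop := g.op0
  have hK := g.K0
  have h1R : 0 < 1 - R := by linarith
  have e1 : X = 2 * A * v.K * (R / (1 - R)) * (v.tu * v.op1) := by
    rw [hX, ← hS, ← g.K]; ring
  refine ⟨?_, ?_, e1.le⟩
  · rw [e1]; positivity
  · have h2 := mul_le_mul_of_nonneg_left h1 (by positivity : 0 ≤ A * (v.tu * v.op1))
    rw [e1]
    linarith

theorem r_div (g : Geo κ s v) {R : ℝ} (hR1 : R < 1) (hr : rt s < R) :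
    v.om1 / (2 * v.om) ≤ R / (1 - R) := by
  have h1 := g.rt_eq
  have hop := g.op0
  have hom := g.om0
  have h2 : v.om1 < R * v.op1 := by
    rw [← h1]
    exact mul_lt_mul_of_pos_right hr hop
  rw [div_le_div_iff₀ (by linarith) (by linarith)]
  have h3 := v.e_om1
  have h4 := v.e_op1
  nlinarith

theorem X_ge (g : Geo κ s v) {R X A : ℝ} (hA : 0 < A) (hR1 : R < 1)
    (hr : rt s < R) (hX : X = 2 * A * Real.sinh κ ^ 2 * R / (1 - R) * ‖s + 1‖) :
    v.t * (A * v.tu * v.op1 * v.om1) ≤ X := by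
  have hS := g.Sp
  have htu := g.tu0
  have hop := g.op0
  have hK := g.K0
  have hom := g.om0
  have e1 : X = 2 * A * v.K * (v.tu * v.op1) * (R / (1 - R)) := by
    rw [hX, ← hS, ← g.K]; ring
  have h2 := mul_le_mul_of_nonneg_left (g.r_div hR1 hr) (by positivity : 0 ≤ 2 * A * v.K * (v.tu * v.op1))
  rw [e1]
  refine le_trans (le_of_eq ?_) h2
  have hKom := g.Kom
  rw [hKom]
  field_simp

/-- the ratio of the radii -/
theorem Lam_ge (g : Geo κ s v) {R w : ℝ} (hR1 : R < 1) (hr : rt s < R)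
    (hw : w = (1 + (9 / 10) * (Real.exp κ - 1))⁻¹) :
    0 < w ∧ w < 1 ∧ w * (1 - R) / (1 - w * R) ≤ (1 + (v.h + 1) * (v.K + v.t) * (9 * 20⁻¹))⁻¹ := by
  have hm := g.m_eq
  have hm1 : v.m - 1 = v.K * (v.h + 1) := by
    have := g.cKh
    rw [v.e_m]; linarith
  have hK := g.K0
  have hh := g.h0
  have ht := g.t0
  have hop := g.op0
  have hom := g.om0
  have hD : Real.exp κ - 1 = v.K * (v.h + 1) := by rw [← hm, hm1]
  rw [hD] at hw
  obtain ⟨a, ha⟩ : ∃ a, a = (9 / 10) * (v.K * (v.h + 1)) := ⟨_, rfl⟩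
  have ha0 : 0 < a := by rw [ha]; positivity
  rw [← ha] at hw
  have hw0 : 0 < w := by rw [hw]; positivity
  have hwa : w * (1 + a) = 1 := by rw [hw, inv_mul_cancel₀ (by positivity)]
  have hw1 : w < 1 := by nlinarith
  refine ⟨hw0, hw1, ?_⟩
  have hR0 : 0 ≤ R := (rt_nonneg s).trans hr.le
  have h1 : 0 < 1 - w * R := by nlinarith
  have hKt : 0 < 1 + (v.h + 1) * (v.K + v.t) * (9 * 20⁻¹) := by positivity
  rw [div_le_iff₀ h1]
  have h2 : w * (1 - R) * (1 + (v.h + 1) * (v.K + v.t) * (9 * 20⁻¹)) ≤ 1 - w * R := by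
    -- 1/w - R = 1 - R + a ; need (1-R)(1 + (h+1)(K+t) 9/20) ≤ 1 - R + a
    have h3 : (1 - R) * ((v.h + 1) * (v.K + v.t) * (9 * 20⁻¹)) ≤ a := by
      -- (1 - R)(K + t) ≤ 2 K
      have h4 : (1 - R) * (v.K + v.t) ≤ 2 * v.K := by
        have h5 := g.rt_eq
        have h6 : v.om1 ≤ R * v.op1 := by
          rw [← h5]; exact mul_le_mul_of_nonneg_right hr.le hop.le
        have h7 : (1 - R) * v.op1 ≤ 2 * v.om := by
          have := v.e_om1
          have := v.e_op1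
          nlinarith
        have h8 : v.K + v.t = v.op1 * v.t := by
          rw [g.Kom, v.e_op1]; ring
        rw [h8, g.Kom]
        nlinarith [mul_le_mul_of_nonneg_right h7 ht.le]
      rw [ha]
      nlinarith [mul_le_mul_of_nonneg_right h4 (by positivity : 0 ≤ (v.h + 1) * (9 * 20⁻¹ : ℝ))]
    have h9 : w * ((1 - R) * (1 + (v.h + 1) * (v.K + v.t) * (9 * 20⁻¹))) ≤ w * (1 - R + a) :=
      mul_le_mul_of_nonneg_left (by linarith) hw0.le
    have h10 : w * (1 - R + a) = 1 - w * R := by linear_combination hwa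
    linarith
  calc w * (1 - R) = (1 + (v.h + 1) * (v.K + v.t) * (9 * 20⁻¹))⁻¹ *
        (w * (1 - R) * (1 + (v.h + 1) * (v.K + v.t) * (9 * 20⁻¹))) := by
        field_simp
    _ ≤ _ := mul_le_mul_of_nonneg_left h2 (by positivity)

end Geo

/-- **Invariance** -/
theorem inv_of {s : ℂ} {v : B1} (G : Geo κ s v) {v2 : B2 v} {b : GB v.q v.x v.h1}
    {A g ga phu Ei Eh : ℝ} (m : Mid v v2 b A g ga phu Ei Eh) {R X w η : ℝ} (hA : 0 < A)
    (hR0 : 0 < R) (hR : R ≤ Real.exp (-(2 * κ * (49 / 10)))) (hr : rt s < R)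
    (hX : X = 2 * A * Real.sinh κ ^ 2 * R / (1 - R) * ‖s + 1‖)
    (hw : w = (1 + (9 / 10) * (Real.exp κ - 1))⁻¹) (hη0 : 0 ≤ η) (hsrc : 0 ≤ m.src) (hfx : 0 ≤ m.fx)
    (hη : η ≤ m.NN * (v.tu2 * v.om1 * m.src + v.tu * m.fx * X)) (hηe : η ≤ v.tu2 * m.eN)
    (hNN : 0 ≤ m.NN) (hS : 0 < v.op1 - v.tu * m.eN) (hV : 0 < m.V) :
    rt s + 2 * Real.sinh κ * η / (Real.sinh κ * ‖s + 1‖ * (Real.sinh κ * ‖s + 1‖ - η)) <
      Real.exp (2 * κ) * (w * R) := by
  have hK := G.K0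
  have hh := G.h0
  have ht := G.t0
  have hop := G.op0
  have hom := G.om0
  have htu := G.tu0
  have hm := G.m_eq
  have hm1 : v.m - 1 = v.K * (v.h + 1) := by
    have := G.cKh
    rw [v.e_m]; linarith
  obtain ⟨hR1, hlm⟩ := G.lm_ge v2 hR0 hR
  obtain ⟨hX0, -, hXe⟩ := G.X_le v2 hA hR0 hR hX
  rw [G.Sp, ← G.K]
  obtain ⟨den, hden⟩ : ∃ d, d = v.op1 - v.tu * m.eN := ⟨_, rfl⟩
  rw [← hden] at hS
  -- V
  obtain ⟨P, hP⟩ : ∃ P, P = (v.h + 1) * (m.m1 + 2 - 2 * m.beta) * (m.m1 * (2 * m.beta) + 1)⁻¹ := ⟨_, rfl⟩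
  obtain ⟨T, hT⟩ : ∃ T, T = m.src + 2 * (A * m.fx * (v.K + (1 / 2) * v2.lm)) := ⟨_, rfl⟩
  have hV' : 2 * T * m.NN * den⁻¹ < P := by
    have := m.e_V
    rw [← hP, ← hT, ← hden] at this
    rw [this] at hV
    linarith
  -- step 1: 2 K η /(S (S-η)) ≤ K R * (2 T NN / den)
  have hSη : v.tu * den ≤ v.tu * v.op1 - η := by
    rw [hden]
    have : v.tu2 = v.tu * v.tu := v.e_tu2
    rw [this] at hηe
    linarith
  have hT0 : 0 ≤ T := by
    rw [hT]
    have := G.lm0 v2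
    positivity
  have hom1R : v.om1 ≤ R * v.op1 := by
    rw [← G.rt_eq]; exact mul_le_mul_of_nonneg_right hr.le hop.le
  have hXb : X ≤ 2 * A * (v.K + (1 / 2) * v2.lm) * R * (v.tu * v.op1) := by
    refine hXe.trans ?_
    have h1 : v.K * (R / (1 - R)) ≤ (v.K + (1 / 2) * v2.lm) * R := by
      have e1 : v.K * (R / (1 - R)) = (v.K + v.K * (R / (1 - R))) * R := by
        have : (1 - R) ≠ 0 := by linarith
        field_simp
        ring
      rw [e1]
      apply mul_le_mul_of_nonneg_right _ hR0.le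
      linarith
    have := mul_le_mul_of_nonneg_left h1 (by positivity : 0 ≤ 2 * A * (v.tu * v.op1))
    linarith
  have hη2 : η ≤ m.NN * (v.tu2 * v.op1 * R * T) := by
    refine hη.trans (mul_le_mul_of_nonneg_left ?_ hNN)
    have h1 : v.tu2 * v.om1 * m.src ≤ v.tu2 * v.op1 * R * m.src := by
      have h2 : 0 ≤ v.tu2 * m.src := by rw [v.e_tu2]; positivity
      nlinarith [mul_le_mul_of_nonneg_left hom1R h2]
    have h3 := mul_le_mul_of_nonneg_left hXb (by positivity : 0 ≤ v.tu * m.fx)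
    have e2 : v.tu2 * v.op1 * R * T = v.tu2 * v.op1 * R * m.src +
        v.tu * m.fx * (2 * A * (v.K + (1 / 2) * v2.lm) * R * (v.tu * v.op1)) := by
      rw [hT, v.e_tu2]; ring
    rw [e2]
    linarith
  have step : 2 * v.K * η / (v.tu * v.op1 * (v.tu * v.op1 - η)) ≤
      v.K * R * (2 * T * m.NN * den⁻¹) := by
    have hd1 : 0 < v.tu * v.op1 * (v.tu * den) := by positivity
    have h1 : 2 * v.K * η / (v.tu * v.op1 * (v.tu * v.op1 - η)) ≤
        2 * v.K * η / (v.tu * v.op1 * (v.tu * den)) := by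
      apply div_le_div_of_nonneg_left (by positivity) hd1
      exact mul_le_mul_of_nonneg_left hSη (by positivity)
    refine h1.trans ?_
    rw [div_le_iff₀ hd1]
    have h2 := mul_le_mul_of_nonneg_left hη2 (by positivity : 0 ≤ 2 * v.K)
    refine h2.trans (le_of_eq ?_)
    rw [v.e_tu2]
    field_simp
  -- step 2
  have hwd : Real.exp (2 * κ) * (w * R) = v.m ^ 2 * (w * R) := by
    rw [hm, ← Real.exp_nat_mul]; congr 1
  rw [hwd]
  have hD : Real.exp κ - 1 = v.K * (v.h + 1) := by rw [← hm, hm1]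
  have hb : m.beta = 9 / 20 := by rw [m.e_beta]; norm_num
  have hm1' : m.m1 = v.K * (v.h + 1) := by rw [m.e_m1, hm1]
  have hw' : w * (m.m1 * (2 * m.beta) + 1) = 1 := by
    rw [hw, hD, hm1', hb]
    have : (1 + 9 / 10 * (v.K * (v.h + 1))) ≠ 0 := by positivity
    rw [show v.K * (v.h + 1) * (2 * (9 / 20)) + 1 = 1 + 9 / 10 * (v.K * (v.h + 1)) by ring]
    exact inv_mul_cancel₀ this
  have hPd : 0 < m.m1 * (2 * m.beta) + 1 := by rw [hb, hm1']; positivity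
  have hPw : v.K * P = v.m ^ 2 * w - 1 := by
    have hwinv : w = (m.m1 * (2 * m.beta) + 1)⁻¹ := eq_inv_of_mul_eq_one_left hw'
    have e3 : v.m = m.m1 + 1 := by rw [m.e_m1]; ring
    rw [hP, ← hwinv, e3]
    have e4 : v.K * ((v.h + 1) * (m.m1 + 2 - 2 * m.beta) * w) =
        (v.K * (v.h + 1)) * (m.m1 + 2 - 2 * m.beta) * w := by ring
    rw [e4, ← hm1']
    linear_combination (-1 : ℝ) * hw'
  have h3 : v.K * R * (2 * T * m.NN * den⁻¹) < v.K * R * P :=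
    mul_lt_mul_of_pos_left hV' (by positivity)
  have h4 : v.K * R * P = (v.m ^ 2 * w - 1) * R := by rw [← hPw]; ring
  rw [h4] at h3
  linarith

end Pool.Agent.helper71.FF
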